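import Pool.Agent.Lib.MP_4e64b4_nt.Fam

set_option autoImplicit false

open NumberField IsDedekindDomain Module Polynomial Finset
open scoped IntermediateField

namespace Pool.Agent.Lib.MP_4e64b4_nt

variable {A : Finset ℤ} {t : ℤ} {p : ℕ}

lemma exists_insep [Fact p.Prime] (A : Finset ℤ) : ∃ S : Finset (ZMod p), S.card ≤ 2 * A.card ∧
    ∀ t : ℤ, (t : ZMod p) ∉ S → ((fP A t).map (Int.castRingHom (ZMod p))).Separable := by
  classical
  let K := AlgebraicClosure (ZMod p)
  let g := (gP A).map (Int.castRingHom K)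
  have hg : g.Monic := monic_gP.map _
  have hd : g.natDegree = A.card := by rw [monic_gP.natDegree_map, natDegree_gP]
  have hlt : g.derivative.degree < (g * g).degree :=
    (degree_derivative_lt hg.ne_zero).trans_le (degree_le_mul_left _ hg.ne_zero)
  refine ⟨univ.filter fun s => algebraMap _ K s ∈
    (g * g + g.derivative).roots.toFinset.image fun r => r - (g.eval r)⁻¹, ?_, fun t ht => ?_⟩
  · refine (card_le_card_of_injOn (algebraMap _ K) (fun s hs => (mem_filter.mp hs).2)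
      fun _ _ _ _ e => (algebraMap (ZMod p) K).injective e).trans (card_image_le.trans
        ((Multiset.toFinset_card_le _).trans ((card_roots' _).trans_eq ?_)))
    rw [natDegree_add_eq_left_of_degree_lt hlt, hg.natDegree_mul hg, hd, two_mul]
  refine (isCoprime_iff_aeval_ne_zero_of_isAlgClosed _ K _ _).mpr fun r => ?_
  by_contra! h
  obtain ⟨h1, h2⟩ := h
  have e : ∀ P : ℤ[X], aeval r (P.map (Int.castRingHom (ZMod p)))
      = (P.map (Int.castRingHom K)).eval r := fun P => by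
    rw [← eval_map_algebraMap, Polynomial.map_map]; congr 2
  rw [derivative_map, e, ← derivative_map] at h2
  rw [e] at h1
  simp only [fP, Polynomial.map_sub, Polynomial.map_mul, map_X, map_C, eq_intCast, map_intCast,
    Polynomial.map_one, derivative_sub, derivative_mul, derivative_X, derivative_one, eval_sub,
    eval_add, eval_mul, eval_X, eval_one, derivative_intCast, eval_zero, eval_intCast,
    Polynomial.map_intCast, Int.cast_id] at h1 h2
  refine ht (mem_filter.mpr ⟨mem_univ _, mem_image.mpr ⟨r, ?_, ?_⟩⟩)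
  · rw [Multiset.mem_toFinset, mem_roots ((hg.mul hg).add_of_left hlt).ne_zero, IsRoot, eval_add,
      eval_mul]
    linear_combination (g.eval r) * h2 - (g.derivative.eval r) * h1
  · rw [map_intCast, ← eq_inv_of_mul_eq_one_left (sub_eq_zero.mp h1), sub_sub_cancel]

open Classical in
lemma card_not_nice (hp : p.Prime) (hA : ∀ a ∈ A, ∀ b ∈ A, (a : ZMod p) = b → a = b) (T : ℕ) :
    ((Icc 1 T).filter fun t : ℕ => ¬ Nice A p t).card ≤ 3 * A.card * (T / p + p) := by
  have : Fact p.Prime := ⟨hp⟩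
  obtain ⟨S1, h1, h2⟩ := exists_insep (p := p) A
  have h3 : ∀ r : ZMod p, ∃ S : Finset (ZMod p), S.card ≤ A.card + (if r ∈ S1 then p else 0) ∧
      ∀ s : ℤ, (s : ZMod p) ∉ S → Nice A p (r.val + p * s) := fun r => by
    by_cases h : r ∈ S1
    · exact ⟨univ, by simp [h], by simp⟩
    · simpa [h] using exists_nice hA r.val (h2 _ (by simpa using h))
  choose S h3 h4 using h3
  refine (card_le_card_of_injOn (t := (univ.sigma S) ×ˢ range (T / p / p + 1))
    (fun t : ℕ => (⟨(t : ZMod p), ((t / p : ℕ) : ZMod p)⟩, t / p / p)) (fun t ht => ?_)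
    fun t _ t' _ e => ?_).trans ?_
  · obtain ⟨ht1, ht2⟩ := mem_filter.mp ht
    refine mem_coe.mpr (mem_product.mpr ⟨mem_sigma.mpr ⟨mem_univ _, by_contra fun h => ht2 ?_⟩,
      mem_range.mpr (Nat.lt_succ_of_le
        (Nat.div_le_div_right (Nat.div_le_div_right (mem_Icc.mp ht1).2)))⟩)
    have := h4 t (t / p : ℕ) (by rwa [Int.cast_natCast])
    rwa [ZMod.val_natCast, ← Nat.cast_mul, ← Nat.cast_add, Nat.mod_add_div] at this
  · simp only [Prod.mk.injEq, Sigma.mk.injEq, heq_eq_eq, ZMod.natCast_eq_natCast_iff'] at e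
    rw [← Nat.mod_add_div t p, ← Nat.mod_add_div t' p, ← Nat.mod_add_div (t / p) p,
      ← Nat.mod_add_div (t' / p) p, e.1.1, e.1.2, e.2]
  · rw [card_product, card_sigma, card_range]
    have h5 : ∑ r, (S r).card ≤ 3 * A.card * p := by
      refine (sum_le_sum fun r _ => h3 r).trans ?_
      rw [sum_add_distrib, sum_const, card_univ, ZMod.card, sum_ite_mem, univ_inter, sum_const,
        smul_eq_mul, smul_eq_mul]
      nlinarith
    refine (Nat.mul_le_mul_right _ h5).trans ?_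
    rw [mul_assoc _ p, mul_add p, mul_one]
    gcongr
    exact Nat.mul_div_le _ _

lemma classNumber_le (E : Type*) [Field E] [NumberField E] :
    classNumber E ≤ (2 ^ finrank ℚ E * (discr E).natAbs + 1) ^ (finrank ℚ E + 1) := by
  classical
  set M := 2 ^ finrank ℚ E * (discr E).natAbs with hM
  let b := RingOfIntegers.basis E
  have h : ∀ c : ClassGroup (𝓞 E), ∃ (k : Fin (M + 1)) (v : _ → Fin (M + 1)) (I : _),
      ClassGroup.mk0 I = c ∧ I.1 = Ideal.span {((k : ℕ) : 𝓞 E), ∑ i, ((v i : ℕ) : ℤ) • b i} := by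
    intro c
    obtain ⟨I, h1, h2⟩ := exists_ideal_in_class_of_norm_le c
    have h0 := Ideal.absNorm_ne_zero_of_nonZeroDivisors I
    have h3 : Ideal.absNorm I.1 < M + 1 := by
      refine Nat.lt_succ_of_le (Nat.cast_le (α := ℝ).mp (h2.trans ?_))
      rw [hM, Nat.cast_mul, Nat.cast_pow, ← one_mul ((discr E).natAbs : ℝ)]
      have h4 := InfinitePlace.card_add_two_mul_card_eq_rank E
      have h5 : (1 : ℝ) ≤ |discr E| := by exact_mod_cast Int.one_le_abs (discr_ne_zero E)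
      gcongr
      · refine (pow_le_pow_left₀ (by positivity) (?_ : _ ≤ (2 : ℝ)) _).trans
          (pow_le_pow_right₀ one_le_two (by omega))
        rw [div_le_iff₀ Real.pi_pos]
        linarith [Real.two_le_pi]
      · refine div_le_one_of_le₀ ?_ (by positivity)
        exact_mod_cast Nat.factorial_le_pow _
      · rw [Nat.cast_natAbs, Real.sqrt_le_left (by positivity), ← Int.cast_abs]
        nlinarith
    obtain ⟨y, hy⟩ := IsDedekindDomain.exists_eq_span_pair (Ideal.absNorm_mem I.1)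
      (Nat.cast_ne_zero.mpr h0)
    have h6 : ∀ i, 0 ≤ b.repr y i % Ideal.absNorm I.1 := fun i =>
      Int.emod_nonneg _ (Nat.cast_ne_zero.mpr h0)
    refine ⟨⟨_, h3⟩, fun i => ⟨(b.repr y i % Ideal.absNorm I.1).toNat, lt_trans ?_ h3⟩, I, h1, ?_⟩
    · rw [Int.toNat_lt (h6 i)]
      exact Int.emod_lt_of_pos _ (by positivity)
    · rw [← Ideal.span_pair_add_left_mul (z := ∑ i, (b.repr y i / Ideal.absNorm I.1) • b i)]
      convert hy
      conv_rhs => rw [← b.sum_repr y]
      rw [mul_sum, ← sum_add_distrib]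
      refine sum_congr rfl fun i _ => ?_
      rw [Int.toNat_of_nonneg (h6 i), ← nsmul_eq_mul, ← natCast_zsmul, smul_smul, ← add_smul,
        Int.emod_add_mul_ediv]
  choose k v I h1 h2 using h
  refine (Fintype.card_le_of_injective (fun c => (k c, v c)) fun c c' e => ?_).trans_eq ?_
  · simp only [Prod.mk.injEq] at e
    rw [← h1 c, ← h1 c', Subtype.ext ((h2 c).trans (by rw [e.1, e.2, h2 c']))]
  · rw [Fintype.card_prod, Fintype.card_fun, Fintype.card_fin, ← finrank_eq_card_chooseBasisIndex,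
      RingOfIntegers.rank, pow_succ']

lemma discr_le {E : Type*} [Field E] [NumberField E] {θ : E} {f : ℤ[X]} (hθ : IsIntegral ℤ θ)
    (hx : Algebra.adjoin ℚ {θ} = ⊤) (hf : aeval θ f = 0) (h0 : aeval θ (derivative f) ≠ 0) {B : ℕ}
    (hB : ∀ z : ℂ, aeval z f = 0 → ‖aeval z (derivative f)‖ ≤ B) :
    (discr E).natAbs ≤ B ^ finrank ℚ E := by
  let x : 𝓞 E := ⟨θ, hθ⟩
  have e : ∀ P : ℤ[X], algebraMap (𝓞 E) E (aeval x P) = aeval θ P := fun P =>
    (aeval_algebraMap_apply E x P).symm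
  have h1 := Ideal.absNorm_dvd_absNorm_of_le ((Ideal.span_singleton_le_iff_mem _).mpr
    (Ideal.mul_le_right (derivative_mem (x := x) hx
      (IsFractionRing.injective (𝓞 E) E ((e f).trans (hf.trans (map_zero _).symm))))))
  rw [absNorm_differentIdeal E, Ideal.absNorm_span_singleton] at h1
  refine (Nat.le_of_dvd (Int.natAbs_pos.mpr (Algebra.norm_ne_zero_iff.mpr fun h => h0 ?_)) h1).trans ?_
  · rw [← e, h, map_zero]
  have h2 := Algebra.norm_eq_prod_embeddings ℚ ℂ (aeval θ (derivative f))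
  rw [← e, ← Algebra.coe_norm_int, map_intCast, e] at h2
  rw [← Nat.cast_le (α := ℝ), Nat.cast_natAbs, Int.cast_abs, ← Complex.norm_intCast, h2, norm_prod,
    Nat.cast_pow, ← AlgHom.card ℚ E ℂ, ← card_univ, ← prod_const]
  refine prod_le_prod (fun _ _ => norm_nonneg _) fun σ _ => ?_
  have e' : ∀ P : ℤ[X], σ (aeval θ P) = aeval (σ θ) P := fun P =>
    (aeval_algHom_apply (σ.restrictScalars ℤ) θ P).symm
  rw [e']
  exact hB _ (by rw [← e', hf, map_zero])

lemma exists_pow_bound (P : ℤ[X]) :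
    ∃ c : ℕ, ∀ (z : ℂ) (B : ℝ), 2 ≤ B → ‖z‖ ≤ B → ‖aeval z P‖ ≤ B ^ c := by
  induction P using Polynomial.induction_on' with
  | add P Q hP hQ =>
    obtain ⟨a, ha⟩ := hP
    obtain ⟨b, hb⟩ := hQ
    refine ⟨a + b + 1, fun z B h1 h2 => ?_⟩
    have h3 := pow_le_pow_right₀ (one_le_two.trans h1) (Nat.le_add_right a b)
    have h4 := pow_le_pow_right₀ (one_le_two.trans h1) (Nat.le_add_left b a)
    rw [map_add, pow_succ]
    nlinarith [norm_add_le (aeval z P) (aeval z Q), ha z B h1 h2, hb z B h1 h2,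
      pow_pos (zero_lt_two.trans_le h1) (a + b)]
  | monomial n a =>
    refine ⟨a.natAbs + n, fun z B h1 h2 => ?_⟩
    rw [aeval_monomial, norm_mul, norm_pow, pow_add, eq_intCast, Complex.norm_intCast,
      ← Int.cast_abs, ← Nat.cast_natAbs]
    gcongr
    exact le_trans (by exact_mod_cast Nat.lt_two_pow_self.le) (pow_le_pow_left₀ zero_le_two h1 _)

lemma exists_deriv_bound (A : Finset ℤ) : ∃ c : ℕ, ∀ T t : ℕ, 2 ≤ T → t ≤ T → ∀ z : ℂ,
    aeval z (fP A t) = 0 → ‖aeval z (derivative (fP A t))‖ ≤ (T ^ c : ℕ) := by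
  obtain ⟨a, ha⟩ := exists_pow_bound (gP A)
  obtain ⟨b, hb⟩ := exists_pow_bound (derivative (gP A))
  obtain ⟨c, hc⟩ := (A.image Int.natAbs).bddAbove
  refine ⟨(c + 2) * (a + b + 3), fun T t hT ht z hz => ?_⟩
  have hT : (2 : ℝ) ≤ T := by exact_mod_cast hT
  have ht : (t : ℝ) ≤ T := by exact_mod_cast ht
  have h1 : (T : ℝ) + c + 1 ≤ T ^ (c + 2) := by
    have : ((c + 1 : ℕ) : ℝ) + 1 ≤ 2 ^ (c + 1) := by exact_mod_cast Nat.lt_two_pow_self
    have h := pow_le_pow_left₀ zero_le_two hT (c + 1)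
    rw [pow_succ]
    push_cast at this
    nlinarith [c.cast_nonneg (α := ℝ)]
  obtain ⟨B, hB⟩ : ∃ B : ℝ, B = T ^ (c + 2) := ⟨_, rfl⟩
  rw [Nat.cast_pow, pow_mul, ← hB]
  rw [← hB] at h1
  have hc0 := c.cast_nonneg (α := ℝ)
  have h2 : ‖z‖ ≤ B := by
    by_contra! h
    have h3 := congrArg norm (sub_eq_zero.mp ((map_sub _ _ _).symm.trans hz))
    simp only [gP, map_mul, map_prod, map_sub, aeval_X, aeval_C, eq_intCast, map_one, norm_mul,
      norm_prod, norm_one, map_intCast, Int.cast_natCast, map_natCast] at h3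
    have h4 : 1 < ‖z - t‖ := by
      have := norm_sub_norm_le z t
      rw [Complex.norm_natCast] at this
      linarith
    have h5 : 1 ≤ ∏ a ∈ A, ‖z - a‖ := one_le_prod fun a ha => by
      have := norm_sub_norm_le z a
      have h6 : (a.natAbs : ℝ) ≤ c := by exact_mod_cast hc (mem_image_of_mem _ ha)
      rw [Complex.norm_intCast, ← Int.cast_abs, ← Nat.cast_natAbs] at this
      linarith
    nlinarith
  have h3 : 2 ≤ B := by linarith
  have h4 := pow_le_pow_right₀ (one_le_two.trans h3) (Nat.le_add_right a b)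
  have h5 := pow_le_pow_right₀ (one_le_two.trans h3) (Nat.le_add_left b a)
  have h6 : ‖z - t‖ ≤ 2 * B := by
    have := norm_sub_le z t
    rw [Complex.norm_natCast] at this
    linarith
  rw [fP, derivative_sub, derivative_one, sub_zero, derivative_mul, derivative_X_sub_C, one_mul,
    map_add, map_mul, map_sub, aeval_X, aeval_C, eq_intCast, Int.cast_natCast]
  refine (norm_add_le _ _).trans ?_
  rw [norm_mul]
  have h7 := mul_le_mul h6 ((hb z B h3 h2).trans h5) (norm_nonneg _) (by linarith)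
  have h8 := pow_pos (zero_lt_two.trans_le h3) (a + b)
  have h9 : 1 + 2 * B ≤ B ^ 3 := by nlinarith [sq_nonneg B]
  rw [pow_add _ (a + b)]
  nlinarith [(ha z B h3 h2).trans h4]

lemma exists_class_bound (A : Finset ℤ) : ∃ c : ℕ, ∀ T t : ℕ, 2 ≤ T → t ≤ T →
    ∀ (E : Type) [Field E] [NumberField E] (θ : E), ℚ⟮θ⟯ = ⊤ → aeval θ (fP A t) = 0 →
      aeval θ (derivative (fP A t)) ≠ 0 → classNumber E ≤ T ^ c := by
  obtain ⟨c, hc⟩ := exists_deriv_bound A
  refine ⟨((c + 1) * (A.card + 1) + 1) * (A.card + 2), fun T t hT ht E _ _ θ h1 h2 h3 => ?_⟩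
  have hθ : IsIntegral ℤ θ := ⟨_, monic_fP, h2⟩
  have h4 : finrank ℚ E ≤ A.card + 1 := by
    rw [← (Field.primitive_element_iff_minpoly_natDegree_eq ℚ θ).mp h1, ← natDegree_fP (t := t),
      ← monic_fP.natDegree_map (algebraMap ℤ ℚ)]
    exact natDegree_le_of_dvd (minpoly.dvd ℚ θ (by rwa [aeval_map_algebraMap]))
      (monic_fP.map _).ne_zero
  have h5 := discr_le hθ (IntermediateField.adjoin_eq_top_iff.mp h1) h2 h3 (hc T t hT ht)
  have h6 : 1 ≤ T := by omega
  refine (classNumber_le E).trans ?_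
  rw [pow_mul]
  refine (Nat.pow_le_pow_left ?_ _).trans (Nat.pow_le_pow_right (by positivity) (by omega))
  have h7 : 2 ^ finrank ℚ E * (discr E).natAbs ≤ T ^ ((c + 1) * (A.card + 1)) := by
    rw [pow_mul, pow_succ' T, mul_pow]
    exact Nat.mul_le_mul ((Nat.pow_le_pow_left hT _).trans (Nat.pow_le_pow_right h6 h4))
      (h5.trans (Nat.pow_le_pow_right (by positivity) h4))
  have h8 := Nat.one_le_pow ((c + 1) * (A.card + 1)) T h6
  rw [pow_succ]
  nlinarith

lemma sum_log_le {S : Finset ℕ} (hS : ∀ p ∈ S, p.Prime) (k : ℕ → ℕ) {N : ℕ} (hN : N ≠ 0)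
    (h : ∀ p ∈ S, p ^ k p ∣ N) : ∑ p ∈ S, k p * Real.log p ≤ Real.log N := by
  have h1 : ∏ p ∈ S, p ^ k p ∣ N := Finset.prod_dvd_of_isRelPrime (fun p hp q hq e =>
    Nat.coprime_iff_isRelPrime.mp (((Nat.coprime_primes (hS p hp) (hS q hq)).mpr e).pow _ _)) h
  simp only [← Real.log_pow]
  rw [← Real.log_prod fun p hp => pow_ne_zero _ (Nat.cast_ne_zero.mpr (hS p hp).ne_zero)]
  refine Real.log_le_log (prod_pos fun p hp => pow_pos (Nat.cast_pos.mpr (hS p hp).pos) _) ?_
  exact_mod_cast Nat.le_of_dvd (Nat.pos_of_ne_zero hN) h1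

open Classical in
theorem average (A : Finset ℤ) : ∃ C : ℝ, ∀ θ : ℕ → ℂ, (∀ t : ℕ, aeval (θ t) (fP A t) = 0) →
    ∀ T Y : ℕ, 2 ≤ T → ∑ t ∈ Icc 1 T, ∑ p ∈ Icc 1 Y with
      p.Prime ∧ p ≠ 2 ∧ maxAb ℚ⟮θ t⟯ p ≠ ⊥, Real.log p ≤ C * (T * Real.log T + Y ^ 2) := by
  obtain ⟨c, hc⟩ := exists_class_bound A
  let Δ := ∏ x ∈ A.offDiag, (x.1 - x.2).natAbs
  have hΔ : Δ ≠ 0 := prod_ne_zero_iff.mpr fun x hx =>
    Int.natAbs_ne_zero.mpr (sub_ne_zero.mpr (mem_offDiag.mp hx).2.2)
  refine ⟨Δ + c + 6 * A.card, fun θ hθ T Y hT => ?_⟩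
  have hA : ∀ p, ¬ p ∣ Δ → ∀ a ∈ A, ∀ b ∈ A, (a : ZMod p) = b → a = b := fun p hp a ha b hb e => by
    by_contra h
    refine hp (dvd_trans ?_ (dvd_prod_of_mem _ (mem_offDiag.mpr ⟨hb, ha, Ne.symm h⟩ : (b, a) ∈ _)))
    exact Int.natCast_dvd.mp ((ZMod.intCast_eq_intCast_iff_dvd_sub _ _ _).mp e)
  have key : ∀ t ∈ Icc 1 T, ∃ h : ℕ, h ≠ 0 ∧ h ≤ T ^ c ∧ ∀ p, p.Prime → p ≠ 2 → Nice A p t →
      ¬ p ∣ h → maxAb ℚ⟮θ t⟯ p = ⊥ := fun t ht => by
    have hint : IsIntegral ℚ (θ t) := IsIntegral.tower_top (R := ℤ) ⟨_, monic_fP, hθ t⟩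
    have := IntermediateField.adjoin.finiteDimensional hint
    have : NumberField ℚ⟮θ t⟯ := NumberField.of_module_finite ℚ _
    let x := IntermediateField.AdjoinSimple.gen ℚ (θ t)
    have h1 : ℚ⟮x⟯ = ⊤ := (Field.primitive_element_iff_minpoly_natDegree_eq ℚ x).mpr (by
      rw [IntermediateField.adjoin.finrank hint]
      exact congrArg _ (IntermediateField.minpoly_gen ℚ (θ t)))
    have h2 : aeval x (fP A t) = 0 := (algebraMap _ ℂ).injective (by
      rw [← aeval_algebraMap_apply, map_zero]; exact hθ t)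
    have h3 := fun p (hp : p.Prime) (h : Nice A p t) => h.imp hp
      (IntermediateField.adjoin_eq_top_iff.mp h1) h2
    by_cases h0 : aeval x (derivative (fP A t)) = 0
    · exact ⟨1, one_ne_zero, Nat.one_le_pow _ _ (by omega), fun p hp _ h => absurd h0 (h3 p hp h).2.2⟩
    · exact ⟨_, classNumber_ne_zero _, hc T t hT (mem_Icc.mp ht).2 _ x h1 h2 h0,
        fun p hp h2 h hh => maxAb_eq_bot hp h2 hh (h3 p hp h).1 (h3 p hp h).2.1⟩
  choose! h h0 h1 h2 using key
  let P := (Icc 1 Y).filter Nat.Prime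
  have hP : ∀ p ∈ P, p.Prime := fun p hp => (mem_filter.mp hp).2
  have hT' : (2 : ℝ) ≤ T := by exact_mod_cast hT
  have hl : 0 ≤ Real.log T := Real.log_natCast_nonneg T
  have s1 : ∀ t ∈ Icc 1 T, ∑ p ∈ Icc 1 Y with p.Prime ∧ p ≠ 2 ∧ maxAb ℚ⟮θ t⟯ p ≠ ⊥, Real.log p
      ≤ (Δ + c) * Real.log T + ∑ p ∈ P, if ¬ p ∣ Δ ∧ ¬ Nice A p t then Real.log p else 0 := by
    intro t ht
    have e1 := sum_log_le (S := P.filter (· ∣ Δ * h t)) (fun p hp => hP p (mem_filter.mp hp).1)
      (fun _ => 1) (mul_ne_zero hΔ (h0 t ht)) fun p hp => by simpa using (mem_filter.mp hp).2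
    have e2 : Real.log (Δ * h t : ℕ) ≤ (Δ + c) * Real.log T := by
      rw [← Nat.cast_add, ← Real.log_pow]
      refine Real.log_le_log (Nat.cast_pos.mpr (Nat.pos_of_ne_zero (mul_ne_zero hΔ (h0 t ht)))) ?_
      rw [← Nat.cast_pow, Nat.cast_le, pow_add]
      exact Nat.mul_le_mul (Nat.lt_pow_self hT).le (h1 t ht)
    refine le_trans ?_ (add_le_add_left (e1.trans e2) _)
    rw [sum_filter (s := P), ← sum_add_distrib, ← filter_filter, sum_filter (s := P)]
    refine sum_le_sum fun p hp => ?_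
    have := Real.log_natCast_nonneg p
    have h3 := h2 t ht p (hP p hp)
    have h4 := (hP p hp).dvd_mul (m := Δ) (n := h t)
    rw [Nat.cast_one]
    split_ifs with a b c <;> try linarith
    tauto
  refine (sum_le_sum s1).trans ?_
  rw [sum_add_distrib, sum_comm, sum_const, Nat.card_Icc, Nat.add_sub_cancel, nsmul_eq_mul]
  have s2 : ∀ p ∈ P, (∑ t ∈ Icc 1 T, if ¬ p ∣ Δ ∧ ¬ Nice A p t then Real.log p else 0)
      ≤ 3 * A.card * ((T / p : ℕ) * Real.log p + Y * Real.log p) := fun p hp => by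
    have := Real.log_natCast_nonneg p
    by_cases hd : p ∣ Δ
    · simp only [hd, not_true, false_and, if_false, sum_const_zero]
      positivity
    simp only [hd, not_false_iff, true_and]
    rw [← sum_filter, sum_const, nsmul_eq_mul, ← add_mul, ← mul_assoc]
    gcongr
    exact_mod_cast (card_not_nice (hP p hp) (hA p hd) T).trans (Nat.mul_le_mul_left _
      (Nat.add_le_add_left (mem_Icc.mp (mem_filter.mp hp).1).2 _))
  have s3 := (sum_log_le hP (T / ·) T.factorial_ne_zero fun p hp => by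
    refine dvd_trans ?_ (Nat.factorial_dvd_factorial (Nat.mul_div_le T p))
    rw [pow_dvd_iff_le_emultiplicity, (hP p hp).emultiplicity_factorial_mul]
    exact le_add_self).trans (Real.log_le_log (Nat.cast_pos.mpr T.factorial_pos)
      (Nat.cast_le.mpr T.factorial_le_pow))
  have s4 : ∑ p ∈ P, Real.log p ≤ 2 * Y := by
    have := Chebyshev.theta_le_log4_mul_x (x := Y) Y.cast_nonneg
    rw [Chebyshev.theta, Nat.floor_natCast] at this
    refine this.trans (mul_le_mul_of_nonneg_right ?_ Y.cast_nonneg)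
    rw [show (4 : ℝ) = 2 ^ 2 by norm_num, Real.log_pow, Nat.cast_ofNat]
    linarith [Real.log_two_lt_d9]
  have s5 := sum_le_sum s2
  rw [← mul_sum, sum_add_distrib, ← mul_sum] at s5
  rw [Nat.cast_pow, Real.log_pow] at s3
  have s6 := mul_le_mul_of_nonneg_left s4 Y.cast_nonneg
  have s7 := mul_le_mul_of_nonneg_left (add_le_add s3 s6) (by positivity : (0 : ℝ) ≤ 3 * A.card)
  have s8 : 0 ≤ T * Real.log T := by positivity
  nlinarith [mul_nonneg (Nat.cast_nonneg (α := ℝ) A.card) s8,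
    mul_nonneg (Nat.cast_nonneg (α := ℝ) Δ) (sq_nonneg (Y : ℝ)),
    mul_nonneg (Nat.cast_nonneg (α := ℝ) c) (sq_nonneg (Y : ℝ))]

end Pool.Agent.Lib.MP_4e64b4_nt
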