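import Pool.Agent.Lib.MP_4e64b4_nt.First

set_option autoImplicit false

open NumberField IsDedekindDomain WithZero Module
open scoped Pointwise

namespace Pool.Agent.Lib.MP_4e64b4_nt
open helper22.Val

variable {E : Type*} [Field E] [NumberField E] {p : ℕ}

/-- valuation modulo `p` -/
noncomputable def lg (p : ℕ) (v : HeightOneSpectrum (𝓞 E)) (x : E) : ZMod p :=
  (log (v.valuation E x) : ℤ)

lemma lg_mul (v : HeightOneSpectrum (𝓞 E)) {x y : E} (hx : x ≠ 0) (hy : y ≠ 0) :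
    lg p v (x * y) = lg p v x + lg p v y := by
  rw [lg, map_mul, log_mul (val_ne_zero hx) (val_ne_zero hy), Int.cast_add, lg, lg]

lemma lg_pow (v : HeightOneSpectrum (𝓞 E)) (x : E) (n : ℕ) : lg p v (x ^ n) = n * lg p v x := by
  rw [lg, map_pow, log_pow, nsmul_eq_mul, Int.cast_mul, Int.cast_natCast, lg]

lemma lg_inv (v : HeightOneSpectrum (𝓞 E)) (x : E) : lg p v x⁻¹ = -lg p v x := by
  rw [lg, map_inv₀, log_inv, Int.cast_neg, lg]

lemma PP.mul_sub_one {k : ℕ} {x y : E} (hx : PP p (k + 1) (x - 1)) (hy : PP p (k + 1) (y - 1)) :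
    PP p (k + 1) (x * y - 1) := by
  have := (hx.mul0 (PP.of_val hy.val_eq_one)).add hy
  convert this using 1
  ring

lemma PP.div_sub_one {k l : ℕ} {x y : E} (hp : p.Prime) (hy : PP p (l + 1) (y - 1))
    (h : PP p k (x - y)) : PP p k (x * y⁻¹ - 1) := by
  have := h.mul0 (PP.inv_of_val hy.val_eq_one)
  rwa [sub_mul, mul_inv_cancel₀ (hy.ne_zero hp)] at this

lemma PP.binom {k : ℕ} {a : E} (ha : PP p k a) (n : ℕ) :
    PP p (3 * k) ((1 + a) ^ n - 1 - n * a - n.choose 2 * a ^ 2) := by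
  induction n with
  | zero => simpa using PP.zero
  | succ n ih =>
    have := (ih.mul0 (PP.one.add (ha.mono k.zero_le))).add ((PP.natCast (n.choose 2)).mul0' (ha.pow 3))
    convert this using 1
    rw [Nat.choose_succ_succ' n 1, Nat.choose_one_right]
    push_cast
    ring

lemma exists_deep (hp : p.Prime) (hodd : p ≠ 2) {z : E} (hz : PP p 2 (z - 1)) (k : ℕ) :
    ∃ x, PP p (k + 2) (x - 1) ∧ ∀ v, lg p v x = lg p v z := by
  induction k with
  | zero => exact ⟨z, hz, fun _ => rfl⟩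
  | succ k ih =>
    obtain ⟨x, hx, h⟩ := ih
    have hp0 : (p : E) ≠ 0 := Nat.cast_ne_zero.mpr hp.ne_zero
    obtain ⟨a, ha⟩ : ∃ a, x - 1 = p * a := ⟨_, (mul_div_cancel₀ _ hp0).symm⟩
    have h1 : PP p (k + 1) a := (PP_mul hp.ne_zero).mp (ha ▸ hx)
    have h2 : PP p (k + 1) ((1 + a) ^ p - 1) := PP.pow_sub_one (by simpa using h1) p
    obtain ⟨c, hc⟩ := hp.dvd_choose_self two_ne_zero (lt_of_le_of_ne hp.two_le hodd.symm)
    refine ⟨x * ((1 + a) ^ p)⁻¹, h2.div_sub_one hp ?_, fun v => ?_⟩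
    · have := (((h1.binom p).mono (l := k + 1 + 2) (by omega)).add
        (((PP.self.mul0 (PP.natCast c)).mul (h1.pow 2)).mono (by omega))).neg
      convert this using 1
      rw [hc]
      push_cast
      linear_combination ha
    · rw [lg_mul v (hx.ne_zero hp) (inv_ne_zero (h2.ne_zero hp)), lg_inv, lg_pow, h]
      simp

variable (E p) in
/-- global units fill the local principal units up to a cyclic quotient -/
def HU : Prop := ∃ x0 : E, PP p 1 (x0 - 1) ∧ ∀ z : E, PP p 1 (z - 1) →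
  ∃ (j : ℕ) (u : (𝓞 E)ˣ), PP p 2 (z - x0 ^ j * algebraMap (𝓞 E) E u)

variable (E p) in
/-- `p` is unramified -/
def HQ : Prop := ∀ y : E, (∀ w : HeightOneSpectrum (𝓞 E), (p : 𝓞 E) ∈ w.asIdeal →
  w.valuation E y = 1) → ∃ n : ℕ, p.Coprime n ∧ PP p 1 (y ^ n - 1)

open Classical in
lemma exists_gen (hp : p.Prime) (hodd : p ≠ 2) (hh : ¬ p ∣ classNumber E) (hU : HU E p)
    (hQ : HQ E p) (k : ℕ) : ∃ a : HeightOneSpectrum (𝓞 E) → ZMod p,
      ∀ q : HeightOneSpectrum (𝓞 E), (p : 𝓞 E) ∉ q.asIdeal → ∃ (j : ZMod p) (x : E),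
        PP p (k + 1) (x - 1) ∧ ∀ v, lg p v x + j * a v = if v = q then 1 else 0 := by
  have : Fact p.Prime := ⟨hp⟩
  obtain ⟨x0, hx0, hU⟩ := hU
  refine ⟨fun v => lg p v x0, fun q hq => ?_⟩
  obtain ⟨cl, hcl⟩ := exists_cl E
  obtain ⟨y, -, hy⟩ := hcl (classNumber E • Finsupp.single q 1) (by
    rw [map_nsmul, classNumber, ← Nat.card_eq_fintype_card]
    exact card_nsmul_eq_zero' (G := Additive (ClassGroup (𝓞 E))))
  have hy0 : y ≠ 0 := by
    rintro rfl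
    exact (classNumber_ne_zero E) (by simpa [eq_comm] using hy q)
  obtain ⟨n, hn, h1⟩ := hQ y fun w hw => eq_one_of_log hy0 (by
    rw [hy, Finsupp.smul_apply, Finsupp.single_eq_of_ne (by rintro rfl; exact hq hw), smul_zero])
  obtain ⟨m, hm⟩ : ∃ m : ℕ, (m : ZMod p) * (n * classNumber E) = 1 := by
    refine ⟨((n * classNumber E : ZMod p)⁻¹).val, ?_⟩
    rw [ZMod.natCast_zmod_val, inv_mul_cancel₀]
    rw [← Nat.cast_mul, Ne, ZMod.natCast_eq_zero_iff, hp.dvd_mul, not_or]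
    exact ⟨(Nat.Prime.coprime_iff_not_dvd hp).mp hn, hh⟩
  have h2 := h1.pow_sub_one m
  obtain ⟨j, u, h3⟩ := hU _ h2
  have h4 : PP p 1 (x0 ^ j * algebraMap (𝓞 E) E u - 1) := by
    simpa using h2.sub (h3.mono one_le_two)
  obtain ⟨x, hx, h5⟩ := exists_deep hp hodd (h4.div_sub_one hp h3) k
  refine ⟨j, x, hx.mono (by omega), fun v => ?_⟩
  have h6 := h4.ne_zero hp
  rw [h5, lg_mul v (h2.ne_zero hp) (inv_ne_zero h6), lg_inv, lg_mul v (left_ne_zero_of_mul h6)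
    (right_ne_zero_of_mul h6), lg_pow, lg_pow, lg_pow, show lg p v y = _ from congrArg Int.cast (hy v),
    show lg p v (algebraMap (𝓞 E) E u) = 0 by rw [lg, val_unit, log_one, Int.cast_zero]]
  by_cases h : v = q
  · simp [h, hm]
  · simp [h]

section
variable {M : Type*} [Field M] [NumberField M] [Algebra E M]

variable (E M p) in
/-- unramified outside `p` -/
def Unr : Prop := ∀ w : HeightOneSpectrum (𝓞 M), (p : 𝓞 M) ∉ w.asIdeal →
  ∀ x, w.valuation M (algebraMap E M x) = (w.under (𝓞 E)).valuation E x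

lemma exists_e (w : HeightOneSpectrum (𝓞 M)) : ∃ e : ℕ, 0 < e ∧
    ∀ x, w.valuation M (algebraMap E M x) = (w.under (𝓞 E)).valuation E x ^ e :=
  have : w.asIdeal.LiesOver (w.under (𝓞 E)).asIdeal := ⟨rfl⟩
  ⟨_, Nat.pos_of_ne_zero (Ideal.IsDedekindDomain.ramificationIdx'_ne_zero_of_liesOver w.asIdeal
    (w.under (𝓞 E)).ne_bot), fun x => (HeightOneSpectrum.valuation_liesOver M _ w x).symm⟩

omit [NumberField E] [NumberField M] in
variable (E) in
lemma mem_under (w : HeightOneSpectrum (𝓞 M)) (n : ℕ) :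
    (n : 𝓞 E) ∈ (w.under (𝓞 E)).asIdeal ↔ (n : 𝓞 M) ∈ w.asIdeal := by
  rw [← map_natCast (algebraMap (𝓞 E) (𝓞 M))]; rfl

omit [NumberField M] in
variable (M) in
lemma exists_under_eq (v : HeightOneSpectrum (𝓞 E)) :
    ∃ w : HeightOneSpectrum (𝓞 M), w.under (𝓞 E) = v := by
  have := v.isMaximal
  obtain ⟨⟨P, h1, h2⟩⟩ := (inferInstance : Nonempty (v.asIdeal.primesOver (𝓞 M)))
  exact ⟨⟨P, h1, Ideal.ne_bot_of_liesOver_of_ne_bot v.ne_bot P⟩, HeightOneSpectrum.ext h2.1.symm⟩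

omit [NumberField E] [NumberField M] in
lemma under_under {N : Type*} [Field N] [Algebra E N] [Algebra M N]
    [IsScalarTower E M N] (w : HeightOneSpectrum (𝓞 N)) :
    (w.under (𝓞 M)).under (𝓞 E) = w.under (𝓞 E) :=
  HeightOneSpectrum.ext (Ideal.under_under _)

lemma Unr.bot {N : Type*} [Field N] [NumberField N] [Algebra E N] [Algebra M N]
    [IsScalarTower E M N] (h : Unr E p N) : Unr E p M := fun w hw x => by
  obtain ⟨P, rfl⟩ := exists_under_eq N w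
  obtain ⟨e, he, h1⟩ := exists_e (E := M) P
  obtain ⟨f, hf, h2⟩ := exists_e (E := E) (P.under (𝓞 M))
  obtain ⟨π, hπ⟩ := (P.under (𝓞 E)).valuation_exists_uniformizer E
  have h3 := h P ((mem_under M P p).not.mp hw) π
  rw [IsScalarTower.algebraMap_apply E M N, h1, h2, under_under, hπ, ← pow_mul, ← exp_nsmul,
    exp_inj, nsmul_eq_mul, mul_neg_one, neg_inj, Nat.cast_eq_one] at h3
  rw [h2, Nat.eq_one_of_mul_eq_one_right h3, pow_one]

variable [IsGalois E M]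

lemma exists_act_eq {w w' : HeightOneSpectrum (𝓞 M)} (h : w.under (𝓞 E) = w'.under (𝓞 E)) :
    ∃ σ : M ≃ₐ[E] M, σ • w = w' := by
  have := w.isPrime
  have := w'.isPrime
  obtain ⟨σ, hσ⟩ := Algebra.IsInvariant.exists_smul_of_under_eq (𝓞 E) (𝓞 M) (M ≃ₐ[E] M)
    w.asIdeal w'.asIdeal (congrArg HeightOneSpectrum.asIdeal h)
  exact ⟨σ, HeightOneSpectrum.ext hσ.symm⟩

lemma under_act (σ : M ≃ₐ[E] M) (w : HeightOneSpectrum (𝓞 M)) :
    (σ • w).under (𝓞 E) = w.under (𝓞 E) :=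
  HeightOneSpectrum.ext (Ideal.under_smul _ _ _)

lemma unr_of_inertia (h : ∀ w : HeightOneSpectrum (𝓞 M), (p : 𝓞 M) ∉ w.asIdeal →
    w.asIdeal.inertia (M ≃ₐ[E] M) = ⊥) : Unr E p M := fun w hw x => by
  have : w.asIdeal.LiesOver (w.under (𝓞 E)).asIdeal := ⟨rfl⟩
  have := w.isPrime
  have := (w.under (𝓞 E)).isMaximal
  have h1 := Ideal.card_inertia_eq_ramificationIdxIn (G := M ≃ₐ[E] M) (w.under (𝓞 E)).asIdeal
    w.asIdeal
  rw [h w hw, Subgroup.card_bot, Ideal.ramificationIdxIn_eq_ramificationIdx _ w.asIdeal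
    (M ≃ₐ[E] M), ← Ideal.ramificationIdx'_eq_ramificationIdx _ w.asIdeal
    (w.under (𝓞 E)).ne_bot] at h1
  rw [← HeightOneSpectrum.valuation_liesOver M (w.under (𝓞 E)) w x, ← h1, pow_one]

lemma isCyclic_stabilizer (w : HeightOneSpectrum (𝓞 M))
    (h : w.asIdeal.inertia (M ≃ₐ[E] M) = ⊥) : IsCyclic (MulAction.stabilizer (M ≃ₐ[E] M) w.asIdeal) := by
  have : w.asIdeal.LiesOver (w.under (𝓞 E)).asIdeal := ⟨rfl⟩
  have := w.isMaximal
  have := (w.under (𝓞 E)).isMaximal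
  let := Ideal.Quotient.field w.asIdeal
  let := Ideal.Quotient.field (w.under (𝓞 E)).asIdeal
  refine isCyclic_of_injective (Ideal.Quotient.stabilizerHom w.asIdeal (w.under (𝓞 E)).asIdeal _)
    ((MonoidHom.ker_eq_bot_iff _).mp ?_)
  rw [Ideal.Quotient.ker_stabilizerHom, eq_bot_iff]
  exact fun σ hσ => Subtype.ext (h.le (Ideal.coe_mem_inertia.mpr hσ))

open Classical in
lemma first' (hp : p.Prime) (hodd : p ≠ 2) (hd : finrank E M = p) (hur : Unr E p M) :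
    ∃ k0, ∀ k, k0 ≤ k → ¬ ∀ q : HeightOneSpectrum (𝓞 E), (p : 𝓞 E) ∉ q.asIdeal →
      ∃ x : E, PP p (k + 1) (x - 1) ∧ ∀ w : HeightOneSpectrum (𝓞 M), (p : 𝓞 M) ∉ w.asIdeal →
        (∀ σ : M ≃ₐ[E] M, σ • w = w) →
          lg p (w.under (𝓞 E)) x = if w.under (𝓞 E) = q then 1 else 0 := by
  obtain ⟨k0, h⟩ := first_inequality hp hodd hd
  refine ⟨k0, fun k hk H => h fun w hw _ => ?_⟩
  obtain ⟨x, hx, h1⟩ := H _ ((mem_under E w p).not.mpr hw)
  refine ⟨x, hx.mono (by omega), fun w' hw' hf => ?_⟩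
  rw [← ZMod.intCast_zmod_eq_zero_iff_dvd, hur w' hw', Int.cast_sub, sub_eq_zero]
  refine (h1 w' hw' hf).trans ?_
  have : w'.under (𝓞 E) = w.under (𝓞 E) ↔ w' = w := ⟨fun e => by
    obtain ⟨σ, rfl⟩ := exists_act_eq e
    exact (hf σ).symm, fun e => e ▸ rfl⟩
  simp [this]

open Classical in
theorem isCyclic_of_unramified (hp : p.Prime) (hodd : p ≠ 2) (hh : ¬ p ∣ classNumber E)
    (hU : HU E p) (hQ : HQ E p) (hG : IsPGroup p (M ≃ₐ[E] M))
    (h : ∀ w : HeightOneSpectrum (𝓞 M), (p : 𝓞 M) ∉ w.asIdeal →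
      w.asIdeal.inertia (M ≃ₐ[E] M) = ⊥) : IsCyclic (M ≃ₐ[E] M) := by
  have : Fact p.Prime := ⟨hp⟩
  by_contra hc
  obtain ⟨n, hn⟩ := hG.exists_card_eq
  have key : ∀ D : Subgroup (M ≃ₐ[E] M), IsCyclic D → ∃ H : Subgroup (M ≃ₐ[E] M),
      D ≤ H ∧ H.Normal ∧ H.index = p := fun D hD => by
    obtain ⟨m, hm⟩ := (hG.to_subgroup D).exists_card_eq
    have hlt : m < n := by
      rw [← Nat.pow_lt_pow_iff_right hp.one_lt, ← hm, ← hn]
      refine lt_of_le_of_ne (Subgroup.card_le_card_group D) fun e => hc ?_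
      rw [Subgroup.eq_top_of_card_eq D e] at hD
      exact Subgroup.topEquiv.isCyclic.mp hD
    obtain ⟨n, rfl⟩ := Nat.exists_eq_add_one_of_ne_zero (Nat.ne_zero_of_lt hlt)
    obtain ⟨H, h1, h2⟩ := Sylow.exists_subgroup_card_pow_prime_le p
      (hn ▸ pow_dvd_pow p n.le_succ) D hm (Nat.le_of_lt_succ hlt)
    have h3 := H.card_mul_index
    rw [h1, hn, pow_succ, Nat.mul_right_inj (pow_pos hp.pos _).ne'] at h3
    exact ⟨H, h2, Subgroup.normal_of_index_eq_minFac_card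
      (by rw [h3, hn, hp.pow_minFac n.succ_ne_zero]), h3⟩
  have main : ∀ H : Subgroup (M ≃ₐ[E] M), ∃ k0, H.Normal → H.index = p → ∀ k, k0 ≤ k →
      ¬ ∀ q : HeightOneSpectrum (𝓞 E), (p : 𝓞 E) ∉ q.asIdeal → ∃ x : E, PP p (k + 1) (x - 1) ∧
        ∀ v : HeightOneSpectrum (𝓞 E), (p : 𝓞 E) ∉ v.asIdeal →
          (∀ P : HeightOneSpectrum (𝓞 M), P.under (𝓞 E) = v →
            ¬ MulAction.stabilizer _ P.asIdeal ≤ H) → lg p v x = if v = q then 1 else 0 := fun H => by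
    by_cases hH : H.Normal ∧ H.index = p
    swap
    · exact ⟨0, fun h1 h2 => absurd ⟨h1, h2⟩ hH⟩
    have := hH.1
    obtain ⟨k0, hk⟩ := first' (M := IntermediateField.fixedField H) hp hodd (by
      rw [IntermediateField.finrank_eq_fixingSubgroup_index,
        IntermediateField.fixingSubgroup_fixedField, hH.2]) (unr_of_inertia h).bot
    refine ⟨k0, fun _ _ k hk' H1 => hk k hk' fun q hq => ?_⟩
    obtain ⟨x, hx, h1⟩ := H1 q hq
    refine ⟨x, hx, fun w hw hf => h1 _ ((mem_under E w p).not.mpr hw) fun P hP hle => ?_⟩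
    obtain ⟨σ, hσ⟩ := exists_act_eq (hP.symm.trans (under_under P).symm)
    rw [hf] at hσ
    refine hp.ne_one (hH.2.symm.trans (Subgroup.index_eq_one.mpr (eq_top_iff.mpr fun g _ => ?_)))
    obtain ⟨σ', hσ'⟩ := exists_act_eq (E := E) (w := w)
      (w' := (g • P).under (𝓞 (IntermediateField.fixedField H)))
      (by rw [under_under, under_act, hP])
    rw [hf] at hσ'
    obtain ⟨τ, hτ⟩ := exists_act_eq (hσ'.symm.trans hσ)
    have h2 : τ.restrictScalars E ∈ H :=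
      (IntermediateField.fixingSubgroup_fixedField H).le fun x => τ.commutes x
    have h3 : τ.restrictScalars E * g ∈ H := hle (by
      rw [MulAction.mem_stabilizer_iff, mul_smul]
      exact congrArg HeightOneSpectrum.asIdeal hτ)
    exact (H.mul_mem_cancel_left h2).mp h3
  choose k0 hk0 using main
  obtain ⟨k, hk⟩ := (Set.finite_range k0).bddAbove
  obtain ⟨a, ha⟩ := exists_gen hp hodd hh hU hQ k
  obtain ⟨H0, -, h1, h2⟩ := key ⊥ inferInstance
  refine hk0 H0 h1 h2 k (hk ⟨_, rfl⟩) fun q hq => ?_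
  obtain ⟨P, rfl⟩ := exists_under_eq M q
  obtain ⟨H, h3, h4, h5⟩ := key _ (isCyclic_stabilizer P (h P ((mem_under E P p).not.mp hq)))
  obtain ⟨j, x, hx, h6⟩ := ha _ hq
  refine ⟨x, hx, fun v _ _ => ?_⟩
  rcases eq_or_ne j 0 with rfl | hj
  · simpa using h6 v
  refine absurd (fun q' hq' => ?_) (hk0 H h4 h5 k (hk ⟨_, rfl⟩))
  obtain ⟨j', y, hy, h7⟩ := ha _ hq'
  refine ⟨y * x ^ (-j' / j).val, hy.mul_sub_one (hx.pow_sub_one _), fun v _ hv => ?_⟩
  have h8 := h6 v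
  rw [if_neg fun e => hv P e.symm h3] at h8
  rw [lg_mul v (hy.ne_zero hp) (pow_ne_zero _ (hx.ne_zero hp)), lg_pow, ZMod.natCast_zmod_val,
    ← h7 v, eq_neg_of_add_eq_zero_left h8]
  field_simp

end

end Pool.Agent.Lib.MP_4e64b4_nt
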