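import Mathlib

set_option autoImplicit false

open NumberField

namespace Pool.Agent.Lib.MP_4e64b4_nt

section
variable (K L : Type) [Field K] [Field L] [Algebra K L] (p : ℕ)

/-- `L / K` is abelian of finite `p`-power degree and unramified at all finite places
not above `p`. -/
def AbUnr : Prop :=
  IsAbelianGalois K L ∧ (∃ k : ℕ, Module.finrank K L = p ^ k) ∧
    ∀ P : Ideal (𝓞 L), P.IsMaximal → (p : 𝓞 L) ∉ P → P.inertia (L ≃ₐ[K] L) = ⊥

/-- The maximal abelian pro-`p` subextension of `L / K` that is unramified at all finite places
not above `p`. -/
noncomputable def maxIn : IntermediateField K L := sSup {F | AbUnr K F p}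

/-- Its Galois group over `K`. -/
def galMax : Type := maxIn K L p ≃ₐ[K] maxIn K L p

end

variable (E : Type) [Field E] (p : ℕ)

/-- The cyclotomic `ℤ_p`-extension of `E` (for `p` odd): the compositum of the subextensions of
finite `p`-power degree of the field generated by all roots of unity of `p`-power order. -/
noncomputable def cyc : IntermediateField E (AlgebraicClosure E) :=
  sSup {F | F ≤ IntermediateField.adjoin E {ζ | ∃ k : ℕ, ζ ^ p ^ k = 1} ∧
    ∃ k : ℕ, Module.finrank E F = p ^ k}

/-- The Galois group over the cyclotomic `ℤ_p`-extension of its maximal abelian pro-`p` extension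
unramified outside `p` and infinity. -/
def XS : Type := galMax (cyc E p) (AlgebraicClosure E) p

end Pool.Agent.Lib.MP_4e64b4_nt
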