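import Pool.Agent.Lib.MP_4e64b4_nt.Lift
import Pool.Agent.Lib.MP_4e64b4_nt.Defs

set_option autoImplicit false

open NumberField IsDedekindDomain Module IntermediateField Filter
open scoped Pointwise

namespace Pool.Agent.Lib.MP_4e64b4_nt

variable {E : Type} [Field E] {p : ℕ}

variable (E) in
/-- the absolute Galois group -/
abbrev GG := AlgebraicClosure E ≃ₐ[E] AlgebraicClosure E

variable (E p) in
/-- the field of all `p`-power roots of unity -/
noncomputable abbrev TT : IntermediateField E (AlgebraicClosure E) :=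
  adjoin E {ζ | ∃ k : ℕ, ζ ^ p ^ k = 1}

lemma mem_fix_TT {g : GG E} (h : ∀ ζ (k : ℕ), ζ ^ p ^ k = 1 → g ζ = ζ) :
    g ∈ (TT E p).fixingSubgroup :=
  (IntermediateField.mem_fixingSubgroup_iff _ _).mpr
    ((forall_mem_adjoin_smul_eq_self_iff E g).mpr fun ζ ⟨k, hk⟩ => h ζ k hk)

lemma cyc_le : cyc E p ≤ TT E p := sSup_le fun _ h => h.1

lemma inertia_le_cyc {P : Ideal (𝓞 (AlgebraicClosure E))} [P.IsPrime] (hp : p ≠ 0)
    (hP : (p : 𝓞 (AlgebraicClosure E)) ∉ P) : P.inertia (GG E) ≤ (cyc E p).fixingSubgroup :=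
  fun _ hg => fixingSubgroup_le cyc_le (mem_fix_TT fun _ _ h => inertia_fix hP hg hp h)

lemma conj_mem_inertia {P : Ideal (𝓞 (AlgebraicClosure E))} {g : GG E} (hg : g ∈ P.inertia (GG E))
    (c : GG E) : c * g * c⁻¹ ∈ (c • P).inertia (GG E) := fun x => by
  have := Ideal.smul_mem_pointwise_smul c _ _ (hg (c⁻¹ • x))
  rwa [smul_sub, smul_inv_smul, ← mul_smul, ← mul_smul] at this

lemma normal_fix (hp : p ≠ 0) {F : IntermediateField E (AlgebraicClosure E)} (hF : F ≤ TT E p) :
    F.fixingSubgroup.Normal := by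
  refine Subgroup.Normal.of_commutator_le _ (le_trans ?_ (fixingSubgroup_le hF))
  refine Subgroup.commutator_le.mpr fun g _ h _ => mem_fix_TT fun ζ k hk => ?_
  rw [commutatorElement_def, AlgEquiv.mul_apply, AlgEquiv.mul_apply, AlgEquiv.mul_apply,
    comm_root g h (pow_ne_zero k hp) (by rw [← map_pow, ← map_pow, hk, map_one, map_one])]
  simp

variable [NumberField E]

lemma eventually_fix (hp : p ≠ 0) (g : GG E) {x : AlgebraicClosure E} (hx : x ∈ cyc E p) :
    ∀ᶠ b in atTop, (g ^ p ^ b) x = x := by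
  let S : IntermediateField E (AlgebraicClosure E) :=
    { carrier := {x | ∀ᶠ b in atTop, (g ^ p ^ b) x = x}
      mul_mem' := fun h1 h2 => by
        filter_upwards [h1, h2] with b h1 h2 using by rw [map_mul, h1, h2]
      add_mem' := fun h1 h2 => by
        filter_upwards [h1, h2] with b h1 h2 using by rw [map_add, h1, h2]
      algebraMap_mem' := fun _ => Eventually.of_forall fun _ => AlgEquiv.commutes _ _
      inv_mem' := fun _ h1 => by
        filter_upwards [h1] with b h1 using by rw [map_inv₀, h1] }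
  refine (sSup_le fun F ⟨h1, k, h2⟩ y hy => ?_ : cyc E p ≤ S) hx
  have := normal_fix hp h1
  filter_upwards [eventually_ge_atTop k] with b hb
  have h3 := F.fixingSubgroup.pow_mem (F.fixingSubgroup.pow_index_mem g) (p ^ (b - k))
  rw [← finrank_eq_fixingSubgroup_index, h2, ← pow_mul, ← pow_add, Nat.add_sub_cancel' hb] at h3
  exact h3 ⟨y, hy⟩

lemma exists_pow_mem_fix (hp : p ≠ 0) (g : GG E) {F : IntermediateField E (AlgebraicClosure E)}
    [FiniteDimensional E F] (hF : F ≤ cyc E p) : ∃ a, g ^ p ^ a ∈ F.fixingSubgroup := by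
  obtain ⟨a, ha⟩ := (eventually_all.mpr fun i =>
    eventually_fix hp g (hF (finBasis E F i).2)).exists
  exact ⟨a, fun x => DFunLike.congr_fun ((finBasis E F).ext
    (f₁ := (g ^ p ^ a).toLinearMap ∘ₗ F.val.toLinearMap) (f₂ := F.val.toLinearMap) ha) x⟩

lemma exists_layer (hp : p.Prime) (hodd : p ≠ 2) (n : ℕ) :
    ∃ F ≤ cyc E p, FiniteDimensional E F ∧ n < finrank E F := by
  classical
  have : Fact p.Prime := ⟨hp⟩
  obtain ⟨m, hm⟩ : ∃ m, m = finrank ℚ E * n := ⟨_, rfl⟩
  obtain ⟨ζ, hζ⟩ := HasEnoughRootsOfUnity.exists_primitiveRoot (AlgebraicClosure E) (p ^ (m + 1))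
  let χ := hζ.autToPow E
  let ψ := (powMonoidHom (p - 1)).comp χ
  have h1 : χ.ker = E⟮ζ⟯.fixingSubgroup := by
    ext g
    rw [IntermediateField.mem_fixingSubgroup_iff, MonoidHom.mem_ker]
    refine Iff.trans ?_ (forall_mem_adjoin_smul_eq_self_iff E g).symm
    have : Fact (1 < p ^ (m + 1)) := ⟨Nat.one_lt_pow m.succ_ne_zero hp.one_lt⟩
    simp only [Set.mem_singleton_iff, forall_eq, AlgEquiv.smul_def, ← hζ.autToPow_spec E g]
    refine ⟨fun h => by rw [show hζ.autToPow E g = 1 from h, Units.val_one, ZMod.val_one, pow_one],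
      fun h => Units.ext (ZMod.val_injective _ ?_)⟩
    rw [Units.val_one, ZMod.val_one]
    exact hζ.pow_inj (ZMod.val_lt _) this.out (by rwa [pow_one])
  have hint : IsIntegral E ζ := Algebra.IsIntegral.isIntegral ζ
  have := adjoin.finiteDimensional hint
  have h2 : χ.ker ≤ ψ.ker := fun g hg => by
    rw [MonoidHom.mem_ker, MonoidHom.comp_apply, hg, map_one]
  have h3 : (fixedField ψ.ker).fixingSubgroup = ψ.ker := InfiniteGalois.fixingSubgroup_fixedField
    ⟨_, Subgroup.isClosed_of_isOpen _ (Subgroup.isOpen_mono (h1 ▸ h2) (fixingSubgroup_isOpen _))⟩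
  obtain ⟨k, hk⟩ : ∃ k, Nat.card ψ.range = p ^ k := IsPGroup.exists_card_eq fun x => ⟨m, by
    obtain ⟨_, g, rfl⟩ := x
    refine Subtype.ext (?_ : (χ g ^ (p - 1)) ^ p ^ m = 1)
    rw [← pow_mul, mul_comm, ← Nat.totient_prime_pow_succ hp, ZMod.pow_totient]⟩
  have h4 : finrank E (fixedField ψ.ker) = p ^ k := by
    rw [finrank_eq_fixingSubgroup_index, h3, Subgroup.index_ker, hk]
  have h5 : fixedField ψ.ker ≤ E⟮ζ⟯ := by
    rw [← InfiniteGalois.fixedField_fixingSubgroup E⟮ζ⟯, ← h1]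
    exact fun x hx g => hx ⟨g, h2 g.2⟩
  refine ⟨_, le_sSup ⟨h5.trans (adjoin.mono _ _ _ ?_), k, h4⟩,
    finite_of_finrank_pos (h4 ▸ pow_pos hp.pos k), ?_⟩
  · rintro _ rfl
    exact ⟨_, hζ.pow_eq_one⟩
  have h6 : χ.ker.relIndex ψ.ker ≤ p - 1 := by
    have := ZMod.isCyclic_units_of_prime_pow p hp hodd (m + 1)
    rw [Subgroup.relIndex_ker]
    refine le_trans ?_ (IsCyclic.card_pow_eq_one_le (α := (ZMod (p ^ (m + 1)))ˣ)
      (Nat.sub_pos_of_lt hp.one_lt))
    rw [← Nat.card_eq_finsetCard]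
    refine Nat.card_mono (Set.toFinite _) ?_
    rintro _ ⟨g, hg, rfl⟩
    exact Finset.mem_coe.mpr (Finset.mem_filter.mpr ⟨Finset.mem_univ _, hg⟩)
  have h7 : p ^ m * (p - 1) ≤ finrank ℚ E * finrank E E⟮ζ⟯ := by
    have := Module.Finite.trans (R := ℚ) E E⟮ζ⟯
    have h := minpoly.natDegree_le (A := ℚ) (AdjoinSimple.gen E ζ)
    rwa [← minpoly.algebraMap_eq (algebraMap E⟮ζ⟯ (AlgebraicClosure E)).injective,
      AdjoinSimple.algebraMap_gen, ← Polynomial.cyclotomic_eq_minpoly_rat hζ (pow_pos hp.pos _),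
      Polynomial.natDegree_cyclotomic, Nat.totient_prime_pow_succ hp,
      ← finrank_mul_finrank ℚ E] at h
  rw [finrank_eq_fixingSubgroup_index, ← h1, ← Subgroup.relIndex_mul_index h2, Subgroup.index_ker,
    hk] at h7
  rw [h4]
  have h8 := h7.trans (Nat.mul_le_mul_left _ (Nat.mul_le_mul_right _ h6))
  rw [mul_comm (p - 1), ← mul_assoc] at h8
  have h9 := (Nat.lt_pow_self hp.one_lt).trans_le
    (Nat.le_of_mul_le_mul_right h8 (Nat.sub_pos_of_lt hp.one_lt))
  exact Nat.lt_of_mul_lt_mul_left (hm ▸ h9)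

theorem descent (hp : p.Prime) (hodd : p ≠ 2) (hh : ¬ p ∣ classNumber E) (hU : HU E p)
    (hQ : HQ E p) (H : Subgroup (GG E)) (N0 : IntermediateField E (AlgebraicClosure E))
    [FiniteDimensional E N0] [IsGalois E N0]
    (h1 : (cyc E p).fixingSubgroup ⊓ N0.fixingSubgroup ≤ H) (b : ℕ)
    (h2 : ∀ h ∈ (cyc E p).fixingSubgroup, h ^ p ^ b ∈ H)
    (h3 : ∀ P : Ideal (𝓞 (AlgebraicClosure E)), P.IsMaximal → (p : 𝓞 (AlgebraicClosure E)) ∉ P →
      P.inertia (GG E) ≤ H) : (cyc E p).fixingSubgroup ≤ H := by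
  have : Fact p.Prime := ⟨hp⟩
  obtain ⟨F, hF, _, hF'⟩ := exists_layer (E := E) hp hodd (finrank E N0)
  have n1 := normal_fix hp.ne_zero (cyc_le (E := E))
  have n2 := normal_fix hp.ne_zero (hF.trans cyc_le)
  have n3 : N0.fixingSubgroup.Normal := (InfiniteGalois.normal_iff_isGalois N0).mpr inferInstance
  set C := (cyc E p).fixingSubgroup with hC
  let U := N0.fixingSubgroup ⊓ F.fixingSubgroup
  have hUo : IsOpen (U : Set (GG E)) := (fixingSubgroup_isOpen N0).inter (fixingSubgroup_isOpen F)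
  have fix : ∀ W : Subgroup (GG E), U ≤ W → (fixedField W).fixingSubgroup = W ∧
      FiniteDimensional E (fixedField W) := fun W hW => by
    have h := Subgroup.isOpen_mono hW hUo
    have e : (fixedField W).fixingSubgroup = W :=
      InfiniteGalois.fixingSubgroup_fixedField ⟨_, Subgroup.isClosed_of_isOpen _ h⟩
    exact ⟨e, (InfiniteGalois.isOpen_iff_finite _).mp (by rw [e]; exact h)⟩
  let K := (H ⊓ C).normalCore
  have hK : K ≤ H ⊓ C := Subgroup.normalCore_le _
  obtain ⟨e1, _⟩ := fix (K ⊔ U) le_sup_right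
  obtain ⟨e2, _⟩ := fix (C ⊔ U) le_sup_right
  set N := fixedField (K ⊔ U) with hN
  have : IsGalois E N := (InfiniteGalois.normal_iff_isGalois N).mp (by rw [e1]; infer_instance)
  have : NumberField N := NumberField.of_module_finite E N
  let r := AlgEquiv.restrictNormalHom (F := E) (K₁ := AlgebraicClosure E) N
  have hr : r.ker = K ⊔ U := N.restrictNormalHom_ker.trans e1
  have hG : IsPGroup p (N ≃ₐ[E] N) := fun σ => by
    obtain ⟨g, rfl⟩ := AlgEquiv.restrictNormalHom_surjective (AlgebraicClosure E) σ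
    obtain ⟨a, ha⟩ := exists_pow_mem_fix hp.ne_zero g (F := fixedField (C ⊔ U)) (by
      rw [← InfiniteGalois.fixedField_fixingSubgroup (cyc E p)]
      exact fun x hx g => hx ⟨g, Subgroup.mem_sup_left g.2⟩)
    obtain ⟨y, hy, z, hz, e⟩ := Subgroup.mem_sup_of_normal_right.mp (e2 ▸ ha)
    refine ⟨a + b, ?_⟩
    rw [pow_add, pow_mul, ← map_pow, ← e, map_mul, hr.ge (Subgroup.mem_sup_right hz), mul_one,
      ← map_pow]
    refine hr.ge (Subgroup.mem_sup_left fun c => ⟨?_, n1.conj_mem _ (C.pow_mem hy _) c⟩)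
    rw [← conj_pow]
    exact h2 _ (n1.conj_mem _ hy c)
  have := isCyclic_of_unramified hp hodd hh hU hQ hG fun w hw => eq_bot_iff.mpr fun σ hσ => by
    have := w.isMaximal
    obtain ⟨P, hP, hPw, g, hg, rfl⟩ := exists_inertia_lift N w.asIdeal hσ
    refine hr.ge (Subgroup.mem_sup_left fun c => ?_)
    have h4 : (p : 𝓞 (AlgebraicClosure E)) ∉ c • P := fun h => hw (by
      rw [← hPw, Ideal.mem_under, map_natCast, ← Ideal.smul_mem_pointwise_smul_iff (a := c)]
      convert h
      exact map_natCast (MulSemiringAction.toRingHom _ _ c) p)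
    have h5 : (c • P).IsMaximal := Ideal.IsMaximal.map_bijective _ (MulAction.bijective c) hP
    exact ⟨h3 _ h5 h4 (conj_mem_inertia hg c), inertia_le_cyc hp.ne_zero h4 (conj_mem_inertia hg c)⟩
  rcases le_total_of_cyclic hG (C.map r) (N0.fixingSubgroup.map r) with h | h
  all_goals rw [Subgroup.map_le_iff_le_comap, Subgroup.comap_map_eq, hr] at h
  · intro g hg
    obtain ⟨y, hy, z, hz, rfl⟩ := Subgroup.mem_sup_of_normal_right.mp
      ((sup_le le_sup_right (sup_le_sup_left inf_le_left K)) (h hg))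
    exact H.mul_mem (hK hy).1 (h1 ⟨(C.mul_mem_cancel_left (hK hy).2).mp hg, hz⟩)
  · refine absurd (finrank_le_of_le_right ?_) hF'.not_ge
    rw [← InfiniteGalois.fixedField_fixingSubgroup N0, IntermediateField.le_iff_le]
    exact h.trans (sup_le (fixingSubgroup_le hF)
      (sup_le (hK.trans (inf_le_right.trans (fixingSubgroup_le hF))) inf_le_right))

variable (E p) in
/-- the maximal abelian pro-`p` extension of the cyclotomic extension unramified outside `p` -/
noncomputable abbrev maxAb : IntermediateField (cyc E p) (AlgebraicClosure E) :=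
  maxIn (cyc E p) (AlgebraicClosure E) p

theorem maxAb_eq_bot (hp : p.Prime) (hodd : p ≠ 2) (hh : ¬ p ∣ classNumber E) (hU : HU E p)
    (hQ : HQ E p) : maxAb E p = ⊥ := by
  refine eq_bot_iff.mpr (sSup_le fun L ⟨_, ⟨k, hk⟩, hL⟩ => ?_)
  have : FiniteDimensional (cyc E p) L := finite_of_finrank_pos (hk ▸ pow_pos hp.pos k)
  obtain ⟨α, hα⟩ := Field.exists_primitive_element (cyc E p) L
  have := adjoin.finiteDimensional (Algebra.IsIntegral.isIntegral (R := E) (α : AlgebraicClosure E))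
  let r := AlgEquiv.restrictNormalHom (F := cyc E p) (K₁ := AlgebraicClosure E) L
  have hr : ∀ g : (cyc E p).fixingSubgroup, r ((cyc E p).fixingSubgroupEquiv g) = 1 →
      g.1 ∈ (L.restrictScalars E).fixingSubgroup := fun g hg x =>
    L.restrictNormalHom_ker.le hg x
  have key := descent hp hodd hh hU hQ (L.restrictScalars E).fixingSubgroup
    (normalClosure E E⟮(α : AlgebraicClosure E)⟯ (AlgebraicClosure E))
    (fun g hg x => by
      have h1 : x.1 ∈ (cyc E p)⟮(α : AlgebraicClosure E)⟯ := by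
        rw [← lift_adjoin_simple, hα, IntermediateField.lift_top]; exact x.2
      refine (forall_mem_adjoin_smul_eq_self_iff _ ((cyc E p).fixingSubgroupEquiv ⟨g, hg.1⟩)).mpr
        ?_ _ h1
      rintro _ rfl
      exact hg.2 ⟨α, le_normalClosure _ (mem_adjoin_simple_self E _)⟩) k
    (fun g hg => hr (⟨g, hg⟩ ^ p ^ k) (by
      rw [map_pow, map_pow, ← hk, ← IsGalois.card_aut_eq_finrank, pow_card_eq_one']))
    fun P hP hPp g hg => hr ⟨g, inertia_le_cyc hp.ne_zero hPp hg⟩
      ((hL (P.under (𝓞 L)) inferInstance (by rwa [Ideal.mem_under, map_natCast])).le fun x => by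
        have h1 := hg (algebraMap (𝓞 L) _ x)
        rw [Submodule.mem_toAddSubgroup] at h1 ⊢
        rw [Ideal.mem_under, map_sub]
        convert h1 using 2
        exact RingOfIntegers.ext (AlgEquiv.restrictNormal_commutes _ L x))
  intro x hx
  rw [← InfiniteGalois.fixedField_bot]
  exact fun g => key (x := g.1.restrictScalars E) (fun y => g.1.commutes y) ⟨x, hx⟩

lemma subsingleton_XS (h : maxAb E p = ⊥) : Subsingleton (XS E p) := by
  rw [XS, galMax, show maxIn _ _ p = _ from h]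
  refine ⟨fun σ τ => AlgEquiv.ext fun x => ?_⟩
  obtain ⟨y, rfl⟩ := (IntermediateField.botEquiv _ _).symm.surjective x
  rw [IntermediateField.botEquiv_symm, σ.commutes, τ.commutes]

end Pool.Agent.Lib.MP_4e64b4_nt
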