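import Pool.Agent.Lib.MP_4e64b4_nt.Descent

set_option autoImplicit false

open NumberField IsDedekindDomain Module Polynomial

namespace Pool.Agent.Lib.MP_4e64b4_nt

/-- the product of the `X - a` -/
noncomputable def gP (A : Finset ℤ) : ℤ[X] := ∏ a ∈ A, (X - C a)

/-- the Ankeny-Brauer-Chowla polynomial -/
noncomputable def fP (A : Finset ℤ) (t : ℤ) : ℤ[X] := (X - C t) * gP A - 1

/-- membership in the ideal generated by `p` and `f` -/
def Cong (p : ℕ) (f P : ℤ[X]) : Prop := ∃ b k : ℤ[X], P = p * b + k * f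

/-- the local condition at `p` -/
def Nice (A : Finset ℤ) (p : ℕ) (t : ℤ) : Prop :=
  ∃ Q : ℕ, p.Coprime Q ∧ (∃ u, Cong p (fP A t) (u * derivative (fP A t) - 1)) ∧
    (∀ P, Cong p (fP A t) (P ^ (Q + 1) - P)) ∧ ∃ (γ : A → ℤ[X]) (β : ℤ[X]),
      (∀ a : A, ∃ k, (X - C a.1) ^ Q = 1 + (p : ℤ[X]) * γ a + k * fP A t) ∧
        ∀ P, ∃ (j : ℕ) (c : A → ℕ), Cong p (fP A t) (P - ((j : ℤ[X]) * β + ∑ a, (c a : ℤ[X]) * γ a))

variable {A : Finset ℤ} {t : ℤ} {p : ℕ}

lemma monic_gP : (gP A).Monic := monic_prod_of_monic _ _ fun a _ => monic_X_sub_C a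

lemma natDegree_gP : (gP A).natDegree = A.card := by
  rw [gP, natDegree_prod_of_monic _ _ fun a _ => monic_X_sub_C a]
  simp only [natDegree_X_sub_C, Finset.sum_const, smul_eq_mul, mul_one]

lemma natDegree_fP : (fP A t).natDegree = A.card + 1 := by
  rw [fP, ← C_1, natDegree_sub_C, (monic_X_sub_C t).natDegree_mul monic_gP, natDegree_X_sub_C,
    natDegree_gP, add_comm]

lemma monic_fP : (fP A t).Monic := by
  refine ((monic_X_sub_C t).mul monic_gP).sub_of_left (degree_lt_degree ?_)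
  rw [(monic_X_sub_C t).natDegree_mul monic_gP, natDegree_X_sub_C, natDegree_one]
  omega

section
variable {E : Type*} [Field E] [NumberField E] {θ : E}

lemma PP.aeval (hθ : IsIntegral ℤ θ) (P : ℤ[X]) : PP p 0 (aeval θ P) :=
  PP.int ⟨_, (adjoin_le_integralClosure hθ) (aeval_mem_adjoin_singleton ℤ θ)⟩

lemma Cong.pp {f P : ℤ[X]} (h : Cong p f P) (hθ : IsIntegral ℤ θ) (hf : aeval θ f = 0) :
    PP p 1 (aeval θ P) := by
  obtain ⟨b, k, rfl⟩ := h
  simpa [hf] using PP.self.mul0 (PP.aeval hθ b)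

lemma PP.pow_sub_pow {k : ℕ} {x y : E} (hx : PP p 0 x) (hy : PP p 0 y) (h : PP p k (x - y))
    (n : ℕ) : PP p k (x ^ n - y ^ n) := by
  rw [← (Commute.all x y).geom_sum₂_mul]
  exact (PP.sum fun i _ => (hx.pow0 _).mul0 (hy.pow0 _)).mul0' h

lemma derivative_mem {f : ℤ[X]} {x : 𝓞 E} (hx : Algebra.adjoin ℚ {(x : E)} = ⊤)
    (hf : aeval x f = 0) :
    aeval x (derivative f) ∈ conductor ℤ x * differentIdeal ℤ (𝓞 E) := by
  obtain ⟨ν, rfl⟩ := minpoly.isIntegrallyClosed_dvd (Algebra.IsIntegral.isIntegral x) hf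
  rw [conductor_mul_differentIdeal ℤ ℚ E x hx, derivative_mul, map_add, map_mul, map_mul,
    minpoly.aeval, zero_mul, add_zero]
  exact Ideal.mul_mem_right _ _ (Ideal.mem_span_singleton_self _)

lemma exists_poly (hp : p.Prime) {f u : ℤ[X]} (hθ : IsIntegral ℤ θ) (hx : Algebra.adjoin ℚ {θ} = ⊤)
    (hf : aeval θ f = 0) (hu : Cong p f (u * derivative f - 1)) {r : E} (hr : PP p 0 r) :
    ∃ P : ℤ[X], PP p 1 (r - aeval θ P) := by
  obtain ⟨a, ha⟩ := hr.exists_close hp 1
  let x : 𝓞 E := ⟨θ, hθ⟩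
  have e : ∀ P : ℤ[X], algebraMap (𝓞 E) E (aeval x P) = aeval θ P := fun P =>
    (aeval_algebraMap_apply E x P).symm
  have h1 := Ideal.mul_le_left (derivative_mem (x := x) hx
    (IsFractionRing.injective (𝓞 E) E ((e f).trans (hf.trans (map_zero _).symm)))) a
  rw [Algebra.adjoin_singleton_eq_range_aeval] at h1
  obtain ⟨P, hP⟩ := h1
  have h2 := congrArg (algebraMap (𝓞 E) E) hP
  rw [map_mul, e] at h2
  replace h2 := (e P).symm.trans h2
  refine ⟨u * P, ?_⟩
  convert ha.sub ((hu.pp hθ hf).mul0 (PP.int a)) using 1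
  rw [map_mul, map_sub, map_mul, h2, map_one]
  ring

/-- `x` is congruent to `1 + p r` modulo `p ^ 2` -/
def Rel (p : ℕ) (x r : E) : Prop := PP p 0 r ∧ PP p 2 (x - (1 + p * r))

lemma Rel.mul {x y r s : E} (h : Rel p x r) (h' : Rel p y s) : Rel p (x * y) (r + s) := by
  have h1 : PP p 0 (1 + p * s) := PP.one.add ((PP.natCast p).mul0 h'.1)
  have h2 : PP p 0 x := by
    simpa using (h.2.mono (Nat.zero_le _)).add (PP.one.add ((PP.natCast p).mul0 h.1))
  refine ⟨h.1.add h'.1, ?_⟩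
  convert ((h2.mul0' h'.2).add (h.2.mul0 h1)).add ((PP.self.mul0 h.1).mul (PP.self.mul0 h'.1))
    using 1
  ring

lemma Rel.one : Rel p (1 : E) 0 := ⟨PP.zero, by simpa using PP.zero⟩

lemma Rel.pow {x r : E} (h : Rel p x r) (n : ℕ) : Rel p (x ^ n) (n * r) := by
  induction n with
  | zero => simpa using Rel.one
  | succ n ih => rw [pow_succ, Nat.cast_succ, add_mul, one_mul]; exact ih.mul h

lemma Rel.prod {ι : Type*} (s : Finset ι) {x r : ι → E} (h : ∀ i, Rel p (x i) (r i)) :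
    Rel p (∏ i ∈ s, x i) (∑ i ∈ s, r i) := by
  classical
  induction s using Finset.induction_on with
  | empty => simpa using Rel.one
  | insert a s ha ih => rw [Finset.prod_insert ha, Finset.sum_insert ha]; exact (h a).mul ih

theorem Nice.imp (hp : p.Prime) (h : Nice A p t) (hx : Algebra.adjoin ℚ {θ} = ⊤)
    (hf : aeval θ (fP A t) = 0) : HU E p ∧ HQ E p ∧ aeval θ (derivative (fP A t)) ≠ 0 := by
  classical
  obtain ⟨Q, hQ, ⟨u, hu⟩, h1, γ, β, h2, h3⟩ := h
  have hθ : IsIntegral ℤ θ := ⟨_, monic_fP, hf⟩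
  have hP := fun r => exists_poly hp hθ hx hf hu (r := r)
  refine ⟨⟨1 + p * aeval θ β, by simpa using PP.self.mul0 (PP.aeval hθ β), fun z hz => ?_⟩,
    fun y hy => ⟨Q, hQ, ?_⟩, fun h0 => ?_⟩
  · have hp0 : (p : E) ≠ 0 := Nat.cast_ne_zero.mpr hp.ne_zero
    obtain ⟨r, hr⟩ : ∃ r, z - 1 = p * r := ⟨_, (mul_div_cancel₀ _ hp0).symm⟩
    obtain ⟨P, h4⟩ := hP r ((PP_mul hp.ne_zero).mp (hr ▸ hz))
    obtain ⟨j, c, h5⟩ := h3 P
    have hε : ∀ a : A, ∃ ε : (𝓞 E)ˣ, algebraMap (𝓞 E) E ε = θ - a.1 := fun a => by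
      let x : 𝓞 E := ⟨θ, hθ⟩
      refine ⟨Units.mkOfMulEqOne (x - a.1) ((x - t) * ∏ b ∈ A.erase a, (x - b))
        (IsFractionRing.injective (𝓞 E) E ?_), by simp [x]⟩
      rw [fP, gP, ← Finset.mul_prod_erase _ _ a.2, map_sub, map_one, sub_eq_zero] at hf
      rw [map_one, ← hf]
      simp [x, mul_left_comm]
    choose ε hε using hε
    refine ⟨j, ∏ a, (ε a ^ Q) ^ c a, ?_⟩
    have h7 : ∀ a : A, Rel p ((θ - a.1) ^ Q) (aeval θ (γ a)) := fun a => ⟨PP.aeval hθ _, by
      obtain ⟨k, hk⟩ := h2 a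
      have := congrArg (aeval θ) hk
      rw [map_pow, map_sub, aeval_X, aeval_C, map_add, map_add, map_mul, map_mul, hf, mul_zero,
        add_zero, map_one, map_natCast, eq_intCast] at this
      rw [this, sub_self]; exact PP.zero⟩
    have h8 : Rel p (1 + p * aeval θ β) (aeval θ β) :=
      ⟨PP.aeval hθ β, by rw [sub_self]; exact PP.zero⟩
    have h6 := (h8.pow j).mul (Rel.prod Finset.univ fun a => (h7 a).pow (c a))
    convert (PP.self.mul (h4.add (h5.pp hθ hf))).sub h6.2 using 1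
    simp only [Units.coe_prod, Units.val_pow_eq_pow_val, map_prod, map_pow, hε, map_sub, map_add,
      map_mul, map_sum, map_natCast]
    linear_combination hr
  · obtain ⟨P, h4⟩ := hP y (PP.of_val hy)
    have h5 := ((((PP.of_val hy).pow_sub_pow (PP.aeval hθ P) h4 (Q + 1)).add
      ((h1 P).pp hθ hf)).sub h4).mul0 (PP.inv_of_val hy)
    obtain ⟨w, hw⟩ := helper22.Val.exists_over E hp
    have h0 : y ≠ 0 := by rintro rfl; simpa using hy w hw
    convert h5 using 1
    rw [map_sub, map_pow]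
    field_simp
    ring
  · have := hu.pp hθ hf
    rw [map_sub, map_mul, h0, mul_zero, map_one] at this
    exact this.ne_zero hp rfl

end

lemma exists_frob (R : Type*) [CommRing R] [Finite R] [IsReduced R] (p : ℕ) [Fact p.Prime]
    [CharP R p] : ∃ N, 0 < N ∧ ∀ x : R, x ^ p ^ N = x := by
  let e : Equiv.Perm R := Equiv.ofBijective _ (Finite.injective_iff_bijective.mp (frobenius_inj R p))
  refine ⟨orderOf e, orderOf_pos e, fun x => ?_⟩
  have := DFunLike.congr_fun (pow_orderOf_eq_one e) x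
  rwa [Equiv.Perm.coe_pow, Equiv.coe_ofBijective, iterate_frobenius] at this

lemma exists_eig {F V W : Type*} [Field F] [AddCommGroup V] [Module F V] [Module.Finite F V]
    [AddCommGroup W] [Module F W] (B C : V →ₗ[F] W) (hC : LinearMap.ker C = ⊥) :
    ∃ S : Finset F, S.card ≤ finrank F V ∧ ∀ s ∉ S, LinearMap.ker (B + s • C) = ⊥ := by
  classical
  obtain ⟨L, hL⟩ := C.exists_leftInverse_of_injective hC
  refine ⟨(LinearMap.charpoly (-(L ∘ₗ B))).roots.toFinset, (Multiset.toFinset_card_le _).trans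
    ((card_roots' _).trans (LinearMap.charpoly_natDegree _).le), fun s hs => ?_⟩
  rw [Multiset.mem_toFinset, mem_roots (LinearMap.charpoly_monic _).ne_zero,
    ← Module.End.hasEigenvalue_iff_isRoot_charpoly, Module.End.hasEigenvalue_iff, not_not] at hs
  refine eq_bot_iff.mpr fun v hv => hs.le (Module.End.mem_eigenspace_iff.mpr ?_)
  have h1 := congrArg L (LinearMap.mem_ker.mp hv)
  rw [LinearMap.add_apply, map_add, LinearMap.smul_apply, map_smul,
    show L (C v) = v from DFunLike.congr_fun hL v, map_zero] at h1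
  exact neg_eq_of_add_eq_zero_right h1

lemma exists_span {F V W : Type*} [Field F] [AddCommGroup V] [Module F V] [AddCommGroup W]
    [Module F W] [Module.Finite F W] (B : V →ₗ[F] W) (hB : LinearMap.ker B = ⊥)
    (h : finrank F W = finrank F V + 1) : ∃ β : W, ∀ w, ∃ (j : F) (v : V), w = j • β + B v := by
  have h1 := B.finrank_range_of_inj (LinearMap.ker_eq_bot.mp hB)
  obtain ⟨β, hβ⟩ := (LinearMap.range B).exists_of_finrank_lt (by omega)
  have h2 : LinearMap.range B < Submodule.span F {β} ⊔ LinearMap.range B :=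
    lt_of_le_of_ne le_sup_right fun e => hβ 1 one_ne_zero (by
      rw [one_smul, e]; exact Submodule.mem_sup_left (Submodule.mem_span_singleton_self β))
  have h3 := Submodule.finrank_lt_finrank_of_lt h2
  have h4 := Submodule.eq_top_of_finrank_eq (le_antisymm (Submodule.finrank_le _)
    (show finrank F W ≤ finrank F ↥(Submodule.span F {β} ⊔ LinearMap.range B) by omega))
  refine ⟨β, fun w => ?_⟩
  obtain ⟨_, h5, _, ⟨v, rfl⟩, rfl⟩ := Submodule.mem_sup.mp (h4.ge (Submodule.mem_top (x := w)))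
  obtain ⟨j, rfl⟩ := Submodule.mem_span_singleton.mp h5
  exact ⟨j, v, rfl⟩

lemma mul_derivative_pow (a : ℤ) (Q : ℕ) :
    (X - C a) * derivative ((X - C a) ^ Q) = (Q : ℤ[X]) * (X - C a) ^ Q := by
  rw [derivative_X_sub_C_pow, map_natCast]
  cases Q <;> simp [pow_succ, mul_comm, mul_left_comm]

theorem exists_nice [Fact p.Prime] (hA : ∀ a ∈ A, ∀ b ∈ A, (a : ZMod p) = b → a = b) (t0 : ℤ)
    (hsep : ((fP A t0).map (Int.castRingHom (ZMod p))).Separable) :
    ∃ S : Finset (ZMod p), S.card ≤ A.card ∧ ∀ s : ℤ, (s : ZMod p) ∉ S → Nice A p (t0 + p * s) := by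
  classical
  have hp : p.Prime := Fact.out
  obtain ⟨f, hf⟩ : ∃ f, f = (fP A t0).map (Int.castRingHom (ZMod p)) := ⟨_, rfl⟩
  rw [← hf] at hsep
  have hm : f.Monic := hf ▸ monic_fP.map _
  have hd : f.natDegree = A.card + 1 := by rw [hf, monic_fP.natDegree_map, natDegree_fP]
  let π : ℤ[X] →+* AdjoinRoot f :=
    (AdjoinRoot.mk f).comp (mapRingHom (Int.castRingHom (ZMod p)))
  have hπ : ∀ P, π P = AdjoinRoot.mk f (P.map (Int.castRingHom (ZMod p))) := fun _ => rfl
  have hsurj : Function.Surjective π := AdjoinRoot.mk_surjective.comp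
    (map_surjective _ (ZMod.ringHom_surjective _))
  have hker : ∀ P, π P = 0 → Cong p (fP A t0) P := fun P h => by
    obtain ⟨k, hk⟩ := AdjoinRoot.mk_eq_zero.mp h
    obtain ⟨k, rfl⟩ := map_surjective _ (ZMod.ringHom_surjective (Int.castRingHom (ZMod p))) k
    obtain ⟨b, hb⟩ : C (p : ℤ) ∣ P - k * fP A t0 := (C_dvd_iff_dvd_coeff _ _).mpr fun i => by
      rw [← ZMod.intCast_zmod_eq_zero_iff_dvd, ← eq_intCast (Int.castRingHom _), ← coeff_map,
        Polynomial.map_sub, Polynomial.map_mul, ← hf, mul_comm, ← hk, coe_mapRingHom, sub_self,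
        coeff_zero]
    exact ⟨b, k, by rw [← sub_eq_iff_eq_add, hb, map_natCast]⟩
  have e0 : ∀ s : ℤ, fP A t0 = fP A (t0 + p * s) + p * (s * gP A) := fun s => by
    simp only [fP, map_add, map_mul, map_natCast, eq_intCast]; ring
  have hker' : ∀ (s : ℤ) P, π P = 0 → Cong p (fP A (t0 + p * s)) P := fun s P h => by
    obtain ⟨b, k, rfl⟩ := hker P h
    exact ⟨b + k * (s * gP A), k, by rw [e0 s]; ring⟩
  have : Module.Finite (ZMod p) (AdjoinRoot f) := (AdjoinRoot.powerBasis hm.ne_zero).finite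
  have : Finite (AdjoinRoot f) := Module.finite_of_finite (ZMod p)
  have : IsReduced (AdjoinRoot f) := (Ideal.isRadical_iff_quotient_reduced _).mp
    (isRadical_iff_span_singleton.mp hsep.squarefree.isRadical)
  have : Nontrivial (AdjoinRoot f) := AdjoinRoot.nontrivial f (by
    rw [degree_eq_natDegree hm.ne_zero, hd]; exact_mod_cast Nat.succ_ne_zero A.card)
  have : CharP (AdjoinRoot f) p := charP_of_injective_algebraMap (algebraMap (ZMod p) _).injective p
  have hp0 : π p = 0 := by rw [map_natCast, CharP.cast_eq_zero]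
  have hf0 : π (fP A t0) = 0 := by rw [hπ, ← hf, AdjoinRoot.mk_self]
  obtain ⟨N, hN, hF⟩ := exists_frob (AdjoinRoot f) p
  obtain ⟨Q, hQ⟩ : ∃ Q, p ^ N = Q + 1 := ⟨_, (Nat.succ_pred_eq_of_pos (pow_pos hp.pos N)).symm⟩
  have hQ1 : (Q : AdjoinRoot f) = -1 := by
    rw [← add_eq_zero_iff_eq_neg, ← Nat.cast_add_one, ← hQ, Nat.cast_pow, CharP.cast_eq_zero,
      zero_pow hN.ne']
  have hg : ∀ a : A, gP A = (X - C a.1) * ∏ b ∈ A.erase a, (X - C b) := fun a =>
    (Finset.mul_prod_erase _ _ a.2).symm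
  have h1 : ∀ a : A, Cong p (fP A t0) ((X - C a.1) ^ Q - 1) := fun a => hker _ (by
    have h2 := hF (π (X - C a.1))
    have h3 := hf0
    rw [fP, hg a, map_sub, map_mul, map_mul, map_one] at h3
    rw [hQ, pow_succ] at h2
    rw [map_sub, map_pow, map_one]
    linear_combination (π (X - C t0) * π (∏ b ∈ A.erase a, (X - C b))) * h2
      - (π (X - C a.1) ^ Q - 1) * h3)
  choose b k hbk using h1
  let Φ : (A → ℤ[X]) → (A → ZMod p) →ₗ[ZMod p] AdjoinRoot f := fun v =>
    Fintype.linearCombination (ZMod p) fun a => π (v a)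
  have hΦ : ∀ v c, Φ v c = ∑ a, c a • π (v a) := fun _ _ => rfl
  obtain ⟨S, hS, hS'⟩ := exists_eig (Φ b) (Φ fun a => k a * gP A) (eq_bot_iff.mpr fun c hc => by
    have h2 : ∀ a : A, π (k a * gP A) * π (derivative (fP A t0))
        = -π (∏ b ∈ A.erase a, (X - C b)) := fun a => by
      have h3 := congrArg (fun P => π ((X - C a.1) * derivative P)) (hbk a)
      have h4 := congrArg π (hbk a)
      simp only [derivative_sub, derivative_one, derivative_mul,
        derivative_natCast, sub_zero, zero_mul, zero_add, map_mul, map_add, hp0, hf0,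
        mul_zero] at h3
      rw [← map_mul, mul_derivative_pow, map_mul, map_natCast, hQ1] at h3
      rw [map_add, map_mul, map_mul, hp0, hf0, zero_mul, mul_zero, add_zero, map_sub, map_one,
        sub_eq_zero] at h4
      rw [hg a, map_mul, map_mul]
      linear_combination (-π (∏ b ∈ A.erase a, (X - C b))) * h3
        - π (∏ b ∈ A.erase a, (X - C b)) * h4
    have h3 := congrArg (· * π (derivative (fP A t0))) (LinearMap.mem_ker.mp hc)
    simp only [hΦ, Finset.sum_mul, smul_mul_assoc, h2, zero_mul, smul_neg, Finset.sum_neg_distrib,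
      neg_eq_zero] at h3
    have h4 : ∑ a : A, C (c a) * ∏ b ∈ A.erase a, (X - C (b : ZMod p)) = 0 := by
      by_contra hne
      refine AdjoinRoot.mk_ne_zero_of_natDegree_lt hm hne (hd ▸ Nat.lt_succ_of_le
        (natDegree_sum_le_of_forall_le _ _ fun a _ => (natDegree_C_mul_le _ _).trans ?_)) ?_
      · rw [natDegree_prod_of_monic _ _ fun b _ => monic_X_sub_C _]
        simpa only [natDegree_X_sub_C, Finset.sum_const, smul_eq_mul, mul_one]
          using Finset.card_erase_le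
      · rw [← h3, map_sum]
        refine Finset.sum_congr rfl fun a _ => ?_
        rw [← smul_eq_C_mul, ← AdjoinRoot.smul_mk, hπ, Polynomial.map_prod]
        simp
    ext a
    have h5 := congrArg (eval (a.1 : ZMod p)) h4
    rw [eval_finsetSum, Finset.sum_eq_single a (fun a' _ h => by
      rw [eval_mul, eval_prod, Finset.prod_eq_zero (Finset.mem_erase.mpr
        ⟨fun e => h (Subtype.ext e).symm, a.2⟩) (by simp), mul_zero]) (by simp), eval_mul, eval_C,
      eval_prod, eval_zero, mul_eq_zero, Finset.prod_eq_zero_iff] at h5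
    refine h5.resolve_right fun ⟨a', h6, h7⟩ => (Finset.mem_erase.mp h6).1
      (hA _ (Finset.mem_of_mem_erase h6) _ a.2 ?_)
    rw [eval_sub, eval_X, eval_C, sub_eq_zero] at h7
    exact h7.symm)
  refine ⟨S, by simpa using hS, fun s hs => ⟨Q, ?_, ?_, fun P => hker' s _ ?_, ?_⟩⟩
  · exact Nat.Coprime.coprime_dvd_left (dvd_pow_self p hN.ne') (by simp [hQ])
  · obtain ⟨u, v, h⟩ := hsep
    obtain ⟨v, rfl⟩ := map_surjective _ (ZMod.ringHom_surjective (Int.castRingHom (ZMod p))) v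
    refine ⟨v, hker' s _ ?_⟩
    have h2 := congrArg (AdjoinRoot.mk f) h
    rw [map_add, map_mul, AdjoinRoot.mk_self, mul_zero, zero_add, map_mul, map_one] at h2
    have h3 := congrArg (fun P => π (derivative P)) (e0 s)
    simp only [derivative_mul, derivative_natCast, zero_mul, zero_add, map_add,
      map_mul, hp0, add_zero] at h3
    rw [map_sub, map_mul, map_one, ← h3, hπ, hπ, ← derivative_map, ← hf, h2, sub_self]
  · rw [map_sub, map_pow, ← hQ, hF, sub_self]
  obtain ⟨β, hβ⟩ := exists_span _ (hS' s hs) (by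
    rw [(AdjoinRoot.powerBasis hm.ne_zero).finrank, AdjoinRoot.powerBasis_dim, hd]; simp)
  obtain ⟨β, rfl⟩ := hsurj β
  refine ⟨fun a => b a + s * (k a * gP A), β, fun a => ⟨k a, ?_⟩, fun P => ?_⟩
  · rw [sub_eq_iff_eq_add.mp (hbk a), e0 s]; ring
  · obtain ⟨j, c, h⟩ := hβ (π P)
    refine ⟨j.val, fun a => (c a).val, hker' s _ ?_⟩
    have e : ∀ j : ZMod p, (j.val : AdjoinRoot f) = algebraMap (ZMod p) _ j := fun j => by
      rw [← map_natCast (algebraMap (ZMod p) _), ZMod.natCast_zmod_val]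
    rw [map_sub, h, sub_eq_zero, LinearMap.add_apply, LinearMap.smul_apply, hΦ, hΦ,
      Finset.smul_sum, ← Finset.sum_add_distrib]
    simp only [map_add, map_mul, map_sum, map_natCast, map_intCast, e, Algebra.smul_def]
    exact congrArg _ (Finset.sum_congr rfl fun a _ => by ring)

end Pool.Agent.Lib.MP_4e64b4_nt
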