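import Pool.Agent.Lib.MP_4e64b4_nt.Split

set_option autoImplicit false

open NumberField Module Polynomial Finset Filter
open scoped IntermediateField

namespace Pool.Agent.Lib.MP_4e64b4_nt

lemma root_eq {A : Finset ℤ} {t : ℕ} {z : ℂ} (h : aeval z (fP A t) = 0) :
    (z - t) * ∏ a ∈ A, (z - a) = 1 := by
  simpa [fP, gP, map_prod, sub_eq_zero] using h

lemma exists_root_bound (A : Finset ℤ) : ∃ c : ℝ, 0 < c ∧ ∀ (t : ℕ) (z : ℂ),
    aeval z (fP A t) = 0 → ‖z‖ ≤ t + c ∧ ∀ a ∈ A, ‖z - a‖ ≤ 3⁻¹ → c ≤ t → ‖z - a‖ * t ≤ c := by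
  classical
  obtain ⟨c, hc⟩ := (A.image fun a : ℤ => ‖(a : ℂ)‖).bddAbove
  refine ⟨2 * (|c| + 1) + 2 * 2 ^ A.card, by positivity, fun t z hz => ?_⟩
  have h1 := congrArg norm (root_eq hz)
  have h2 : ∀ a ∈ A, ‖(a : ℂ)‖ ≤ |c| := fun a ha =>
    (hc (mem_image_of_mem _ ha)).trans (le_abs_self c)
  have h3 := norm_sub_norm_le z t
  have h4 := norm_sub_norm_le (t : ℂ) z
  have h5 : (0 : ℝ) < 2 ^ A.card := by positivity
  rw [norm_mul, norm_prod, norm_one] at h1
  rw [Complex.norm_natCast] at h3 h4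
  refine ⟨not_lt.mp fun h => ?_, fun a ha h h' => ?_⟩
  · have : 1 ≤ ∏ a ∈ A, ‖z - a‖ := one_le_prod fun a ha => by
      linarith [norm_sub_norm_le z a, h2 a ha, t.cast_nonneg (α := ℝ), abs_nonneg c]
    nlinarith [abs_nonneg c]
  · have h6 : (2⁻¹ : ℝ) ^ A.card ≤ ∏ b ∈ A.erase a, ‖z - b‖ := by
      refine (pow_le_pow_of_le_one (by norm_num) (by norm_num) (card_erase_le (a := a))).trans ?_
      rw [← prod_const]
      refine prod_le_prod (fun _ _ => by norm_num) fun b hb => ?_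
      have h7 : 1 ≤ ‖(a : ℂ) - b‖ := by
        rw [← Int.cast_sub, Complex.norm_intCast]
        exact_mod_cast Int.one_le_abs (sub_ne_zero.mpr (mem_erase.mp hb).1.symm)
      linarith [norm_sub_le_norm_sub_add_norm_sub (a : ℂ) z b, norm_sub_rev (a : ℂ) z]
    have h7 : t / 2 ≤ ‖z - t‖ := by linarith [norm_sub_norm_le z a, h2 a ha, norm_sub_rev z t]
    rw [← mul_prod_erase _ _ ha] at h1
    have h8 := mul_le_mul h7 (mul_le_mul_of_nonneg_left h6 (norm_nonneg (z - a))) (by positivity)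
      (norm_nonneg _)
    rw [h1, inv_pow, ← mul_assoc, mul_inv_le_iff₀ h5] at h8
    linarith [abs_nonneg c]

lemma exists_fiber {A : Finset ℤ} (hA : 2 ≤ A.card) (K : ℕ) : ∀ᶠ U : ℕ in atTop, ∀ θ : ℕ → ℂ,
    (∀ t : ℕ, aeval (θ t) (fP A t) = 0) → ∀ (E : IntermediateField ℚ ℂ) (S : Finset ℕ),
      (∀ t ∈ S, U ≤ t ∧ t ≤ K * U ∧ ℚ⟮θ t⟯ = E) → S.card ≤ (A.card + 1) ^ (A.card + 1) := by
  classical
  obtain ⟨c, hc, h1⟩ := exists_root_bound A
  obtain ⟨N, hN⟩ := eventually_atTop.mp ((ev_real A).and (ev_good A))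
  filter_upwards [eventually_ge_atTop N, tendsto_natCast_atTop_atTop.eventually_gt_atTop
    (2 * c + 1 + 2 * (K + 1) * (2 * c) ^ 2)] with U h2 h3 θ hθ E S hS
  rcases S.eq_empty_or_nonempty with rfl | ⟨t₀, h0⟩
  · simp
  have hi : ∀ t, IsIntegral ℤ (θ t) := fun t => ⟨_, monic_fP, hθ t⟩
  have hd : finrank ℚ E = A.card + 1 :=
    (hS t₀ h0).2.2 ▸ ((hN t₀ (h2.trans (hS t₀ h0).1)).1 _ (hθ t₀)).2.2
  have : FiniteDimensional ℚ E := finite_of_finrank_pos (by omega)
  have : NumberField E := NumberField.of_module_finite ℚ E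
  have hx : ∀ t : S, ∃ x : 𝓞 E, ((x : E) : ℂ) = θ t ∧ Algebra.adjoin ℚ {(x : E)} = ⊤ := fun t => by
    obtain rfl := (hS t t.2).2.2
    exact ⟨⟨IntermediateField.AdjoinSimple.gen ℚ (θ t), (isIntegral_algebraMap_iff
      (algebraMap ℚ⟮θ t⟯ ℂ).injective).mp (hi t)⟩, rfl,
      (IntermediateField.adjoin.powerBasis (hi t).tower_top).adjoin_gen_eq_top⟩
  choose x hx hx' using hx
  have h4 : ∀ (t : S) (σ : E →ₐ[ℚ] ℂ), aeval (σ (x t)) (fP A t) = 0 := fun t σ => by
    have e : aeval (x t : E) (fP A t) = 0 := (algebraMap E ℂ).injective (by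
      rw [← aeval_algebraMap_apply, map_zero, ← hθ t, ← hx t]; rfl)
    exact (aeval_algHom_apply (σ.restrictScalars ℤ) _ _).trans (by rw [e, map_zero])
  have hU : ∀ t : S, (U : ℝ) ≤ t := fun t => Nat.cast_le.mpr (hS t t.2).1
  have h5 : (0 : ℝ) ≤ 2 * (K + 1) * (2 * c) ^ 2 := by positivity
  choose s hs using fun t : S => (hN t (h2.trans (hS t t.2).1)).2.2.2
  have h6 : ∀ (t : S) (σ : E →ₐ[ℚ] ℂ), ∃ o : Option A,
      o.elim (σ (x t) = s t) fun a => ‖σ (x t) - a‖ * U ≤ c := fun t σ => by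
    obtain h | ⟨a, ha, h⟩ := hs t _ (h4 t σ)
    · exact ⟨none, h⟩
    · exact ⟨some ⟨a, ha⟩, (mul_le_mul_of_nonneg_left (hU t) (norm_nonneg _)).trans
        ((h1 t _ (h4 t σ)).2 a ha h (by linarith [hU t]))⟩
  choose l hl using h6
  refine (Fintype.card_coe S).ge.trans ((Fintype.card_le_of_injective l fun t t' e =>
    by_contra fun h => ?_).trans_eq (by simp [AlgHom.card, hd]))
  have h7 : x t - x t' ≠ 0 := sub_ne_zero.mpr fun e => h (by
    have e1 := root_eq (hθ t)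
    have e2 := root_eq (hθ t')
    rw [← hx t', ← e, hx t, ← e1, mul_left_inj' (right_ne_zero_of_mul_eq_one e1)] at e2
    exact Subtype.ext (by simpa using e2.symm))
  have h8 := congrArg norm (Algebra.norm_eq_prod_embeddings ℚ ℂ ((x t - x t' : 𝓞 E) : E))
  rw [← Algebra.coe_norm_int, map_intCast, Complex.norm_intCast, norm_prod,
    ← prod_filter_mul_prod_filter_not univ fun σ => l t σ = none] at h8
  have h9 : 1 ≤ |(Algebra.norm ℤ (x t - x t') : ℝ)| := by
    exact_mod_cast Int.one_le_abs (Algebra.norm_ne_zero_iff.mpr h7)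
  have h10 : (univ.filter fun σ => l t σ = none).card ≤ 1 := card_le_one.mpr fun σ a τ b => by
    have e1 := hl t σ
    have e2 := hl t τ
    rw [(mem_filter.mp a).2] at e1
    rw [(mem_filter.mp b).2] at e2
    exact AlgHom.ext_of_adjoin_eq_top (hx' t) fun _ e => e ▸ e1.trans e2.symm
  have h11 := card_filter_add_card_filter_not (s := univ) fun σ => l t σ = none
  rw [card_univ, AlgHom.card, hd] at h11
  have hU0 : (0 : ℝ) < U := by linarith
  have h12 : ∏ σ with l t σ = none, ‖σ ((x t - x t' : 𝓞 E) : E)‖ ≤ 2 * (K + 1) * U := by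
    refine (prod_le_prod (fun _ _ => norm_nonneg _) (g := fun _ => (2 * (K + 1) * U : ℝ))
      fun σ _ => ?_).trans ?_
    · have e := fun t : S => (Nat.cast_le (α := ℝ)).mpr (hS t t.2).2.1
      rw [RingOfIntegers.coe_eq_algebraMap, map_sub, map_sub]
      push_cast at e
      linarith [norm_sub_le (σ (x t)) (σ (x t')), (h1 t _ (h4 t σ)).1, (h1 t' _ (h4 t' σ)).1,
        e t, e t']
    · rw [prod_const]
      exact (pow_le_pow_right₀ (by nlinarith [K.cast_nonneg (α := ℝ)]) h10).trans_eq (pow_one _)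
  have h13 : ∏ σ with ¬ l t σ = none, ‖σ ((x t - x t' : 𝓞 E) : E)‖ ≤ (2 * c / U) ^ 2 := by
    refine (prod_le_prod (fun _ _ => norm_nonneg _) (g := fun _ => 2 * c / U)
      fun σ hσ => ?_).trans ?_
    · obtain ⟨a, ha⟩ := Option.ne_none_iff_exists'.mp (mem_filter.mp hσ).2
      have e1 := hl t σ
      have e2 := hl t' σ
      rw [← e] at e2
      rw [ha, Option.elim_some] at e1 e2
      rw [RingOfIntegers.coe_eq_algebraMap, map_sub, map_sub, le_div_iff₀ hU0]
      nlinarith [norm_sub_le_norm_sub_add_norm_sub (σ (x t)) a (σ (x t')),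
        norm_sub_rev (σ (x t')) a]
    · rw [prod_const]
      exact pow_le_pow_of_le_one (by positivity) ((div_le_one hU0).mpr (by linarith)) (by omega)
  have h14 := (h9.trans_eq h8).trans (mul_le_mul h12 h13 (prod_nonneg fun _ _ => norm_nonneg _)
    (by positivity))
  rw [div_pow, ← mul_div_assoc, le_div_iff₀ (by positivity)] at h14
  nlinarith

end Pool.Agent.Lib.MP_4e64b4_nt
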