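import Mathlib

set_option autoImplicit false

open AddSubgroup Module Polynomial

namespace Pool.Agent.Lib.MP_4e64b4_nt

section
variable {A I : Type*} [AddCommGroup A] [AddCommGroup I]

lemma relIndex_map_dvd (f : A →+ I) (H K : AddSubgroup A) :
    (H.map f).relIndex (K.map f) ∣ H.relIndex K := by
  rw [← relIndex_comap]
  exact relIndex_dvd_of_le_left _ (le_comap_map f H)

lemma card_ker_mul_card_range (f : A →+ I) : Nat.card f.ker * Nat.card f.range = Nat.card A := by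
  rw [← index_ker, card_mul_index]

lemma relIndex_mul_card {H K : AddSubgroup A} (h : H ≤ K) :
    H.relIndex K * Nat.card H = Nat.card K := by
  rw [relIndex, ← Nat.card_congr (addSubgroupOfEquivOfLe h).toEquiv, index_mul_card]

lemma herbrand_finite [Finite A] (D N : A →+ A) (h1 : D.range ≤ N.ker) (h2 : N.range ≤ D.ker) :
    D.range.relIndex N.ker = N.range.relIndex D.ker ∧ D.range.relIndex N.ker ≠ 0 := by
  have e1 := relIndex_mul_card h1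
  have e2 := relIndex_mul_card h2
  have e3 := card_ker_mul_card_range D
  have e4 := card_ker_mul_card_range N
  have p1 : 0 < Nat.card D.range := Nat.card_pos
  have p2 : 0 < Nat.card N.range := Nat.card_pos
  have p3 : 0 < Nat.card N.ker := Nat.card_pos
  refine ⟨Nat.eq_of_mul_eq_mul_right (mul_pos p1 p2) ?_, fun h => by rw [h] at e1; omega⟩
  rw [← mul_assoc, e1, e4, mul_comm (Nat.card D.range), ← mul_assoc, e2, e3]

/-- the exact hexagon, in the form we need it -/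
lemma hexagon (D N : A →+ A) (D' N' : I →+ I) (φ : A →+ I) (V : AddSubgroup A)
    (hD : ∀ a, φ (D a) = D' (φ a)) (hN : ∀ a, φ (N a) = N' (φ a))
    (hDN : ∀ a, D (N a) = 0) (hND : ∀ a, N (D a) = 0)
    (hDN' : ∀ a, D' (N' a) = 0) (hND' : ∀ a, N' (D' a) = 0)
    (hDV : ∀ a ∈ V, D a ∈ V) (hNV : ∀ a ∈ V, N a ∈ V) [(V.map φ).FiniteIndex]
    (h1 : ∀ a ∈ V, N a = 0 → ∃ b ∈ V, a = D b)
    (hS : ∀ x, D' x = 0 → ∃ y, ∃ v ∈ V, D v = 0 ∧ x = N' y + φ v)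
    (h0 : ((V ⊓ φ.ker).map N).relIndex (V ⊓ φ.ker ⊓ D.ker) ≠ 0) :
    ((V ⊓ φ.ker).map D).relIndex (V ⊓ φ.ker ⊓ N.ker)
      ≤ ((V ⊓ φ.ker).map N).relIndex (V ⊓ φ.ker ⊓ D.ker) ∧
    ((V ⊓ φ.ker).map D).relIndex (V ⊓ φ.ker ⊓ N.ker) ≠ 0 := by
  set P := V.map φ with hP
  let π : I →+ I ⧸ P := QuotientAddGroup.mk' P
  have hπ : ∀ x y, π x = π y ↔ ∃ v ∈ V, x = y + φ v := fun x y => by
    rw [QuotientAddGroup.mk'_eq_mk']
    constructor
    · rintro ⟨_, ⟨v, hv, rfl⟩, e⟩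
      exact ⟨-v, neg_mem hv, by rw [← e, map_neg]; abel⟩
    · rintro ⟨v, hv, rfl⟩
      exact ⟨_, ⟨-v, neg_mem hv, rfl⟩, by rw [map_neg]; abel⟩
  have hsurj : Function.Surjective π := QuotientAddGroup.mk'_surjective P
  let DC : I ⧸ P →+ I ⧸ P := QuotientAddGroup.map P P D' (by
    rintro _ ⟨v, hv, rfl⟩; exact ⟨_, hDV v hv, hD v⟩)
  let NC : I ⧸ P →+ I ⧸ P := QuotientAddGroup.map P P N' (by
    rintro _ ⟨v, hv, rfl⟩; exact ⟨_, hNV v hv, hN v⟩)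
  have eD : ∀ x, DC (π x) = π (D' x) := fun _ => rfl
  have eN : ∀ x, NC (π x) = π (N' x) := fun _ => rfl
  obtain ⟨e, e0⟩ := herbrand_finite DC NC
    (by
      rintro _ ⟨c, rfl⟩
      obtain ⟨x, rfl⟩ := hsurj c
      rw [AddMonoidHom.mem_ker, eD, eN, hND', map_zero])
    (by
      rintro _ ⟨c, rfl⟩
      obtain ⟨x, rfl⟩ := hsurj c
      rw [AddMonoidHom.mem_ker, eN, eD, hDN', map_zero])
  have key : ∀ (F : I →+ I) (FC : I ⧸ P →+ I ⧸ P), (∀ x, FC (π x) = π (F x)) →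
      ∃ Z : AddSubgroup (I × A), (∀ z, z ∈ Z ↔ z.2 ∈ V ∧ F z.1 = φ z.2) ∧
        Z.map (π.comp (AddMonoidHom.fst I A)) = FC.ker := fun F FC hF => by
    refine ⟨V.comap (AddMonoidHom.snd I A) ⊓
      (F.comp (AddMonoidHom.fst I A) - φ.comp (AddMonoidHom.snd I A)).ker,
      fun z => by simp [sub_eq_zero], ?_⟩
    ext c
    obtain ⟨x, rfl⟩ := hsurj c
    rw [AddMonoidHom.mem_ker, hF, ← map_zero π, hπ]
    constructor
    · rintro ⟨⟨y, m⟩, ⟨hm, h⟩, e⟩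
      have h : F y = φ m := by simpa [sub_eq_zero] using h
      have e' := congrArg FC e
      rw [AddMonoidHom.comp_apply, hF, hF] at e'
      refine (hπ _ _).mp (e'.symm.trans ((hπ _ _).mpr ⟨m, hm, ?_⟩))
      rw [zero_add]; exact h
    · rintro ⟨v, hv, e⟩
      exact ⟨(x, v), ⟨hv, by simpa [sub_eq_zero] using e⟩, rfl⟩
  obtain ⟨Z, hZ, hZ'⟩ := key D' DC eD
  obtain ⟨W, hW, hW'⟩ := key N' NC eN
  have a1 : NC.range.relIndex DC.ker ≤ ((V ⊓ φ.ker).map N).relIndex (V ⊓ φ.ker ⊓ D.ker) := by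
    have hle : Z.map (N.comp (AddMonoidHom.snd I A)) ≤ V ⊓ φ.ker ⊓ D.ker := by
      rintro _ ⟨⟨x, m⟩, hz, rfl⟩
      obtain ⟨hm, h⟩ := (hZ _).mp hz
      exact ⟨⟨hNV m hm, (hN m).trans (h ▸ hND' x)⟩, hDN m⟩
    refine le_trans ?_ (relIndex_le_of_le_right hle h0)
    have h0' := fun h => h0 (relIndex_eq_zero_of_le_right hle h)
    rw [← hZ', ← relIndex_comap, ← relIndex_comap, ← inf_relIndex_right (K := Z)
      (H := comap (N.comp _) _)] at *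
    refine relIndex_le_of_le_left ?_ h0'
    rintro ⟨x, m⟩ ⟨⟨u, ⟨hu, hu0⟩, e⟩, hz⟩
    obtain ⟨hm, h⟩ := (hZ _).mp hz
    have hu0 : φ u = 0 := hu0
    have e : N u = N m := e
    obtain ⟨b, hb, e'⟩ := h1 (m - u) (sub_mem hm hu) (by rw [map_sub, e, sub_self])
    obtain ⟨y, v, hv, -, e''⟩ := hS (x - φ b) (by
      rw [map_sub, ← hD, ← e', map_sub, hu0, sub_zero]; exact sub_eq_zero.mpr h)
    refine ⟨π y, ?_⟩
    rw [eN, eq_comm]
    exact (hπ _ _).mpr ⟨v + b, add_mem hv hb, by rw [map_add, ← add_assoc, ← e'']; simp⟩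
  have a2 : ((V ⊓ φ.ker).map D).relIndex (V ⊓ φ.ker ⊓ N.ker) ∣ DC.range.relIndex NC.ker := by
    have hle : W.map (D.comp (AddMonoidHom.snd I A)) = V ⊓ φ.ker ⊓ N.ker := by
      apply le_antisymm
      · rintro _ ⟨⟨x, m⟩, hz, rfl⟩
        obtain ⟨hm, h⟩ := (hW _).mp hz
        exact ⟨⟨hDV m hm, (hD m).trans (h ▸ hDN' x)⟩, hND m⟩
      · rintro u ⟨⟨hu, hu0⟩, hu1⟩
        obtain ⟨b, hb, rfl⟩ := h1 u hu hu1
        obtain ⟨y, v, hv, hv0, e⟩ := hS (φ b) ((hD b).symm.trans hu0)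
        refine ⟨(y, b - v), (hW _).mpr ⟨sub_mem hb hv, by rw [map_sub, e]; simp⟩, ?_⟩
        simp [hv0]
    rw [← hle, ← hW', ← relIndex_comap, ← relIndex_comap, ← inf_relIndex_right (K := W)
      (H := comap (π.comp _) _)]
    refine relIndex_dvd_of_le_left _ ?_
    rintro ⟨x, m⟩ ⟨⟨c, e⟩, hz⟩
    obtain ⟨hm, h⟩ := (hW _).mp hz
    obtain ⟨y, rfl⟩ := hsurj c
    obtain ⟨v, hv, e⟩ := (hπ _ _).mp ((eD y).symm.trans e).symm
    have e : x = D' y + φ v := e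
    have h : N' x = φ m := h
    refine ⟨m - N v, ⟨V.sub_mem hm (hNV v hv), (?_ : φ _ = 0)⟩, by simp [hDN]⟩
    rw [map_sub, ← h, e, map_add, hND', hN]
    simp
  exact ⟨(Nat.le_of_dvd (Nat.pos_of_ne_zero e0) a2).trans (e ▸ a1), ne_zero_of_dvd_ne_zero e0 a2⟩

lemma relIndex_map_eq (F : A →+ A) {B U : AddSubgroup A} (h : B ≤ U) :
    (B.map F).relIndex (U.map F) = (B ⊔ U ⊓ F.ker).relIndex U := by
  rw [← relIndex_comap, comap_map_eq, ← inf_relIndex_right, sup_inf_assoc_of_le _ h, inf_comm]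

lemma rank_le (D N : A →+ A) (U : AddSubgroup A) [Module.Finite ℤ U] [IsAddTorsionFree U] {p : ℕ}
    (hp : 1 < p) (hDN : ∀ a, D (N a) = 0) (hND : ∀ a, N (D a) = 0)
    (hDV : ∀ a ∈ U, D a ∈ U) (hNV : ∀ a ∈ U, N a ∈ U) (hN0 : ∀ a, D a = 0 → N a = p • a)
    (hpow : ∀ a ∈ U ⊓ N.ker, ∃ b ∈ U ⊓ N.ker, D^[p - 1] a = p • b)
    (h : (U.map N).relIndex (U ⊓ D.ker) ≠ 0 →
      (U.map D).relIndex (U ⊓ N.ker) ≤ (U.map N).relIndex (U ⊓ D.ker) ∧
        (U.map D).relIndex (U ⊓ N.ker) ≠ 0) :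
    finrank ℤ U ≤ p * finrank ℤ ↥(U ⊓ D.ker) := by
  have fin : ∀ B : AddSubgroup A, B ≤ U → Module.Finite ℤ B.toIntSubmodule ∧
      Module.Free ℤ B.toIntSubmodule := fun B hB => by
    have h1 : Module.Finite ℤ B := Module.Finite.of_injective
      (AddSubgroup.inclusion hB).toIntLinearMap (inclusion_injective hB)
    have h2 : IsAddTorsionFree B :=
      (inclusion_injective hB).isAddTorsionFree (AddSubgroup.inclusion hB)
    exact ⟨h1, (inferInstance : Module.Free ℤ B)⟩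
  set A0 := U ⊓ D.ker with hA0
  set A1 := U ⊓ N.ker with hA1
  obtain ⟨_, _⟩ := fin A0 inf_le_left
  obtain ⟨_, _⟩ := fin A1 inf_le_left
  have e0 := relIndex_map_nsmul p A0
  have e1 := relIndex_map_nsmul p A1
  have hp0 : 0 < p := by omega
  have m0 : A0.map (nsmulAddMonoidHom p) = A0.map N := by
    ext x
    exact exists_congr fun a => and_congr_right fun ha => by rw [hN0 a ha.2]; rfl
  have hNU : U.map N ≤ A0 := by rintro _ ⟨a, ha, rfl⟩; exact ⟨hNV a ha, hDN a⟩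
  have hDU : U.map D ≤ A1 := by rintro _ ⟨a, ha, rfl⟩; exact ⟨hDV a ha, hND a⟩
  rw [m0, ← relIndex_mul_relIndex _ _ _ (map_mono inf_le_left) hNU,
    relIndex_map_eq N inf_le_left] at e0
  have hne := mul_ne_zero_iff.mp (e0 ▸ pow_ne_zero _ hp0.ne')
  obtain ⟨h1, h2⟩ := h hne.2
  have e2 := relIndex_mul_relIndex _ _ _ (map_mono (f := D) (inf_le_left : A1 ≤ U)) hDU
  rw [relIndex_map_eq D inf_le_left, sup_comm] at e2
  have hd : (A1.map D).relIndex A1 ≤ p ^ finrank ℤ A0 := by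
    rw [← e2, ← e0]; exact Nat.mul_le_mul_left _ h1
  have hd0 : (A1.map D).relIndex A1 ≠ 0 := e2 ▸ mul_ne_zero hne.1 h2
  have hit : ∀ n : ℕ, ∃ F : A →+ A, (∀ a, F a = D^[n] a) ∧ A1.map F ≤ A1 ∧
      (A1.map F).relIndex A1 ∣ (A1.map D).relIndex A1 ^ n := fun n => by
    induction n with
    | zero => exact ⟨AddMonoidHom.id A, fun _ => rfl, by simp, by simp⟩
    | succ n ih =>
      obtain ⟨F, h1, h2, h3⟩ := ih
      have h4 : (A1.map D).map F ≤ A1.map F := map_mono ((map_mono inf_le_left).trans hDU)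
      refine ⟨F.comp D, fun a => h1 _, by rw [← AddSubgroup.map_map]; exact h4.trans h2, ?_⟩
      rw [← AddSubgroup.map_map, ← relIndex_mul_relIndex _ _ _ h4 h2, pow_succ']
      exact mul_dvd_mul (relIndex_map_dvd F _ _) h3
  obtain ⟨F, h3, -, h4⟩ := hit (p - 1)
  have h5 : A1.map F ≤ A1.map (nsmulAddMonoidHom p) := by
    rintro _ ⟨a, ha, rfl⟩
    obtain ⟨b, hb, e⟩ := hpow a ha
    exact ⟨b, hb, by rw [h3, e]; rfl⟩
  have h6 := Nat.le_of_dvd (pow_pos (Nat.pos_of_ne_zero hd0) _)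
    ((relIndex_dvd_of_le_left A1 h5).trans h4)
  rw [e1] at h6
  have h7 := h6.trans (Nat.pow_le_pow_left hd _)
  rw [← pow_mul, Nat.pow_le_pow_iff_right hp] at h7
  have : (A0 ⊔ A1).IsFiniteRelIndex U := ⟨hne.1⟩
  rw [← finrank_eq_of_isFiniteRelIndex (sup_le inf_le_left inf_le_left : A0 ⊔ A1 ≤ U)]
  have h8 := Submodule.rank_add_le_rank_add_rank A0.toIntSubmodule A1.toIntSubmodule
  obtain ⟨_, _⟩ := fin (A0 ⊔ A1) (sup_le inf_le_left inf_le_left)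
  rw [← OrderIso.map_sup, ← finrank_eq_rank, ← finrank_eq_rank, ← finrank_eq_rank] at h8
  refine le_trans (by exact_mod_cast h8) ?_
  obtain ⟨q, rfl⟩ : ∃ q, p = q + 1 := ⟨p - 1, by omega⟩
  change finrank ℤ A0 + finrank ℤ A1 ≤ _
  rw [Nat.add_sub_cancel] at h7
  nlinarith

lemma exists_geom {p : ℕ} (hp : p.Prime) :
    ∃ g : ℤ[X], (X - 1 : ℤ[X]) ^ (p - 1) = ∑ i ∈ Finset.range p, X ^ i + (p : ℤ[X]) * g := by
  obtain ⟨r, h⟩ := exists_add_pow_prime_eq hp (X - 1 : ℤ[X]) 1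
  refine ⟨-r, mul_left_cancel₀ (X_sub_C_ne_zero 1) ?_⟩
  rw [map_one, ← pow_succ', Nat.sub_add_cancel hp.one_le, mul_add, mul_geom_sum]
  rw [sub_add_cancel] at h
  rw [h]; ring

/-- Herbrand quotient computation for a cyclic group of prime order -/
theorem herbrand {p : ℕ} (hp : p.Prime) (σ : End ℤ A) (τ : End ℤ I) (hσ : σ ^ p = 1)
    (hτ : τ ^ p = 1) (φ : A →+ I) (hφ : ∀ a, φ (σ a) = τ (φ a)) (V : AddSubgroup A)
    (hV : ∀ a ∈ V, σ a ∈ V) [(V.map φ).FiniteIndex]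
    [Module.Finite ℤ ↥(V ⊓ φ.ker)] [IsAddTorsionFree ↥(V ⊓ φ.ker)]
    (h1 : ∀ a ∈ V, ∑ i ∈ Finset.range p, (σ ^ i) a = 0 → ∃ b ∈ V, a = σ b - b)
    (hS : ∀ x, τ x = x → ∃ y, ∃ v ∈ V, σ v = v ∧ x = ∑ i ∈ Finset.range p, (τ ^ i) y + φ v) :
    finrank ℤ ↥(V ⊓ φ.ker) ≤ p * finrank ℤ ↥(V ⊓ φ.ker ⊓ (σ - 1).toAddMonoidHom.ker) := by
  have gen : ∀ {B : Type _} [AddCommGroup B] (s : End ℤ B), s ^ p = 1 →
      (∀ a, (s - 1) ((∑ i ∈ Finset.range p, s ^ i) a) = 0) ∧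
        ∀ a, (∑ i ∈ Finset.range p, s ^ i) ((s - 1) a) = 0 := fun s hs =>
    ⟨fun a => by rw [← End.mul_apply, mul_geom_sum, hs, sub_self]; rfl,
      fun a => by rw [← End.mul_apply, geom_sum_mul, hs, sub_self]; rfl⟩
  have gen' : (∀ a, (τ - 1) ((∑ i ∈ Finset.range p, τ ^ i) a) = 0) ∧
        ∀ a, (∑ i ∈ Finset.range p, τ ^ i) ((τ - 1) a) = 0 :=
    ⟨fun a => by rw [← End.mul_apply, mul_geom_sum, hτ, sub_self]; rfl,
      fun a => by rw [← End.mul_apply, geom_sum_mul, hτ, sub_self]; rfl⟩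
  have hφi : ∀ (i : ℕ) a, φ ((σ ^ i) a) = (τ ^ i) (φ a) := fun i => by
    induction i with
    | zero => exact fun _ => rfl
    | succ i ih => exact fun a => by rw [pow_succ, pow_succ, End.mul_apply, ih, hφ]; rfl
  have stab : ∀ (W : AddSubgroup A), (∀ a ∈ W, σ a ∈ W) → ∀ (g : ℤ[X]), ∀ a ∈ W,
      aeval σ g a ∈ W := fun W hW g a ha =>
    aeval_apply_smul_mem_of_le_comap (q := W.toIntSubmodule) ha g σ hW
  have hU : ∀ a ∈ V ⊓ φ.ker, σ a ∈ V ⊓ φ.ker := fun a ha =>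
    ⟨hV a ha.1, (hφ a).trans (by rw [ha.2, map_zero])⟩
  have sD : ∀ (W : AddSubgroup A), (∀ a ∈ W, σ a ∈ W) → ∀ a ∈ W, (σ - 1) a ∈ W := fun W hW a ha =>
    sub_mem (hW a ha) ha
  have sN : ∀ (W : AddSubgroup A), (∀ a ∈ W, σ a ∈ W) → ∀ a ∈ W,
      (∑ i ∈ Finset.range p, σ ^ i) a ∈ W := fun W hW a ha => by
    simpa using stab W hW (∑ i ∈ Finset.range p, X ^ i) a ha
  refine rank_le (σ - 1).toAddMonoidHom (∑ i ∈ Finset.range p, σ ^ i).toAddMonoidHom _ hp.one_lt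
    (gen σ hσ).1 (gen σ hσ).2 (sD _ hU) (sN _ hU) (fun a ha => ?_) (fun a ha => ?_)
    (hexagon _ _ (τ - 1).toAddMonoidHom (∑ i ∈ Finset.range p, τ ^ i).toAddMonoidHom φ V
      (fun a => by simp [hφ]) (fun a => by simp [hφi]) (gen σ hσ).1 (gen σ hσ).2 gen'.1 gen'.2
      (sD _ hV) (sN _ hV) (fun a ha h => h1 a ha (by simpa using h)) fun x hx => ?_)
  · have ha : σ a = a := sub_eq_zero.mp ha
    have : ∀ i : ℕ, (σ ^ i) a = a := fun i => by
      induction i with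
      | zero => rfl
      | succ i ih => rw [pow_succ, End.mul_apply, ha, ih]
    simp [this]
  · obtain ⟨g, hg⟩ := exists_geom hp
    refine ⟨aeval σ g a, stab (_ ⊓ _) (fun b hb => ⟨hU b hb.1, ?_⟩) g a ha, ?_⟩
    · have h2 := (gen σ hσ).2 b
      rw [LinearMap.sub_apply, map_sub, show (∑ i ∈ Finset.range p, σ ^ i) ((1 : End ℤ A) b) = 0
        from hb.2, sub_zero] at h2
      exact h2
    · have h2 := congrArg (fun q => aeval σ q a) hg
      have h3 : (∑ i ∈ Finset.range p, σ ^ i) a = 0 := ha.2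
      simp only [map_pow, map_sub, aeval_X, map_one, map_add, map_sum, map_mul, map_natCast,
        LinearMap.add_apply, h3, zero_add, End.mul_apply, End.natCast_apply, End.pow_apply] at h2
      exact h2
  · obtain ⟨y, v, hv, h2, h3⟩ := hS x (sub_eq_zero.mp hx)
    exact ⟨y, v, hv, sub_eq_zero.mpr h2, by simpa using h3⟩

end

end Pool.Agent.Lib.MP_4e64b4_nt
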