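import Pool.Agent.Lib.MP_4e64b4_nt.Lam
import Pool.Agent.Lib.MP_4e64b4_nt.Herbrand

set_option autoImplicit false

open NumberField IsDedekindDomain WithZero Module

namespace Pool.Agent.Lib.MP_4e64b4_nt
open helper22.Val

lemma sum_range_pow {G A : Type*} [Group G] [Fintype G] [AddCommMonoid A] {σ : G}
    (hσ : ∀ τ, τ ∈ Submonoid.powers σ) (f : G → A) :
    ∑ i ∈ Finset.range (Nat.card G), f (σ ^ i) = ∑ g, f g := by
  classical
  rw [← IsCyclic.image_range_card fun τ => mem_powers_iff_mem_zpowers.mp (hσ τ),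
    Finset.sum_image]
  rw [← orderOf_eq_card_of_forall_mem_powers hσ, Finset.coe_range]
  exact pow_injOn_Iio_orderOf

lemma fix_of_powers {G X : Type*} [Group G] [MulAction G X] {σ τ : G}
    (h : τ ∈ Submonoid.powers σ) {x : X} (hx : σ • x = x) : τ • x = x :=
  (Submonoid.powers_le (P := MulAction.stabilizerSubmonoid G x)).mpr hx h

lemma exists_norm {G X : Type*} [Group G] [Fintype G] [MulAction G X] {p : ℕ} (hp : p.Prime)
    (hG : Nat.card G = p) (z : X →₀ ℤ) (hz : ∀ (g : G) w, z (g • w) = z w)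
    (h : ∀ w, (∀ g : G, g • w = w) → (p : ℤ) ∣ z w) : ∃ y : X →₀ ℤ, ∀ w, z w = ∑ g : G, y (g⁻¹ • w) := by
  classical
  have : Fact p.Prime := ⟨hp⟩
  have : Fact (Nat.card G).Prime := ⟨hG ▸ hp⟩
  let r : X → X := fun w => (Quotient.mk (MulAction.orbitRel G X) w).out
  refine ⟨Finsupp.onFinset z.support
    (fun w => if ∀ g : G, g • w = w then z w / p else if w = r w then z w else 0) fun w hw => ?_,
    fun w => ?_⟩
  · rw [Finsupp.mem_support_iff]
    intro h0
    simp [h0] at hw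
  simp only [Finsupp.onFinset_apply]
  by_cases hw : ∀ g : G, g • w = w
  · simp only [hw, implies_true, if_true, Finset.sum_const, Finset.card_univ, nsmul_eq_mul]
    rw [← Nat.card_eq_fintype_card, hG, Int.mul_ediv_cancel' (h w hw)]
  · have h1 : ∀ g : G, ¬ ∀ g' : G, g' • g⁻¹ • w = g⁻¹ • w := fun g h => hw fun g' => by
      have h2 := h g
      rw [smul_inv_smul] at h2
      rw [h2, h]
    have h2 : ∀ g : G, r (g • w) = r w := fun g =>
      congrArg Quotient.out (Quotient.sound ⟨g, rfl⟩)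
    obtain ⟨g, hg⟩ : r w ∈ MulAction.orbit G w := Quotient.mk_out (s := MulAction.orbitRel G X) w
    have h3 : MulAction.stabilizer G w = ⊥ :=
      (MulAction.stabilizer G w).eq_bot_or_eq_top_of_prime_card.resolve_right fun h =>
        hw fun g => (h.ge (Subgroup.mem_top g) :)
    simp only [h1, if_false, h2, hz]
    rw [Finset.sum_eq_single g⁻¹ (fun g' _ hne => if_neg fun e => hne ?_) (by simp),
      if_pos (by rw [inv_inv]; exact hg)]
    have h4 : g' * g ∈ MulAction.stabilizer G w := by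
      rw [MulAction.mem_stabilizer_iff, mul_smul, show g • w = r w from hg, ← e, smul_inv_smul]
    exact eq_inv_of_mul_eq_one_left (h3.le h4)

lemma finrank_of_le_range {A B : Type*} [AddCommGroup A] [AddCommGroup B] [Module.Finite ℤ B]
    (ι : B →+ A) (hι : Function.Injective ι) (U : AddSubgroup A) (hU : U ≤ ι.range) :
    Module.Finite ℤ U ∧ finrank ℤ U ≤ finrank ℤ B ∧
      (U.relIndex ι.range ≠ 0 → finrank ℤ U = finrank ℤ B) := by
  have e : U.comap ι ≃ₗ[ℤ] U := (((U.comap ι).equivMapOfInjective ι hι).trans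
    (AddEquiv.addSubgroupCongr (AddSubgroup.map_comap_eq_self hU))).toIntLinearEquiv
  have : Module.Finite ℤ (U.comap ι) := inferInstanceAs (Module.Finite ℤ (U.comap ι).toIntSubmodule)
  refine ⟨Module.Finite.equiv e, e.finrank_eq ▸ (U.comap ι).toIntSubmodule.finrank_le, fun h => ?_⟩
  rw [← AddSubgroup.index_comap] at h
  have h1 := (U.comap ι).toIntSubmodule.finrank_quotient_add_finrank
  have : Finite (B ⧸ (U.comap ι).toIntSubmodule) :=
    (AddSubgroup.fintypeOfIndexNeZero h).finite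
  rw [finrank_eq_zero_iff_isTorsion.mpr (by
    rw [← isAddTorsion_iff_isTorsion_int]; exact isAddTorsion_of_finite), zero_add] at h1
  rw [← e.finrank_eq, ← h1]; rfl

lemma exists_unit {L : Type*} [Field L] [NumberField L] {x : L}
    (h : ∀ w : HeightOneSpectrum (𝓞 L), w.valuation L x = 1) :
    ∃ u : (𝓞 L)ˣ, algebraMap (𝓞 L) L u = x := by
  obtain ⟨w, -⟩ := exists_over L Nat.prime_two
  have h0 : x ≠ 0 := by rintro rfl; simpa using h w
  obtain ⟨a, ha⟩ := HeightOneSpectrum.mem_integers_of_valuation_le_one L x fun w => (h w).le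
  obtain ⟨b, hb⟩ := HeightOneSpectrum.mem_integers_of_valuation_le_one L x⁻¹ fun w => by
    rw [map_inv₀, h w, inv_one]
  refine ⟨Units.mkOfMulEqOne a b (IsFractionRing.injective (𝓞 L) L ?_), ha⟩
  rw [map_mul, ha, hb, mul_inv_cancel₀ h0, map_one]

lemma val_unit {L : Type*} [Field L] [NumberField L] (u : (𝓞 L)ˣ) (w : HeightOneSpectrum (𝓞 L)) :
    w.valuation L (algebraMap (𝓞 L) L u) = 1 := by
  rw [HeightOneSpectrum.valuation_of_algebraMap, HeightOneSpectrum.intValuation_eq_one_iff]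
  exact fun h => w.isPrime.ne_top (Ideal.eq_top_of_isUnit_mem _ h u.isUnit)

lemma eq_one_of_log {L : Type*} [Field L] [NumberField L] {x : L} (hx : x ≠ 0)
    {w : HeightOneSpectrum (𝓞 L)} (h : log (w.valuation L x) = 0) : w.valuation L x = 1 := by
  rw [← exp_log (val_ne_zero hx), h, exp_zero]

variable {E M : Type*} [Field E] [NumberField E] [Field M] [NumberField M] [Algebra E M]
  [IsGalois E M] {p : ℕ}

open Classical in
/-- the first inequality for a cyclic extension of odd prime degree -/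
theorem first_inequality (hp : p.Prime) (hodd : p ≠ 2) (hd : finrank E M = p) : ∃ k,
    ¬ ∀ w : HeightOneSpectrum (𝓞 M), (p : 𝓞 M) ∉ w.asIdeal → (∀ σ : M ≃ₐ[E] M, σ • w = w) →
      ∃ x : E, PP p (k + 1) (x - 1) ∧ ∀ w' : HeightOneSpectrum (𝓞 M), (p : 𝓞 M) ∉ w'.asIdeal →
        (∀ σ : M ≃ₐ[E] M, σ • w' = w') →
          (p : ℤ) ∣ log (w'.valuation M (algebraMap E M x)) - if w' = w then 1 else 0 := by
  obtain ⟨k, V, hV1, hV2, hV3, hV4⟩ := exists_V E M hp
  refine ⟨k, fun H => ?_⟩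
  have : Fact p.Prime := ⟨hp⟩
  have hG : Nat.card (M ≃ₐ[E] M) = p := (IsGalois.card_aut_eq_finrank E M).trans hd
  have := isCyclic_of_prime_card hG
  obtain ⟨σ, hσ⟩ := IsCyclic.exists_monoid_generator (α := M ≃ₐ[E] M)
  let P : SubMulAction (M ≃ₐ[E] M) (HeightOneSpectrum (𝓞 M)) :=
    ⟨{w | (p : 𝓞 M) ∉ w.asIdeal}, fun g w hw h => hw ((mem_act g w p).mp h)⟩
  let φ : Additive Mˣ →+ (P →₀ ℤ) := AddMonoidHom.mk' (fun x => Finsupp.ofSupportFinite
    (fun w => log (w.1.valuation M (x.toMul : Mˣ))) (((finite_val_ne_one x.toMul.ne_zero).preimage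
      Subtype.val_injective.injOn).subset fun w hw h => hw (by simp only [h, log_one]))) fun x y => by
        ext w
        simp only [Finsupp.ofSupportFinite_coe, Finsupp.add_apply, toMul_add, Units.val_mul, map_mul]
        exact log_mul (val_ne_zero x.toMul.ne_zero) (val_ne_zero y.toMul.ne_zero)
  have hφ : ∀ x w, φ x w = log (w.1.valuation M (x.toMul : Mˣ)) := fun _ _ => rfl
  clear_value φ
  let ρ := Representation.ofMulDistribMulAction (M ≃ₐ[E] M) Mˣ
  have hρ : ∀ g x, ((ρ g x).toMul : Mˣ) = g ((x.toMul : Mˣ) : M) := fun _ _ => rfl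
  let := Finsupp.comapDistribMulAction (G := M ≃ₐ[E] M) (α := P) (M := ℤ)
  let ρ' := DistribMulAction.toModuleEnd (S := M ≃ₐ[E] M) ℤ (P →₀ ℤ)
  have hρ' : ∀ g y w, ρ' g y w = y (g⁻¹ • w) := fun g y w => Finsupp.comapSMul_apply g y w
  have hφρ : ∀ g x, φ (ρ g x) = ρ' g (φ x) := fun g x => by
    ext w
    rw [hρ', hφ, hφ, hρ]
    exact congrArg log (val_act' g w.1 _)
  have hR := relIndex_Ru hp V hV1
  rw [← Subgroup.relIndex_toAddSubgroup] at hR
  have : (V.toAddSubgroup.map φ).FiniteIndex := by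
    obtain ⟨cl, hcl⟩ := exists_cl M
    have h1 : ((Ru M p).toAddSubgroup.map φ).FiniteIndex := by
      refine AddSubgroup.finiteIndex_of_le (H := (cl.comp
        (Finsupp.mapDomain.addMonoidHom (Subtype.val : P → _))).ker) fun c hc => ?_
      obtain ⟨x, hx, h⟩ := hcl _ hc
      refine ⟨Additive.ofMul (Units.mk0 x hx), fun w hw => eq_one_of_log hx ((h w).trans
        (Finsupp.mapDomain_of_notMem_range _ _ ?_)), Finsupp.ext fun w => (hφ _ w).trans
          ((h w.1).trans (Finsupp.mapDomain_apply Subtype.val_injective _ _))⟩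
      rintro ⟨w', rfl⟩
      exact w'.2 hw
    have hle : V ≤ Ru M p := fun x hx => (hV2 x hx).val_eq_one
    refine ⟨?_⟩
    rw [← AddSubgroup.relIndex_mul_index (AddSubgroup.map_mono (f := φ)
      (Subgroup.toAddSubgroup.monotone hle))]
    exact mul_ne_zero (ne_zero_of_dvd_ne_zero hR (relIndex_map_dvd φ _ _)) h1.1
  have hU : ∀ x ∈ V.toAddSubgroup ⊓ φ.ker, ∀ w : HeightOneSpectrum (𝓞 M),
      w.valuation M (x.toMul : Mˣ) = 1 := fun x hx w => by
    by_cases hw : (p : 𝓞 M) ∈ w.asIdeal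
    · exact (hV2 _ hx.1).val_eq_one w hw
    · exact eq_one_of_log x.toMul.ne_zero ((hφ x ⟨w, hw⟩).symm.trans (DFunLike.congr_fun hx.2 _))
  let ι := (Units.map (algebraMap (𝓞 M) M : 𝓞 M →* M)).toAdditive
  let ι' := (Units.map ((algebraMap E M).comp (algebraMap (𝓞 E) E) : 𝓞 E →* M)).toAdditive
  have hι : ∀ u, ((ι u).toMul : Mˣ) = algebraMap (𝓞 M) M (u.toMul : (𝓞 M)ˣ) := fun _ => rfl
  obtain ⟨f1, -, f2⟩ := finrank_of_le_range ι (Units.map_injective (IsFractionRing.injective _ _))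
    (V.toAddSubgroup ⊓ φ.ker) fun x hx => by
      obtain ⟨u, hu⟩ := exists_unit (hU x hx)
      exact ⟨Additive.ofMul u, Units.ext hu⟩
  obtain ⟨-, f3, -⟩ := finrank_of_le_range ι' (Units.map_injective
    ((algebraMap E M).injective.comp (IsFractionRing.injective _ _)))
    (V.toAddSubgroup ⊓ φ.ker ⊓ (ρ σ - 1).toAddMonoidHom.ker) fun x hx => by
      have h1 : σ ((x.toMul : Mˣ) : M) = (x.toMul : Mˣ) := by
        rw [← hρ]; exact congrArg (fun y => ((Additive.toMul y : Mˣ) : M)) (sub_eq_zero.mp hx.2)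
      obtain ⟨e, he⟩ := (IsGalois.mem_range_algebraMap_iff_fixed (F := E) _).mpr fun g =>
        fix_of_powers (hσ g) h1
      obtain ⟨u, hu⟩ := exists_unit (x := e) fun v => by
        obtain ⟨w, n, hn, h⟩ := exists_above (algebraMap E M) v
        have h2 := hU x hx.1 w
        rw [← he, h] at h2
        exact (pow_eq_one_iff_of_nonneg zero_le hn.ne').mp h2
      exact ⟨Additive.ofMul u, Units.ext ((congrArg (algebraMap E M) hu).trans he)⟩
  have f4 := f2 (by
    have h1 : ι.range ≤ (Ru M p).toAddSubgroup ⊓ φ.ker := by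
      rintro _ ⟨u, rfl⟩
      have h : ∀ w : HeightOneSpectrum (𝓞 M), w.valuation M ((ι u).toMul : Mˣ) = 1 :=
        fun w => by rw [hι, val_unit]
      refine ⟨fun w _ => h w, Finsupp.ext fun w => ?_⟩
      rw [hφ, h, log_one, Finsupp.zero_apply]
    rw [← AddSubgroup.inf_relIndex_right, inf_assoc, inf_eq_right.mpr (h1.trans inf_le_right),
      AddSubgroup.inf_relIndex_right]
    exact fun h => hR (AddSubgroup.relIndex_eq_zero_of_le_right (h1.trans inf_le_left) h))
  have : IsAddTorsionFree ↥(V.toAddSubgroup ⊓ φ.ker) :=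
    IsAddTorsionFree.of_not_isOfFinAddOrder fun x hx h => by
      obtain ⟨n, hn, h⟩ := h.exists_nsmul_eq_zero
      have h1 : (x.1.toMul : Mˣ) ^ n = 1 := congrArg (fun y => Additive.toMul (Subtype.val y)) h
      have h2 := PP.eq_one hp hn.ne' _ (hV2 _ x.2.1) (by
        rw [← Units.val_pow_eq_pow_val]; exact congrArg Units.val h1)
      exact hx (Subtype.ext (Additive.toMul.injective (Units.ext h2)))
  have hσp : σ ^ p = 1 := hG ▸ pow_card_eq_one'
  have H1 : ∀ a ∈ V.toAddSubgroup, ∑ i ∈ Finset.range p, (ρ σ ^ i) a = 0 →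
      ∃ b ∈ V.toAddSubgroup, a = ρ σ b - b := fun a ha h => by
    obtain ⟨b, hb, e⟩ := hV4 σ hσ _ ha (by
      have := congrArg (fun y => ((Additive.toMul y : Mˣ) : M)) h
      simp only [← map_pow, toMul_sum, Units.coe_prod, hρ] at this
      exact this)
    exact ⟨Additive.ofMul b, hb, eq_sub_of_add_eq (Units.ext e)⟩
  have HS : ∀ x, ρ' σ x = x → ∃ y, ∃ v ∈ V.toAddSubgroup, ρ σ v = v ∧
      x = ∑ i ∈ Finset.range p, (ρ' σ ^ i) y + φ v := fun x hx => by
    have hx' : ∀ g, ρ' g x = x := fun g => fix_of_powers (hσ g) hx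
    choose! y hy hy' using H
    obtain ⟨S, hS0⟩ : ∃ S : Finset P, S = x.support.filter fun w => ∀ g : M ≃ₐ[E] M, g • w = w :=
      ⟨_, rfl⟩
    have hS : ∀ w ∈ S, ∀ g : M ≃ₐ[E] M, g • w.1 = w.1 := fun w hw g => by
      rw [hS0] at hw
      exact congrArg Subtype.val ((Finset.mem_filter.mp hw).2 g)
    have hu : ∀ w : S, ∃ u : Additive Mˣ, (u.toMul : Mˣ) = algebraMap E M (y w.1) := fun w =>
      ⟨Additive.ofMul (Units.mk0 (algebraMap E M (y w.1))
        ((map_ne_zero _).mpr ((hy _ w.1.2 (hS _ w.2)).ne_zero hp))), rfl⟩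
    choose u hu using hu
    have hv : ∀ g, ρ g (∑ w : S, x w • u w) = ∑ w : S, x w • u w := fun g => by
      simp only [map_sum, map_zsmul]
      refine Finset.sum_congr rfl fun w _ => congrArg _ (Additive.toMul.injective (Units.ext ?_))
      rw [hρ, hu, g.commutes]
    obtain ⟨z, hz⟩ := exists_norm hp hG (x - φ (∑ w : S, x w • u w)) (fun g w => by
      rw [← inv_inv g, ← hρ', map_sub, ← hφρ, hx', hv]) fun w hw => by
        have h1 : (p : ℤ) ∣ ∑ w' : S, x w' * (φ (u w') w - if w = w' then 1 else 0) :=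
          Finset.dvd_sum fun w' _ => Dvd.dvd.mul_left (by
            simpa only [Subtype.ext_iff, hφ, hu] using hy' _ w'.1.2 (hS _ w'.2) w.1 w.2
              fun g => congrArg Subtype.val (hw g)) _
        rw [← dvd_neg]
        refine h1.trans (dvd_of_eq (Eq.symm ?_))
        simp only [map_sum, map_zsmul, Finsupp.coe_sub, Pi.sub_apply, Finsupp.finsetSum_apply,
          Finsupp.smul_apply, smul_eq_mul, mul_sub, Finset.sum_sub_distrib, neg_sub, sub_right_inj]
        rw [Finset.sum_coe_sort S fun w' => x w' * if w = w' then 1 else 0]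
        by_cases h0 : x w = 0 <;> simp [hS0, h0, hw]
    refine ⟨z, _, AddSubgroup.sum_mem _ fun w _ => AddSubgroup.zsmul_mem _ (hV1 _ ?_) _, hv σ, ?_⟩
    · have := (PP_map (algebraMap E M)).mpr ((hy _ w.1.2 (hS _ w.2)).mono (Nat.le_succ k))
      rwa [map_sub, map_one, ← hu] at this
    · rw [← sub_eq_iff_eq_add]
      ext w
      simp only [← map_pow]
      rw [hz, ← hG, sum_range_pow hσ fun g => ρ' g z, Finsupp.finsetSum_apply]
      simp only [hρ']
  have key := herbrand hp (ρ σ) (ρ' σ) (by rw [← map_pow, hσp, map_one])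
    (by rw [← map_pow, hσp, map_one]) φ (hφρ σ) V.toAddSubgroup (fun a ha => hV3 σ _ ha) H1 HS
  have := IsUnramifiedAtInfinitePlaces_of_odd_finrank (k := E) (K := M) (hd ▸ hp.odd_of_ne_two hodd)
  have h1 := IsUnramifiedAtInfinitePlaces.card_infinitePlace E M
  have h2 := key.trans (Nat.mul_le_mul_left p f3)
  rw [f4, Units.finrank_eq, Units.finrank_eq, Units.rank, Units.rank, h1, hd] at h2
  obtain ⟨s, hs⟩ := Nat.exists_eq_succ_of_ne_zero (Fintype.card_ne_zero (α := InfinitePlace E))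
  rw [hs, Nat.succ_sub_one, Nat.succ_mul, mul_comm] at h2
  have := hp.two_le
  omega

end Pool.Agent.Lib.MP_4e64b4_nt
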