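import Pool.Agent.Lib.MP_4e64b4_nt.Semi

set_option autoImplicit false

open NumberField IsDedekindDomain WithZero

namespace Pool.Agent.Lib.MP_4e64b4_nt
open helper22.Val

lemma PP.pow_sub_one {L : Type*} [Field L] [NumberField L] {p k : ℕ} {x : L}
    (hx : PP p (k + 1) (x - 1)) (n : ℕ) : PP p (k + 1) (x ^ n - 1) := by
  rw [← geom_sum_mul]
  exact (PP.sum fun i _ => (PP.of_val hx.val_eq_one).pow0 i).mul0' hx

lemma PP.eq_one {L : Type*} [Field L] [NumberField L] {p : ℕ} (hp : p.Prime) {n : ℕ} (hn : n ≠ 0) :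
    ∀ x : L, PP p 2 (x - 1) → x ^ n = 1 → x = 1 := by
  induction n using induction_on_primes with
  | zero => exact absurd rfl hn
  | one => exact fun x _ h => by simpa using h
  | prime_mul l m hl ih =>
    intro x hx h
    refine ih (right_ne_zero_of_mul hn) x hx (by_contra fun hne => ?_)
    rw [mul_comm, pow_mul] at h
    have h1 : ∑ i ∈ Finset.range l, (x ^ m) ^ i = 0 := by
      have := geom_sum_mul (x ^ m) l
      rw [h, sub_self] at this
      exact (mul_eq_zero.mp this).resolve_right (sub_ne_zero.mpr hne)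
    have h2 : PP p 2 (l : L) := by
      have := (PP.sum (s := Finset.range l) fun i _ => (hx.pow_sub_one m).pow_sub_one i).neg
      simpa [h1] using this
    obtain ⟨w, hw⟩ := exists_over L hp
    have h3 := (val_natCast_lt_iff w p).mpr hw
    have h4 := zero_lt_iff.mpr (val_ne_zero (w := w) (Nat.cast_ne_zero.mpr hp.ne_zero))
    refine (h2 w hw).not_gt (lt_of_lt_of_le (by rw [sq]; exact mul_lt_of_lt_one_right h4 h3) ?_)
    rcases eq_or_ne p l with rfl | h
    · exact le_rfl
    · rw [val_nat_eq_one hw ((Nat.coprime_primes hp hl).mpr h)]; exact h3.le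

variable {E M : Type*} [Field E] [NumberField E] [Field M] [NumberField M] [Algebra E M]

variable (E) in
/-- the lattice dual to a normal basis -/
def LL (p k : ℕ) (α x : M) : Prop := ∀ τ : M ≃ₐ[E] M, PP p k (Algebra.trace E M (x * τ α))

variable {p k : ℕ} {α x y : M}

omit [NumberField M] in
lemma LL.add (hx : LL E p k α x) (hy : LL E p k α y) : LL E p k α (x + y) := fun τ => by
  rw [add_mul, map_add]; exact (hx τ).add (hy τ)

omit [NumberField M] in
lemma LL.sub (hx : LL E p k α x) (hy : LL E p k α y) : LL E p k α (x - y) := fun τ => by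
  rw [sub_mul, map_sub]; exact (hx τ).sub (hy τ)

omit [NumberField M] in
lemma LL.sum {ι : Type*} {s : Finset ι} {f : ι → M} (h : ∀ i ∈ s, LL E p k α (f i)) :
    LL E p k α (∑ i ∈ s, f i) := fun τ => by
  rw [Finset.sum_mul, map_sum]; exact PP.sum fun i hi => h i hi τ

omit [NumberField E] [NumberField M] in
lemma trace_conj (σ τ : M ≃ₐ[E] M) (x α : M) :
    Algebra.trace E M (σ x * (σ * τ) α) = Algebra.trace E M (x * τ α) := by
  rw [AlgEquiv.mul_apply, ← map_mul, Algebra.trace_eq_of_algEquiv]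

omit [NumberField M] in
lemma LL.conj (hx : LL E p k α x) (σ : M ≃ₐ[E] M) : LL E p k α (σ x) := fun τ => by
  rw [← mul_inv_cancel_left σ τ, trace_conj]; exact hx _

omit [NumberField E] [NumberField M] in
lemma trace_mul (e : E) (x : M) :
    Algebra.trace E M (algebraMap E M e * x) = e * Algebra.trace E M x := by
  rw [← Algebra.smul_def, map_smul, smul_eq_mul]

omit [NumberField M] in
lemma LL.mulE (hx : LL E p k α x) {e : E} (he : PP p 0 e) : LL E p k α (algebraMap E M e * x) :=
  fun τ => by rw [mul_assoc, trace_mul]; exact he.mul0' (hx τ)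

omit [NumberField M] in
lemma LL_mul (hp : p ≠ 0) : LL E p (k + 1) α ((p : M) * x) ↔ LL E p k α x :=
  forall_congr' fun τ => by rw [mul_assoc, ← map_natCast (algebraMap E M), trace_mul, PP_mul hp]

variable [IsGalois E M]

lemma PP.toLL (hα : PP p 0 α) (hx : PP p k x) : LL E p k α x :=
  fun τ => (hx.mul0 (hα.smul τ)).trace

variable (E M) in
lemma exists_alpha (hp : p ≠ 0) : ∃ (α : M) (j : ℕ), PP p 0 α ∧ Algebra.trace E M α ≠ 0 ∧
    ∀ k x, LL E p (j + k) α x → PP p k x := by
  classical
  let b := IsGalois.normalBasis E M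
  obtain ⟨i, hi⟩ := exists_PP p (b 1)
  choose n hn using fun τ => exists_PP p (b.traceDual τ)
  obtain ⟨j, hj⟩ := (Set.finite_range n).bddAbove
  have e : ∀ x, Algebra.trace E M ((p : M) ^ i * x) = p ^ i * Algebra.trace E M x := fun x => by
    rw [← trace_mul, map_pow, map_natCast]
  refine ⟨p ^ i * b 1, j + i, hi i le_rfl, ?_, fun k x hx => ?_⟩
  · rw [e]
    refine mul_ne_zero (pow_ne_zero _ (Nat.cast_ne_zero.mpr hp)) fun h => ?_
    have h1 := trace_eq_sum_automorphisms (K := E) (b 1)
    rw [h, map_zero] at h1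
    exact one_ne_zero (Fintype.linearIndependent_iff.mp b.linearIndependent (fun _ => 1)
      (by simpa only [one_smul, b, ← IsGalois.normalBasis_apply] using h1.symm) 1)
  · rw [← PP_pow_mul (l := j + i) hp, ← b.traceDual.sum_repr x, Finset.mul_sum]
    refine PP.sum fun τ _ => ?_
    have := ((PP_map (algebraMap E M)).mpr (hx τ)).mul0 (hn τ j (hj ⟨τ, rfl⟩))
    convert this using 1
    rw [map_mul τ, map_pow, map_natCast, mul_left_comm x, e, ← IsGalois.normalBasis_apply,
      Module.Basis.traceDual_repr_apply, Algebra.traceForm_apply, Algebra.smul_def,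
      map_mul (algebraMap E M), map_pow, map_natCast]
    ring

variable (E M) in
theorem exists_V (hp : p.Prime) : ∃ (k : ℕ) (V : Subgroup Mˣ),
    (∀ x : Mˣ, PP p k ((x : M) - 1) → x ∈ V) ∧ (∀ x ∈ V, PP p 2 ((x : M) - 1)) ∧
    (∀ (σ : M ≃ₐ[E] M) (x : Mˣ), x ∈ V → Units.map (σ : M →* M) x ∈ V) ∧
    ∀ σ : M ≃ₐ[E] M, (∀ τ, τ ∈ Submonoid.powers σ) → ∀ x ∈ V,
      ∏ i ∈ Finset.range p, (σ ^ i) (x : M) = 1 → ∃ b ∈ V, (x : M) * b = σ b := by
  obtain ⟨α, j, hα, h0, hj⟩ := exists_alpha E M hp.ne_zero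
  have a1 : ∀ {x : M}, LL E p (2 * j + 2) α x → PP p (j + 2) x := fun h =>
    hj _ _ (by convert h using 1; ring)
  have a2 : ∀ {x : M}, LL E p (2 * j + 1) α x → PP p (j + 1) x := fun h =>
    hj _ _ (by convert h using 1; ring)
  let V : Subgroup Mˣ :=
    { carrier := {x | LL E p (2 * j + 2) α ((x : M) - 1)}
      one_mem' := PP.toLL hα (by simpa using PP.zero)
      mul_mem' := fun {x y} hx hy => by
        have := (hx.add hy).add (PP.toLL hα (((a1 hx).mul (a1 hy)).mono (by omega)))
        rw [Set.mem_ofPred_eq]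
        convert this using 1
        push_cast; ring
      inv_mem' := fun {x} hx => by
        have := (PP.toLL (E := E) hα ((((a1 hx).mul (a1 hx)).mono (l := 2 * j + 2)
          (by omega)).mul0 (PP.inv_of_val (a1 hx).val_eq_one))).sub hx
        have h := x.ne_zero
        rw [Set.mem_ofPred_eq]
        convert this using 1
        push_cast; field_simp; ring }
  have hσV : ∀ (σ : M ≃ₐ[E] M) (x : Mˣ), x ∈ V → Units.map (σ : M →* M) x ∈ V := fun σ x hx => by
    have := LL.conj hx σ
    rwa [map_sub, map_one] at this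
  refine ⟨2 * j + 2, V, fun x hx => PP.toLL hα hx, fun x hx => (a1 hx).mono (by omega), hσV,
    fun σ hσ v hv hN => ?_⟩
  let c : ℕ → M := fun n => ∏ i ∈ Finset.range n, (σ ^ i) (v : M)
  have hc : ∀ n, c (n + 1) = v * σ (c n) := fun n => by
    simp only [c, Finset.prod_range_succ', map_prod, pow_succ', AlgEquiv.mul_apply, pow_zero,
      AlgEquiv.one_apply, mul_comm]
  have hcV : ∀ n, LL E p (2 * j + 2) α (c n - 1) := fun n => by
    have : LL E p (2 * j + 2) α (_ - 1) :=
      V.prod_mem (t := Finset.range n) fun i _ => hσV (σ ^ i) v hv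
    simpa [c] using this
  obtain ⟨β, hβ⟩ : ∃ β : M, β = (∑ i ∈ Finset.range p, c i) / p := ⟨_, rfl⟩
  have hp0 : (p : M) ≠ 0 := Nat.cast_ne_zero.mpr hp.ne_zero
  have e1 : v * σ β = β := by
    have h1 := (Finset.sum_range_succ' c p).symm.trans (Finset.sum_range_succ c p)
    rw [show c p = 1 from hN, show c 0 = 1 from Finset.prod_range_zero _, add_left_inj] at h1
    rw [hβ, map_div₀, map_natCast, map_sum, ← mul_div_assoc, Finset.mul_sum, ← h1]
    simp only [hc]
  have e2 : LL E p (2 * j + 1) α (β - 1) := by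
    rw [← LL_mul hp.ne_zero]
    convert LL.sum (s := Finset.range p) fun i _ => hcV i using 1
    rw [hβ, Finset.sum_sub_distrib]
    simp [mul_sub, mul_div_cancel₀ _ hp0]
  have e3 : LL E p (2 * j + 2) α (β - 1 - σ (β - 1)) := by
    have := LL.add hv (PP.toLL hα (((a1 hv).mul (a2 (e2.conj σ))).mono (by omega)))
    convert this using 1
    rw [map_sub, map_one]
    linear_combination -e1
  have e4 : ∀ τ : M ≃ₐ[E] M, PP p (2 * j + 2)
      (Algebra.trace E M ((β - 1) * τ α) - Algebra.trace E M ((β - 1) * α)) := fun τ => by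
    obtain ⟨n, rfl⟩ := hσ τ
    induction n with
    | zero => simpa using PP.zero
    | succ n ih =>
      have := (e3 (σ * σ ^ n)).add ih
      rw [sub_mul, map_sub, trace_conj] at this
      simpa [pow_succ'] using this
  obtain ⟨e, he⟩ : ∃ e : E, e = Algebra.trace E M ((β - 1) * α) / Algebra.trace E M α := ⟨_, rfl⟩
  have e5 : ∀ τ : M ≃ₐ[E] M,
      Algebra.trace E M (algebraMap E M e * τ α) = Algebra.trace E M ((β - 1) * α) := fun τ => by
    rw [trace_mul, Algebra.trace_eq_of_algEquiv, he, div_mul_cancel₀ _ h0]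
  have e6 : PP p (j + 1) (1 + e - 1) := by
    rw [add_sub_cancel_left, ← PP_map (algebraMap E M)]
    exact a2 fun τ => by rw [e5]; exact e2 1
  have e7 : LL E p (2 * j + 2) α (β - 1 - algebraMap E M e) := fun τ => by
    rw [sub_mul, map_sub, e5]; exact e4 τ
  have e8 := e7.mulE (PP.inv_of_val e6.val_eq_one)
  have n1 : algebraMap E M (1 + e) ≠ 0 := (map_ne_zero _).mpr (e6.ne_zero hp)
  have n2 : β ≠ 0 := (a2 e2).ne_zero hp
  refine ⟨(Units.mk0 _ (div_ne_zero n2 n1))⁻¹, V.inv_mem ?_, ?_⟩
  · change LL E p (2 * j + 2) α (β / algebraMap E M (1 + e) - 1)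
    convert e8 using 1
    rw [map_inv₀]
    field_simp
    rw [map_add, map_one]; ring
  · have n3 : σ β ≠ 0 := (map_ne_zero _).mpr n2
    rw [Units.val_inv_eq_inv_val, Units.val_mk0, map_inv₀, map_div₀, AlgEquiv.commutes]
    field_simp
    exact e1

end Pool.Agent.Lib.MP_4e64b4_nt
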