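import Pool.Agent.Lib.MP_4e64b4_nt.Cyclic

set_option autoImplicit false

open NumberField IsDedekindDomain Module
open scoped Pointwise

namespace Pool.Agent.Lib.MP_4e64b4_nt

lemma mem_of_pow_card {C : Type*} [Group C] [Finite C] [IsCyclic C] (B : Subgroup C) {x : C}
    (h : x ^ Nat.card B = 1) : x ∈ B := by
  classical
  have := Fintype.ofFinite C
  have h1 : (B : Set C).toFinset = Finset.univ.filter fun a : C => a ^ Nat.card B = 1 :=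
    Finset.eq_of_subset_of_card_le (fun a ha => Finset.mem_filter.mpr ⟨Finset.mem_univ _,
      congrArg Subtype.val (pow_card_eq_one' (x := (⟨a, by simpa using ha⟩ : B)))⟩)
      ((IsCyclic.card_pow_eq_one_le Nat.card_pos).trans (by simp))
  exact Set.mem_toFinset.mp (h1.ge (Finset.mem_filter.mpr ⟨Finset.mem_univ _, h⟩))

lemma le_total_of_cyclic {C : Type*} [Group C] [Finite C] [IsCyclic C] {p : ℕ} [Fact p.Prime]
    (hC : IsPGroup p C) (A B : Subgroup C) : A ≤ B ∨ B ≤ A := by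
  have h : ∀ A B : Subgroup C, Nat.card A ∣ Nat.card B → A ≤ B := fun A B h a ha =>
    mem_of_pow_card B (orderOf_dvd_iff_pow_eq_one.mp ((A.orderOf_dvd_natCard ha).trans h))
  obtain ⟨a, ha⟩ := (hC.to_subgroup A).exists_card_eq
  obtain ⟨b, hb⟩ := (hC.to_subgroup B).exists_card_eq
  exact (le_total a b).imp (fun e => h _ _ (ha ▸ hb ▸ pow_dvd_pow p e))
    fun e => h _ _ (ha ▸ hb ▸ pow_dvd_pow p e)

variable {K Ω : Type*} [Field K] [Field Ω] [Algebra K Ω] [IsGalois K Ω]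

/-- inertia groups surject in towers -/
theorem exists_inertia_lift (N : IntermediateField K Ω) [Normal K N] (Q : Ideal (𝓞 N))
    [Q.IsMaximal] {σ : N ≃ₐ[K] N} (hσ : σ ∈ Q.inertia (N ≃ₐ[K] N)) :
    ∃ P : Ideal (𝓞 Ω), P.IsMaximal ∧ P.under (𝓞 N) = Q ∧ ∃ g ∈ P.inertia (Ω ≃ₐ[K] Ω),
      AlgEquiv.restrictNormalHom N g = σ := by
  obtain ⟨P, hP, hPQ⟩ := Ideal.exists_maximal_ideal_liesOver_of_isIntegral (S := 𝓞 Ω) Q
  refine ⟨P, hP, hPQ.1.symm, ?_⟩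
  let : TopologicalSpace (𝓞 Ω) := ⊥
  have : DiscreteTopology (𝓞 Ω) := ⟨rfl⟩
  have : ContinuousSMul (Ω ≃ₐ[N] Ω) (𝓞 Ω) := continuousSMul_iff_stabilizer_isOpen.mpr fun x => by
    convert stabilizer_isOpen_of_isIntegral (K := N) (x : Ω) using 2
    ext g
    exact RingOfIntegers.ext_iff
  have : SMulCommClass (Ω ≃ₐ[N] Ω) (𝓞 N) (𝓞 Ω) := ⟨fun g a x => by
    rw [Algebra.smul_def, Algebra.smul_def, smul_mul']
    exact congrArg (· * _) (RingOfIntegers.ext (g.commutes a))⟩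
  have : Algebra.IsInvariant (𝓞 N) (𝓞 Ω) (Ω ≃ₐ[N] Ω) := ⟨fun x hx => by
    obtain ⟨y, hy⟩ := (InfiniteGalois.mem_range_algebraMap_iff_fixed (k := N) (x : Ω)).mpr
      fun g => congrArg (algebraMap (𝓞 Ω) Ω) (hx g)
    refine ⟨⟨y, (isIntegral_algebraMap_iff (B := Ω) (algebraMap N Ω).injective).mp ?_⟩,
      RingOfIntegers.ext hy⟩
    rw [hy]; exact x.isIntegral_coe⟩
  have hact : ∀ (g : Ω ≃ₐ[K] Ω) (x : 𝓞 N), g • algebraMap (𝓞 N) (𝓞 Ω) x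
      = algebraMap (𝓞 N) (𝓞 Ω) (AlgEquiv.restrictNormalHom N g • x) := fun g x =>
    RingOfIntegers.ext (AlgEquiv.restrictNormal_commutes g N x).symm
  have hres : ∀ τ : Ω ≃ₐ[N] Ω, AlgEquiv.restrictNormalHom N (τ.restrictScalars K) = 1 := fun τ =>
    (IntermediateField.restrictNormalHom_ker N).ge fun x => τ.commutes x
  obtain ⟨g0, rfl⟩ := AlgEquiv.restrictNormalHom_surjective (F := K) (K₁ := N) Ω σ
  obtain ⟨τ, hτ⟩ := Algebra.IsInvariant.exists_smul_of_under_eq_of_profinite (A := 𝓞 N)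
    (G := Ω ≃ₐ[N] Ω) (g0 • P) P (by
      ext x
      rw [Ideal.mem_under, Ideal.mem_pointwise_smul_iff_inv_smul_mem, hact, ← Ideal.mem_under,
        ← hPQ.1, map_inv, ← Ideal.mem_pointwise_smul_iff_inv_smul_mem,
        Ideal.inertia_le_stabilizer Q hσ])
  obtain ⟨g, hg, hgP⟩ : ∃ g : Ω ≃ₐ[K] Ω, AlgEquiv.restrictNormalHom N g =
      AlgEquiv.restrictNormalHom N g0 ∧ g • P = P :=
    ⟨τ.restrictScalars K * g0, by rw [map_mul, hres, one_mul], by rw [mul_smul]; exact hτ.symm⟩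
  let e : (𝓞 Ω ⧸ P) ≃ₐ[𝓞 N ⧸ Q] (𝓞 Ω ⧸ P) := AlgEquiv.ofRingEquiv
    (f := Ideal.quotientEquiv P P (MulSemiringAction.toRingEquiv _ _ g) hgP.symm) fun x => by
      obtain ⟨x, rfl⟩ := Ideal.Quotient.mk_surjective x
      refine Ideal.Quotient.eq.mpr (?_ : g • algebraMap _ _ x - algebraMap _ _ x ∈ P)
      rw [hact, ← map_sub, ← Ideal.mem_under, ← hPQ.1, hg]
      exact hσ x
  obtain ⟨ρ, hρ⟩ := Ideal.Quotient.stabilizerHom_surjective_of_profinite (G := Ω ≃ₐ[N] Ω) Q P e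
  refine ⟨(ρ.1.restrictScalars K)⁻¹ * g, fun x => ?_, by rw [map_mul, map_inv, hres, hg]; simp⟩
  have h1 : g • x - ρ.1 • x ∈ P :=
    Ideal.Quotient.eq.mp (DFunLike.congr_fun hρ (Ideal.Quotient.mk P x)).symm
  have h2 := ρ.2.ge h1
  rw [Ideal.mem_pointwise_smul_iff_inv_smul_mem, smul_sub, inv_smul_smul] at h2
  exact h2

omit [IsGalois K Ω] in
lemma inertia_fix {p : ℕ} {P : Ideal (𝓞 Ω)} [P.IsPrime] (hP : (p : 𝓞 Ω) ∉ P)
    {g : Ω ≃ₐ[K] Ω} (hg : g ∈ P.inertia (Ω ≃ₐ[K] Ω)) {ζ : Ω} {k : ℕ} (hp : p ≠ 0)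
    (h : ζ ^ p ^ k = 1) : g ζ = ζ := by
  by_contra hne
  let a : 𝓞 Ω := ⟨ζ, IsIntegral.of_pow (pow_pos (Nat.pos_of_ne_zero hp) k) (h ▸ isIntegral_one)⟩
  have ha : a ^ p ^ k = 1 := RingOfIntegers.ext h
  have h1 := (Commute.all (g • a) a).geom_sum₂_mul (p ^ k)
  rw [← smul_pow', ha, smul_one, sub_self] at h1
  have h2 := congrArg (Ideal.Quotient.mk P) ((mul_eq_zero.mp h1).resolve_right fun e =>
    hne (congrArg (algebraMap _ Ω) (sub_eq_zero.mp e)))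
  simp only [map_sum, map_mul, map_pow, Ideal.Quotient.eq.mpr (hg a), map_zero] at h2
  rw [geom_sum₂_self, mul_eq_zero, Nat.cast_pow] at h2
  rcases h2 with h2 | h2
  · exact hP (Ideal.Quotient.eq_zero_iff_mem.mp (by simpa using eq_zero_of_pow_eq_zero h2))
  · have h3 := congrArg (Ideal.Quotient.mk P) ha
    rw [map_pow, eq_zero_of_pow_eq_zero h2, zero_pow (pow_ne_zero _ hp), map_one] at h3
    exact zero_ne_one h3

omit [IsGalois K Ω] in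
lemma comm_root (g h : Ω ≃ₐ[K] Ω) {ζ : Ω} {n : ℕ} (hn : n ≠ 0) (hζ : ζ ^ n = 1) :
    g (h ζ) = h (g ζ) := by
  have h1 := IsPrimitiveRoot.orderOf ζ
  have : NeZero (orderOf ζ) :=
    ⟨(isOfFinOrder_iff_pow_eq_one.mpr ⟨n, Nat.pos_of_ne_zero hn, hζ⟩).orderOf_pos.ne'⟩
  have h2 : ∀ g : Ω ≃ₐ[K] Ω, ∃ i, ζ ^ i = g ζ := fun g =>
    (h1.eq_pow_of_pow_eq_one (by rw [← map_pow, pow_orderOf_eq_one, map_one])).imp fun _ h => h.2
  obtain ⟨i, hi⟩ := h2 g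
  obtain ⟨j, hj⟩ := h2 h
  rw [← hi, ← hj, map_pow, map_pow, ← hi, ← hj, ← pow_mul, ← pow_mul, mul_comm]

end Pool.Agent.Lib.MP_4e64b4_nt
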