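import Pool.Agent.Lib.MP_4e64b4_nt.Count

set_option autoImplicit false

open NumberField Module Polynomial Finset Filter
open scoped IntermediateField

namespace Pool.Agent.Lib.MP_4e64b4_nt

lemma ev_sign (c c' u w : ℝ) (hu : 0 < u) (hw : w < 0) :
    ∀ᶠ t : ℕ in atTop, (c - t) * u - 1 ≤ 0 ∧ 0 ≤ (c' - t) * w - 1 := by
  filter_upwards [tendsto_natCast_atTop_atTop.eventually_ge_atTop c,
    tendsto_natCast_atTop_atTop.eventually_ge_atTop (c' - w⁻¹)] with t h1 h2
  have := mul_inv_cancel₀ hw.ne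
  constructor <;> nlinarith

lemma ev_roots (A : Finset ℤ) {δ : ℝ} (h0 : 0 < δ) (h1 : δ < 1) : ∀ᶠ t : ℕ in atTop, ∀ a ∈ A,
    ∃ r : ℝ, |a - r| ≤ δ ∧ aeval r (fP A t) = 0 := by
  classical
  refine (eventually_all_finset A).mpr fun a ha => ?_
  have e : ∀ (x : ℝ) (t : ℕ), aeval x (fP A t) = (x - t) * aeval x (gP A) - 1 := by simp [fP]
  have h : aeval (a - δ) (gP A) * aeval (a + δ) (gP A) < 0 := by
    simp only [gP, map_prod, map_sub, aeval_X, eq_intCast, map_intCast]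
    rw [← prod_mul_distrib, ← mul_prod_erase _ _ ha]
    refine mul_neg_of_neg_of_pos (by nlinarith) (prod_pos fun b hb => ?_)
    have : (1 : ℝ) ≤ (a - b) ^ 2 := by
      exact_mod_cast (one_le_sq_iff_one_le_abs _).mpr
        (Int.one_le_abs (sub_ne_zero.mpr (mem_erase.mp hb).1.symm))
    nlinarith
  have k : ∀ t : ℕ, 0 ∈ Set.uIcc (aeval (a - δ) (fP A t)) (aeval (a + δ) (fP A t)) →
      ∃ r : ℝ, |a - r| ≤ δ ∧ aeval r (fP A t) = 0 := fun t ht => by
    obtain ⟨r, hr, hr'⟩ := intermediate_value_uIcc (fP A t).continuous_aeval.continuousOn ht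
    rw [Set.uIcc_of_le (by linarith)] at hr
    exact ⟨r, abs_le.mpr ⟨by linarith [hr.2], by linarith [hr.1]⟩, hr'⟩
  rcases mul_neg_iff.mp h with h | h
  · filter_upwards [ev_sign (a - δ) (a + δ) _ _ h.1 h.2] with t ht
    exact k t (by rw [e, e]; exact Set.mem_uIcc_of_le ht.1 ht.2)
  · filter_upwards [ev_sign (a + δ) (a - δ) _ _ h.2 h.1] with t ht
    exact k t (by rw [e, e]; exact Set.mem_uIcc_of_ge ht.1 ht.2)

lemma ev_good (A : Finset ℤ) : ∀ᶠ t : ℕ in atTop, Irreducible (fP A t) ∧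
    (∀ z : ℂ, aeval z (fP A t) = 0 → starRingEnd ℂ z = z) ∧
      ∃ s : ℂ, ∀ z : ℂ, aeval z (fP A t) = 0 → z = s ∨ ∃ a ∈ A, ‖z - a‖ ≤ 3⁻¹ := by
  classical
  obtain ⟨c, hc⟩ := ((A ×ˢ A).image fun x => |(x.1 : ℝ) - x.2|).bddAbove
  obtain ⟨M, hM, hM'⟩ : ∃ M : ℝ, 1 ≤ M ∧ c + 1 ≤ M := ⟨max 1 (c + 1), by simp, by simp⟩
  have hp := one_le_pow₀ (n := A.card) hM
  have hδ : (3 * M ^ A.card)⁻¹ ≤ 3⁻¹ := by gcongr; linarith
  filter_upwards [ev_roots A (δ := (3 * M ^ A.card)⁻¹) (by positivity) (by linarith)] with t ht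
  choose! r h1 h2 using ht
  have hr : ∀ a ∈ A, ∀ b ∈ A, a ≠ b → r a ≠ r b := fun a ha b hb hab e => by
    have : 1 ≤ |(a : ℝ) - b| := by exact_mod_cast Int.one_le_abs (sub_ne_zero.mpr hab)
    have h3 := abs_sub (a - r a) (b - r b)
    rw [e, sub_sub_sub_cancel_right] at h3
    linarith [e ▸ h1 a ha, h1 b hb]
  have hm : ((fP A t).map (algebraMap ℤ ℝ)).Monic := monic_fP.map _
  have hP : (∏ a ∈ A, (X - C (r a))).Monic := monic_prod_of_monic _ _ fun a _ => monic_X_sub_C _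
  obtain ⟨Q, hQ⟩ : ∏ a ∈ A, (X - C (r a)) ∣ (fP A t).map (algebraMap ℤ ℝ) :=
    prod_dvd_of_coprime (fun a ha b hb e => isCoprime_X_sub_C_of_isUnit_sub
      (sub_ne_zero.mpr (hr a ha b hb e)).isUnit) fun a ha =>
        dvd_iff_isRoot.mpr (by rw [IsRoot, eval_map_algebraMap, h2 a ha])
  have hQm : Q.Monic := hP.of_mul_monic_left (hQ ▸ hm)
  have hQ1 : Q.natDegree = 1 := by
    have := congrArg natDegree hQ
    rw [monic_fP.natDegree_map, natDegree_fP, hP.natDegree_mul hQm,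
      natDegree_prod_of_monic _ _ fun a _ => monic_X_sub_C _] at this
    simpa using this.symm
  have key : ∀ W : ℤ[X], W ∣ fP A t → W.Monic → ∀ (k : ℝ[X]) (u : Finset ℤ), IsUnit k → u ⊆ A →
      W.map (algebraMap ℤ ℝ) = k * ∏ a ∈ u, (X - C (r a)) → W.natDegree = 0 := by
    intro W h3 h4 k u h5 h6 h7
    have h8 := monic_prod_of_monic u _ fun a _ => monic_X_sub_C (r a)
    obtain rfl := (h8.of_mul_monic_right (h7 ▸ h4.map _)).isUnit_iff.mp h5
    rcases u.eq_empty_or_nonempty with rfl | ⟨a, ha⟩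
    · rw [← h4.natDegree_map (algebraMap ℤ ℝ), h7]; simp
    have h9 := eval_dvd (x := a) h3
    rw [show eval a (fP A t) = -1 by simp [fP, gP, eval_prod, prod_eq_zero (h6 ha) (sub_self a)],
      dvd_neg, ← isUnit_iff_dvd_one, Int.isUnit_iff_abs_eq] at h9
    have h10 := congrArg (fun P => |eval (a : ℝ) P|) h7
    simp only [algebraMap_int_eq, eval_intCast_map, Int.coe_castRingHom, Int.cast_id, one_mul,
      eval_prod, eval_sub, eval_X, eval_C, abs_prod, ← Int.cast_abs, h9,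
      Int.cast_one] at h10
    rw [← mul_prod_erase _ _ ha] at h10
    have h11 : ∏ b ∈ u.erase a, |a - r b| ≤ M ^ A.card := by
      refine (prod_le_prod (fun _ _ => abs_nonneg _) (g := fun _ => M) fun b hb => ?_).trans ?_
      · have hb := h6 (mem_of_mem_erase hb)
        have := hc (mem_image_of_mem _ (mem_product.mpr ⟨h6 ha, hb⟩ : (a, b) ∈ _))
        linarith [abs_sub_le (a : ℝ) b (r b), h1 b hb]
      · rw [prod_const]
        exact pow_le_pow_right₀ hM (card_le_card ((erase_subset _ _).trans h6))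
    have := mul_le_mul (h1 a (h6 ha)) h11 (prod_nonneg fun _ _ => abs_nonneg _) (by positivity)
    rw [← h10, mul_inv, inv_mul_cancel_right₀ (by positivity)] at this
    norm_num at this
  have hz : ∀ z : ℂ, aeval z (fP A t) = 0 → (∃ a ∈ A, z = r a) ∨ z = -(Q.coeff 0 : ℝ) := by
    intro z hz
    rw [← aeval_map_algebraMap ℝ, hQ, hQm.eq_X_add_C hQ1] at hz
    simpa only [map_mul, map_prod, map_sub, map_add, aeval_X, aeval_C, mul_eq_zero, sub_eq_zero,
      prod_eq_zero_iff, add_eq_zero_iff_eq_neg, Complex.coe_algebraMap] using hz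
  refine ⟨monic_fP.irreducible_iff_natDegree.mpr ⟨fun e => ?_, fun U W hU hW e => ?_⟩,
    fun z h => ?_, _, fun z h => (hz z h).symm.imp_right fun ⟨a, ha, e⟩ => ⟨a, ha, ?_⟩⟩
  · simpa [natDegree_fP] using congrArg natDegree e
  · obtain ⟨s, u, b, k, e1, -, e2, e3, e4⟩ := mul_eq_mul_prime_prod
      (fun a _ => prime_X_sub_C (r a)) ((Polynomial.map_mul _).symm.trans
        ((congrArg _ e).trans (hQ.trans (mul_comm _ _))))
    exact ((irreducible_of_degree_eq_one ((degree_eq_iff_natDegree_eq_of_pos one_pos).mpr hQ1)).isUnit_or_isUnit e2).imp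
      (fun h => key U ⟨W, e.symm⟩ hU b s h (e1 ▸ subset_union_left) e3)
      fun h => key W ⟨U, e.symm.trans (mul_comm _ _)⟩ hW k u h (e1 ▸ subset_union_right) e4
  · obtain ⟨a, -, rfl⟩ | rfl := hz z h <;> simp
  · rw [e, ← Complex.ofReal_intCast, ← Complex.ofReal_sub, Complex.norm_real, Real.norm_eq_abs,
      abs_sub_comm]
    exact (h1 a ha).trans hδ

lemma ev_real (A : Finset ℤ) : ∀ᶠ t : ℕ in atTop, ∀ θ : ℂ, aeval θ (fP A t) = 0 →
    IsTotallyReal ℚ⟮θ⟯ ∧ minpoly ℚ θ = (fP A t).map (algebraMap ℤ ℚ) ∧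
      finrank ℚ ℚ⟮θ⟯ = A.card + 1 := by
  filter_upwards [ev_good A] with t ⟨h1, h2, _⟩ θ hθ
  have hint : IsIntegral ℚ θ := IsIntegral.tower_top (R := ℤ) ⟨_, monic_fP, hθ⟩
  have h3 := minpoly.eq_of_irreducible_of_monic
    ((monic_fP.irreducible_iff_irreducible_map_fraction_map (K := ℚ)).mp h1)
    ((aeval_map_algebraMap ℚ θ _).trans hθ) (monic_fP.map _)
  refine ⟨⟨fun v => ?_⟩, h3.symm, by
    rw [IntermediateField.adjoin.finrank hint, ← h3, monic_fP.natDegree_map, natDegree_fP]⟩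
  have h4 : aeval (IntermediateField.AdjoinSimple.gen ℚ θ) (fP A t) = 0 :=
    (algebraMap _ ℂ).injective (by rw [← aeval_algebraMap_apply, map_zero]; exact hθ)
  rw [InfinitePlace.isReal_iff, ComplexEmbedding.isReal_iff]
  exact congrArg AlgHom.toRingHom ((IntermediateField.adjoin.powerBasis hint).algHom_ext
    (f := (ComplexEmbedding.conjugate v.embedding).toRatAlgHom) (g := v.embedding.toRatAlgHom)
    (h2 _ ((aeval_algHom_apply v.embedding.toIntAlgHom _ _).trans (by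
      rw [IntermediateField.adjoin.powerBasis_gen, h4, map_zero]))))

end Pool.Agent.Lib.MP_4e64b4_nt
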