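import Pool.Agent.Lib.helper22.Inertia

set_option autoImplicit false

open NumberField IsDedekindDomain WithZero
open scoped Pointwise nonZeroDivisors

namespace Pool.Agent.Lib.MP_4e64b4_nt
open helper22.Val

variable {L : Type*} [Field L] [NumberField L]

/-- `x` lies in `p ^ k` times the semilocal ring at `p` -/
def PP (p k : ℕ) (x : L) : Prop :=
  ∀ w : HeightOneSpectrum (𝓞 L), (p : 𝓞 L) ∈ w.asIdeal → w.valuation L x ≤ w.valuation L p ^ k

variable {p k l : ℕ} {x y : L}

lemma PP.zero : PP p k (0 : L) := fun w _ => by simp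

lemma PP.add (hx : PP p k x) (hy : PP p k y) : PP p k (x + y) :=
  fun w hw => Valuation.map_add_le _ (hx w hw) (hy w hw)

lemma PP.sub (hx : PP p k x) (hy : PP p k y) : PP p k (x - y) :=
  fun w hw => Valuation.map_sub_le _ (hx w hw) (hy w hw)

lemma PP.neg (hx : PP p k x) : PP p k (-x) := fun w hw => by rw [Valuation.map_neg]; exact hx w hw

lemma PP.mul (hx : PP p k x) (hy : PP p l y) : PP p (k + l) (x * y) := fun w hw => by
  rw [map_mul, pow_add]; exact mul_le_mul' (hx w hw) (hy w hw)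

lemma PP.mul0 (hx : PP p k x) (hy : PP p 0 y) : PP p k (x * y) := hx.mul hy

lemma PP.mul0' (hx : PP p 0 x) (hy : PP p k y) : PP p k (x * y) := mul_comm x y ▸ hy.mul hx

lemma PP.mono (hx : PP p k x) (h : l ≤ k) : PP p l x := fun w hw =>
  (hx w hw).trans (pow_le_pow_of_le_one zero_le (val_natCast_le w p) h)

lemma PP.sum {ι : Type*} {s : Finset ι} {f : ι → L} (h : ∀ i ∈ s, PP p k (f i)) :
    PP p k (∑ i ∈ s, f i) := fun w hw => Valuation.map_sum_le _ fun i hi => h i hi w hw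

lemma PP.int (a : 𝓞 L) : PP p 0 (a : L) := fun w _ => by
  rw [pow_zero]; exact w.valuation_le_one (K := L) a

lemma PP.natCast (n : ℕ) : PP p 0 (n : L) := by simpa using PP.int (p := p) (n : 𝓞 L)

lemma PP.intCast (n : ℤ) : PP p 0 (n : L) := by simpa using PP.int (p := p) (n : 𝓞 L)

lemma PP.one : PP p 0 (1 : L) := by simpa using PP.natCast (L := L) (p := p) 1

lemma PP.pow (hx : PP p k x) (n : ℕ) : PP p (n * k) (x ^ n) := fun w hw => by
  rw [map_pow, mul_comm, pow_mul]; exact pow_le_pow_left' (hx w hw) n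

lemma PP.pow0 (hx : PP p 0 x) (n : ℕ) : PP p 0 (x ^ n) := hx.pow n

lemma PP.prod {ι : Type*} {s : Finset ι} {f : ι → L} (h : ∀ i ∈ s, PP p 0 (f i)) :
    PP p 0 (∏ i ∈ s, f i) := Finset.prod_induction _ _ (fun _ _ => PP.mul0) PP.one h

lemma PP.self_pow (k : ℕ) : PP p k ((p : L) ^ k) := fun w _ => by rw [map_pow]

lemma PP.self : PP p 1 (p : L) := fun w _ => by rw [pow_one]

lemma PP_pow_mul (hp : p ≠ 0) : PP p (l + k) ((p : L) ^ l * x) ↔ PP p k x :=
  forall₂_congr fun w _ => by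
    rw [map_mul, map_pow, pow_add, mul_le_mul_iff_right₀
      (pow_pos (zero_lt_iff.mpr (val_ne_zero (Nat.cast_ne_zero.mpr hp))) _)]

lemma PP_mul (hp : p ≠ 0) : PP p (k + 1) ((p : L) * x) ↔ PP p k x := by
  rw [← PP_pow_mul (l := 1) (k := k) hp, pow_one, add_comm]

lemma PP.lt_one (hx : PP p (k + 1) x) (w : HeightOneSpectrum (𝓞 L)) (hw : (p : 𝓞 L) ∈ w.asIdeal) :
    w.valuation L x < 1 :=
  (hx w hw).trans_lt (pow_lt_one₀ zero_le ((val_natCast_lt_iff w p).mpr hw) (by omega))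

lemma PP.val_eq_one (hx : PP p (k + 1) (x - 1)) (w : HeightOneSpectrum (𝓞 L))
    (hw : (p : 𝓞 L) ∈ w.asIdeal) : w.valuation L x = 1 := by
  rw [← add_sub_cancel 1 x]
  exact Valuation.map_one_add_of_lt _ (hx.lt_one w hw)

lemma PP.of_val (h : ∀ w : HeightOneSpectrum (𝓞 L), (p : 𝓞 L) ∈ w.asIdeal → w.valuation L x = 1) :
    PP p 0 x := fun w hw => by rw [h w hw, pow_zero]

lemma PP.inv_of_val
    (h : ∀ w : HeightOneSpectrum (𝓞 L), (p : 𝓞 L) ∈ w.asIdeal → w.valuation L x = 1) :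
    PP p 0 x⁻¹ := fun w hw => by rw [map_inv₀, h w hw, pow_zero, inv_one]

lemma PP.ne_zero (hp : p.Prime) (hx : PP p (k + 1) (x - 1)) : x ≠ 0 := by
  obtain ⟨w, hw⟩ := exists_over L hp
  rintro rfl
  simpa using hx.val_eq_one w hw

lemma exists_pow_le {w : HeightOneSpectrum (𝓞 L)} {a : L} (ha : w.valuation L a < 1) (x : L) :
    ∃ n : ℕ, ∀ m, n ≤ m → w.valuation L (a ^ m * x) ≤ 1 := by
  rcases eq_or_ne x 0 with rfl | hx
  · exact ⟨0, fun m _ => by simp⟩
  obtain ⟨n, hn⟩ := exists_pow_lt₀ ha (Units.mk0 _ (val_ne_zero (w := w) hx))⁻¹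
  refine ⟨n, fun m hm => ?_⟩
  rw [map_mul, map_pow]
  refine (mul_le_mul_left ((pow_le_pow_of_le_one zero_le ha.le hm).trans hn.le) _).trans_eq ?_
  simp [val_ne_zero hx]

lemma exists_PP (p : ℕ) (x : L) : ∃ i : ℕ, ∀ j, i ≤ j → PP p 0 ((p : L) ^ j * x) := by
  classical
  have h : ∀ w : HeightOneSpectrum (𝓞 L), ∃ n : ℕ, (p : 𝓞 L) ∈ w.asIdeal →
      ∀ m, n ≤ m → w.valuation L ((p : L) ^ m * x) ≤ 1 := fun w => by
    by_cases hw : (p : 𝓞 L) ∈ w.asIdeal
    · obtain ⟨n, hn⟩ := exists_pow_le ((val_natCast_lt_iff w p).mpr hw) x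
      exact ⟨n, fun _ => hn⟩
    · exact ⟨0, fun h => absurd h hw⟩
  choose n hn using h
  obtain ⟨i, hi⟩ := ((finite_val_gt_one x).image n).bddAbove
  refine ⟨i, fun j hj w hw => ?_⟩
  rw [pow_zero]
  by_cases h : w.valuation L x ≤ 1
  · rw [map_mul, map_pow]
    exact mul_le_one' (pow_le_one' (val_natCast_le w p) _) h
  · exact hn w hw j ((hi ⟨w, h, rfl⟩).trans hj)

lemma PP.exists_int (hp : p.Prime) (hx : PP p 0 x) :
    ∃ n : ℕ, p.Coprime n ∧ ∃ a : 𝓞 L, (a : L) = n * x := by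
  classical
  choose q hq hq' using fun w : HeightOneSpectrum (𝓞 L) => exists_prime_mem w
  choose n hn using fun w : HeightOneSpectrum (𝓞 L) =>
    exists_pow_le ((val_natCast_lt_iff w (q w)).mpr (hq' w)) x
  have hf := finite_val_gt_one x
  refine ⟨∏ w ∈ hf.toFinset, q w ^ n w, Nat.Coprime.prod_right fun w hw => ?_,
    HeightOneSpectrum.mem_integers_of_valuation_le_one L _ fun w => ?_⟩
  · refine Nat.Coprime.pow_right _ ((Nat.coprime_primes hp (hq w)).mpr fun e => ?_)
    exact (hf.mem_toFinset.mp hw) (by simpa using hx w (e ▸ hq' w))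
  · by_cases h : w ∈ hf.toFinset
    · rw [← Finset.prod_erase_mul _ _ h, Nat.cast_mul, mul_assoc, map_mul, Nat.cast_pow]
      exact mul_le_one' (val_natCast_le w _) (hn w _ le_rfl)
    · rw [map_mul]
      exact mul_le_one' (val_natCast_le w _) (by simpa using h)

lemma PP.exists_close (hp : p.Prime) (hx : PP p 0 x) (k : ℕ) : ∃ a : 𝓞 L, PP p k (x - a) := by
  obtain ⟨n, hn, a, ha⟩ := hx.exists_int hp
  obtain ⟨u, v, h⟩ := (Nat.isCoprime_iff_coprime.mpr (hn.pow_left k))
  refine ⟨v * a, ?_⟩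
  have h' := congrArg (Int.cast (R := L)) h
  push_cast at h'
  have : x - (((v : 𝓞 L) * a : 𝓞 L) : L) = (p : L) ^ k * (u * x) := by
    rw [RingOfIntegers.coe_eq_algebraMap, map_mul, map_intCast, ← RingOfIntegers.coe_eq_algebraMap,
      ha]
    linear_combination (-x) * h'
  rw [this]
  exact (PP.self_pow k).mul0 ((PP.intCast u).mul0 hx)

variable (L p) in
/-- units of the semilocal ring -/
def Ru : Subgroup Lˣ where
  carrier := {x | ∀ w : HeightOneSpectrum (𝓞 L), (p : 𝓞 L) ∈ w.asIdeal → w.valuation L x = 1}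
  one_mem' := fun w _ => by simp
  mul_mem' := fun ha hb w hw => by rw [Units.val_mul, map_mul, ha w hw, hb w hw, one_mul]
  inv_mem' := fun ha w hw => by rw [Units.val_inv_eq_inv_val, map_inv₀, ha w hw, inv_one]

lemma finite_of_factor {α β γ : Type*} [Finite β] (g : α → β) (m : α → γ)
    (hm : Function.Surjective m) (h : ∀ x y, g x = g y → m x = m y) : Finite γ := by
  choose s hs using hm
  exact Finite.of_injective (g ∘ s) fun a b e => by rw [← hs a, ← hs b]; exact h _ _ e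

lemma relIndex_Ru (hp : p.Prime) (V : Subgroup Lˣ) (hV : ∀ x : Lˣ, PP p k ((x : L) - 1) → x ∈ V) :
    V.relIndex (Ru L p) ≠ 0 := by
  choose a ha using fun x : Ru L p => (PP.of_val x.2).exists_close hp k
  have h0 : Ideal.span {(p : 𝓞 L) ^ k} ≠ ⊥ := by simp [hp.ne_zero]
  have := Ring.HasFiniteQuotients.finiteQuotient h0
  have := finite_of_factor (fun x => Ideal.Quotient.mk (Ideal.span {(p : 𝓞 L) ^ k}) (a x))
    (QuotientGroup.mk (s := V.subgroupOf (Ru L p))) QuotientGroup.mk_surjective fun x y e => by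
      obtain ⟨c, hc⟩ := Ideal.mem_span_singleton.mp (Ideal.Quotient.eq.mp e)
      refine QuotientGroup.eq.mpr (hV _ ?_)
      have h1 : PP p k ((a x : L) - a y) := by
        have := congrArg (algebraMap (𝓞 L) L) hc
        rw [map_sub, map_mul, map_pow, map_natCast] at this
        exact this ▸ (PP.self_pow k).mul0 (PP.int c)
      have h2 := (((ha y).sub (ha x)).sub h1).mul0 (PP.inv_of_val x.2)
      rw [Subgroup.coe_subtype]
      convert h2 using 1
      have := x.1.ne_zero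
      push_cast
      field_simp
      ring
  exact Subgroup.index_ne_zero_of_finite

lemma count_span {x : L} (hx : x ≠ 0) (w : HeightOneSpectrum (𝓞 L)) :
    FractionalIdeal.count L w (FractionalIdeal.spanSingleton (𝓞 L)⁰ x) = -log (w.valuation L x) := by
  obtain ⟨a, b, hb, rfl⟩ := IsFractionRing.div_surjective (A := 𝓞 L) x
  have hb := nonZeroDivisors.ne_zero hb
  have ha : a ≠ 0 := by rintro rfl; simp at hx
  rw [FractionalIdeal.count_well_defined L w (a := b) (J := Ideal.span {a})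
    (by rwa [Ne, FractionalIdeal.spanSingleton_eq_zero_iff])
    (by rw [FractionalIdeal.coeIdeal_span_singleton,
      FractionalIdeal.spanSingleton_mul_spanSingleton, div_eq_inv_mul]),
    map_div₀, HeightOneSpectrum.valuation_of_algebraMap, HeightOneSpectrum.valuation_of_algebraMap,
    w.intValuation_if_neg ha, w.intValuation_if_neg hb, ← exp_sub, log_exp]
  ring

variable (L) in
lemma exists_cl : ∃ cl : (HeightOneSpectrum (𝓞 L) →₀ ℤ) →+ Additive (ClassGroup (𝓞 L)),
    ∀ c, cl c = 0 → ∃ x : L, x ≠ 0 ∧ ∀ w, log (w.valuation L x) = c w := by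
  let u : HeightOneSpectrum (𝓞 L) → (FractionalIdeal (𝓞 L)⁰ L)ˣ := fun w =>
    Units.mk0 (w.asIdeal : FractionalIdeal (𝓞 L)⁰ L) (FractionalIdeal.coeIdeal_ne_zero.mpr w.ne_bot)
  let f : (HeightOneSpectrum (𝓞 L) →₀ ℤ) →+ Additive (FractionalIdeal (𝓞 L)⁰ L)ˣ :=
    Finsupp.liftAddHom fun w => zmultiplesHom _ (Additive.ofMul (u w))
  refine ⟨(ClassGroup.mk (R := 𝓞 L) (K := L)).toAdditive.comp f, fun c hc => ?_⟩
  have hc : ClassGroup.mk (R := 𝓞 L) (K := L) (f c).toMul = 1 := hc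
  obtain ⟨x, hx⟩ := (FractionalIdeal.isPrincipal_iff _).mp (ClassGroup.mk_eq_one_iff.mp hc)
  have h0 : x ≠ 0 := by
    rintro rfl
    exact (f c).toMul.ne_zero (by rw [hx]; simp)
  refine ⟨x⁻¹, inv_ne_zero h0, fun w => ?_⟩
  rw [map_inv₀, log_inv, ← count_span h0, ← hx, ← FractionalIdeal.count_finsuppProd L w c]
  congr 1
  simp [f, u, Finsupp.sum, Finsupp.prod, toMul_sum]

section Act
variable {G : Type*} [Group G] [MulSemiringAction G L]

omit [NumberField L] in
instance act : MulAction G (HeightOneSpectrum (𝓞 L)) where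
  smul σ w := ⟨σ • w.asIdeal, have := w.isPrime; inferInstance, fun h => w.ne_bot (by
    rw [← inv_smul_smul σ w.asIdeal, h, Ideal.smul_bot])⟩
  one_smul _ := HeightOneSpectrum.ext (one_smul _ _)
  mul_smul _ _ _ := HeightOneSpectrum.ext (mul_smul _ _ _)

omit [NumberField L] in
lemma act_asIdeal (σ : G) (w : HeightOneSpectrum (𝓞 L)) : (σ • w).asIdeal = σ • w.asIdeal := rfl

omit [NumberField L] in
lemma mem_act (σ : G) (w : HeightOneSpectrum (𝓞 L)) (n : ℕ) :
    (n : 𝓞 L) ∈ (σ • w).asIdeal ↔ (n : 𝓞 L) ∈ w.asIdeal := by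
  rw [act_asIdeal, ← Ideal.smul_mem_pointwise_smul_iff (a := σ) (S := w.asIdeal),
    show σ • (n : 𝓞 L) = n from map_natCast (MulSemiringAction.toRingHom G _ σ) n]

lemma val_act (σ : G) (w : HeightOneSpectrum (𝓞 L)) (x : L) :
    (σ • w).valuation L (σ • x) = w.valuation L x := by
  have h0 : ∀ (σ : G) (w : HeightOneSpectrum (𝓞 L)) (x : 𝓞 L),
      (σ • w).valuation L (σ • (x : L)) ≤ w.valuation L (x : L) := fun σ w x => by
    rcases eq_or_ne x 0 with rfl | hx
    · simp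
    rw [← coe_smul_int, HeightOneSpectrum.valuation_of_algebraMap,
      HeightOneSpectrum.valuation_of_algebraMap, w.intValuation_eq_exp_neg_multiplicity hx,
      HeightOneSpectrum.intValuation_le_pow_iff_mem, act_asIdeal, ← smul_pow']
    refine Ideal.smul_mem_pointwise_smul _ _ _ ?_
    rw [← HeightOneSpectrum.intValuation_le_pow_iff_mem, w.intValuation_eq_exp_neg_multiplicity hx]
  have h : ∀ y : 𝓞 L, (σ • w).valuation L (σ • (y : L)) = w.valuation L (y : L) := fun y => by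
    refine le_antisymm (h0 σ w y) ?_
    have := h0 σ⁻¹ (σ • w) (σ • y)
    rwa [coe_smul_int, inv_smul_smul, inv_smul_smul] at this
  obtain ⟨n, d, hd, rfl⟩ := IsFractionRing.div_surjective (A := 𝓞 L) x
  rw [smul_div₀', map_div₀, map_div₀]
  exact congrArg₂ _ (h n) (h d)

lemma val_act' (σ : G) (w : HeightOneSpectrum (𝓞 L)) (x : L) :
    w.valuation L (σ • x) = (σ⁻¹ • w).valuation L x := by
  rw [← val_act σ (σ⁻¹ • w), smul_inv_smul]

lemma PP.smul (hx : PP p k x) (σ : G) : PP p k (σ • x) := fun w hw => by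
  rw [val_act', ← show σ • (p : L) = p from map_natCast (MulSemiringAction.toRingHom G _ σ) p,
    val_act']
  exact hx _ ((mem_act _ _ _).mpr hw)

end Act

variable {K : Type*} [Field K] [NumberField K]

lemma mem_iff_of_pow {φ : K →+* L} {v : HeightOneSpectrum (𝓞 K)} {w : HeightOneSpectrum (𝓞 L)}
    {e : ℕ} (he : 0 < e) (h : ∀ x, w.valuation L (φ x) = v.valuation K x ^ e) (n : ℕ) :
    (n : 𝓞 L) ∈ w.asIdeal ↔ (n : 𝓞 K) ∈ v.asIdeal := by
  rw [← val_natCast_lt_iff, ← val_natCast_lt_iff, ← map_natCast φ, h, pow_lt_one_iff he.ne']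

lemma PP_map (φ : K →+* L) {x : K} : PP p k (φ x) ↔ PP p k x := by
  constructor
  · intro hx v hv
    obtain ⟨w, e, he, h⟩ := exists_above φ v
    have := hx w ((mem_iff_of_pow he h p).mpr hv)
    rw [← map_natCast φ, h, h, ← pow_mul, mul_comm, pow_mul] at this
    exact le_of_pow_le_pow_left₀ he.ne' zero_le this
  · intro hx w hw
    obtain ⟨v, e, he, h⟩ := exists_under φ w
    rw [← map_natCast φ, h, h, ← pow_mul, mul_comm, pow_mul]
    exact pow_le_pow_left' (hx v ((mem_iff_of_pow he h p).mp hw)) e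

lemma PP.trace [Algebra K L] [IsGalois K L] (hx : PP p k x) : PP p k (Algebra.trace K L x) := by
  rw [← PP_map (algebraMap K L), trace_eq_sum_automorphisms]
  exact PP.sum fun σ _ => hx.smul σ

end Pool.Agent.Lib.MP_4e64b4_nt
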