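import Pool.Agent.Lib.MP_4e64b4_nt.Real
import Pool.Agent.Lib.helper22.Inertia

set_option autoImplicit false

open NumberField IsDedekindDomain Module Polynomial Finset WithZero Pool.Agent.Lib.helper22.Val
open scoped IntermediateField nonZeroDivisors

namespace Pool.Agent.Lib.MP_4e64b4_nt

/-- local shape at `l`: a totally ramified part of degree `k` and an unramified part -/
def Loc (f : ℤ[X]) (l k : ℕ) : Prop := ∃ h : (ZMod l)[X], f.map (Int.castRingHom _) = X ^ k * h ∧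
  h.Separable ∧ h.eval 0 ≠ 0 ∧ ¬ (l : ℤ) ^ 2 ∣ f.eval 0

lemma le_of_X_pow_mul {K : Type*} [Field K] {a b : ℕ} {u v : K[X]} (hv : v.eval 0 ≠ 0)
    (h : X ^ a * u = X ^ b * v) : a ≤ b :=
  (pow_dvd_pow_iff X_ne_zero not_isUnit_X).mp (((irreducible_X.coprime_iff_not_dvd.mpr fun e =>
    hv (by rwa [X_dvd_iff, coeff_zero_eq_eval_zero] at e)).pow_left).dvd_of_dvd_mul_right
      ⟨u, h.symm⟩)

section
variable {L : Type*} [Field L] [NumberField L] {ι : Type*} [Fintype ι] {f : ℤ[X]}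

lemma exists_int_roots (hf : f.Monic) {r : ι → L}
    (h : f.map (algebraMap ℤ L) = ∏ i, (X - C (r i))) : ∃ s : ι → 𝓞 L, (∀ i, (s i : L) = r i) ∧
      f.map (algebraMap ℤ (𝓞 L)) = ∏ i, (X - C (s i)) := by
  have hi : ∀ i, IsIntegral ℤ (r i) := fun i => ⟨f, hf, by
    rw [eval₂_eq_eval_map, h, eval_prod]
    exact prod_eq_zero (mem_univ i) (by simp)⟩
  refine ⟨fun i => ⟨r i, hi i⟩, fun i => rfl,
    map_injective _ (IsFractionRing.injective (𝓞 L) L) ?_⟩
  rw [Polynomial.map_map, ← IsScalarTower.algebraMap_eq, h, Polynomial.map_prod]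
  simp

lemma inertia_action {G : Type*} [Group G] [MulSemiringAction G L] [Finite G]
    [IsGaloisGroup G ℚ L] [MulAction G ι] {r : ι → 𝓞 L} (hr : ∀ i, r i ≠ 0)
    (hG : ∀ (σ : G) i, r (σ • i) = σ • r i)
    (hf : f.map (algebraMap ℤ (𝓞 L)) = ∏ i, (X - C (r i))) {l k : ℕ} (hl : l.Prime)
    (h : Loc f l k) : ∃ (R : Finset ι) (I : Subgroup G), R.card = k ∧
      (∀ σ ∈ I, ∀ i ∉ R, σ • i = i) ∧ ∀ i ∈ R, ∀ j ∈ R, ∃ σ ∈ I, σ • i = j := by
  classical
  obtain ⟨h, h1, h2, h3, h4⟩ := h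
  obtain ⟨w, hw⟩ := exists_over L hl
  have := w.isMaximal
  have := Fact.mk hl
  let := Ideal.Quotient.field w.asIdeal
  let π := Ideal.Quotient.mk w.asIdeal
  have : CharP (𝓞 L ⧸ w.asIdeal) l := (CharP.charP_iff_prime_eq_zero hl).mpr
    ((map_natCast π l).symm.trans (Ideal.Quotient.eq_zero_iff_mem.mpr hw))
  let ψ := ZMod.castHom (dvd_refl l) (𝓞 L ⧸ w.asIdeal)
  let R := univ.filter fun i => π (r i) = 0
  have hR : ∀ i, i ∈ R ↔ π (r i) = 0 := by simp [R]
  have e : X ^ R.card * ∏ i ∈ Rᶜ, (X - C (π (r i))) = X ^ k * h.map ψ := by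
    have e1 := congrArg (Polynomial.map ψ) h1
    have e2 := congrArg (Polynomial.map π) hf
    rw [Polynomial.map_map] at e1 e2
    rw [RingHom.ext_int (ψ.comp _) (π.comp _), e2, Polynomial.map_prod, ← prod_mul_prod_compl R,
      prod_congr rfl (g := fun _ => X) fun i hi => by simp [(hR i).mp hi]] at e1
    simpa using e1
  have hk : R.card = k := le_antisymm
    (le_of_X_pow_mul (by rwa [eval_zero_map, _root_.map_ne_zero]) e)
    (le_of_X_pow_mul (by simp [eval_prod, prod_ne_zero_iff, hR]) e.symm)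
  rw [hk, mul_right_inj' (pow_ne_zero _ X_ne_zero)] at e
  have h5 := separable_prod_X_sub_C_iff'.mp (e ▸ h2.map)
  have h6 : ∀ σ ∈ w.asIdeal.inertia G, ∀ i, π (r (σ • i)) = π (r i) := fun σ hσ i => by
    rw [hG]; exact Ideal.Quotient.eq.mpr (hσ _)
  refine ⟨R, w.asIdeal.inertia G, hk, fun σ hσ i hi => h5 _ ?_ _ (mem_compl.mpr hi) (h6 σ hσ i),
    fun i hi j hj => by_contra fun hij => ?_⟩
  · rwa [mem_compl, hR, h6 σ hσ, ← hR]
  let O := univ.filter fun j => ∃ σ ∈ w.asIdeal.inertia G, σ • i = j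
  have hO : ∀ j, j ∈ O ↔ ∃ σ ∈ w.asIdeal.inertia G, σ • i = j := by simp [O]
  have h7 : ∀ S : Finset ι, (∏ a ∈ S, (r a : L)) ≠ 0 := fun S =>
    prod_ne_zero_iff.mpr fun a _ => by simpa using hr a
  have h8 : ∀ S : Finset ι, ∀ a ∈ S, a ∈ R → log (w.valuation L (∏ a ∈ S, (r a : L))) < 0 := by
    intro S a ha ha'
    rw [log_lt_iff_lt_exp (val_ne_zero (h7 S)), exp_zero]
    have := (w.valuation_lt_one_iff_mem (K := L) (∏ a ∈ S, r a)).mpr
      (Ideal.Quotient.eq_zero_iff_mem.mp ((map_prod π _ _).trans (prod_eq_zero ha ((hR a).mp ha'))))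
    rwa [Algebra.cast, map_prod] at this
  have h9 := log_prime_dvd_log_val (G := G) hl hw (x := ∏ a ∈ O, (r a : L)) fun σ hσ => by
    rw [smul_prod']
    refine prod_equiv (MulAction.toPerm σ) (fun a => ?_) fun a _ => ?_
    · rw [hO, hO]
      exact ⟨fun ⟨τ, h, e⟩ => ⟨σ * τ, mul_mem hσ h, by simp [mul_smul, e]⟩,
        fun ⟨τ, h, e⟩ => ⟨σ⁻¹ * τ, mul_mem (inv_mem hσ) h, by simp [mul_smul, e]⟩⟩
    · rw [MulAction.toPerm_apply, hG]; rfl
  have h10 := h8 O i ((hO i).mpr ⟨1, one_mem _, one_smul _ _⟩) hi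
  have h11 := h8 Oᶜ j (by rwa [mem_compl, hO]) hj
  have h12 := log_val_prime_neg hl hw
  have h13 := Int.le_of_dvd (neg_pos.mpr h10) (neg_dvd.mpr (dvd_neg.mpr h9))
  have h14 : f.eval 0 ≠ 0 := fun e => h4 (e.symm ▸ dvd_zero _)
  have h15 := log_val_rat hl hw (Int.cast_ne_zero (α := ℚ).mpr h14)
  have h16 : ((f.eval 0 : ℤ) : L) = (-1) ^ Fintype.card ι * ∏ a, (r a : L) := by
    have := congrArg (fun P => algebraMap (𝓞 L) L (eval 0 P)) hf
    simpa [eval_prod, eval_zero_map, prod_neg] using this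
  rw [Rat.cast_intCast, h16, map_mul, map_pow, Valuation.map_neg, map_one, one_pow, one_mul,
    ← prod_mul_prod_compl O, map_mul, log_mul (val_ne_zero (h7 _)) (val_ne_zero (h7 _)),
    padicValRat.of_int] at h15
  have h17 : (padicValInt l (f.eval 0) : ℤ) ≤ 1 := by
    rw [padicValInt_dvd_iff] at h4
    omega
  nlinarith

end

lemma surj_perm {G ι : Type*} [Group G] [MulAction G ι] [Fintype ι] [MulAction.IsPretransitive G ι]
    (h1 : ∃ (R : Finset ι) (I : Subgroup G), R.card = 2 ∧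
      (∀ σ ∈ I, ∀ i ∉ R, σ • i = i) ∧ ∀ i ∈ R, ∀ j ∈ R, ∃ σ ∈ I, σ • i = j)
    (h2 : ∃ (R : Finset ι) (I : Subgroup G), R.card + 1 = Fintype.card ι ∧
      (∀ σ ∈ I, ∀ i ∉ R, σ • i = i) ∧ ∀ i ∈ R, ∀ j ∈ R, ∃ σ ∈ I, σ • i = j) :
    Function.Surjective (MulAction.toPermHom G ι) := by
  classical
  obtain ⟨R, I, h1, h3, h4⟩ := h1
  obtain ⟨x, y, hxy, rfl⟩ := card_eq_two.mp h1
  obtain ⟨σ, hσ, hx⟩ := h4 x (by simp) y (by simp)
  obtain ⟨R, J, h2, h5, h6⟩ := h2
  obtain ⟨ρ, hρ⟩ := card_eq_one.mp (show Rᶜ.card = 1 by rw [card_compl]; omega)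
  have hR : ∀ i, i ∈ R ↔ i ≠ ρ := fun i => by rw [Ne, ← mem_singleton, ← hρ, mem_compl, not_not]
  have c : ∀ (g : G) a b, Equiv.swap a b ∈ (MulAction.toPermHom G ι).range →
      Equiv.swap (g • a) (g • b) ∈ (MulAction.toPermHom G ι).range := fun g a b h => by
    have := Equiv.swap_apply_apply (MulAction.toPermHom G ι g) a b
    exact this ▸ mul_mem (mul_mem ⟨g, rfl⟩ h) (inv_mem ⟨g, rfl⟩)
  have s1 : Equiv.swap x y ∈ (MulAction.toPermHom G ι).range := by
    refine ⟨σ, Equiv.ext fun z => ?_⟩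
    rw [MulAction.toPermHom_apply, MulAction.toPerm_apply, Equiv.swap_apply_def]
    split_ifs with a b
    · rw [a, hx]
    · by_contra e
      have : σ • y ∉ ({x, y} : Finset ι) := by
        rw [mem_insert, mem_singleton, not_or]
        exact ⟨b ▸ e, fun e' => hxy (MulAction.injective σ (hx.trans e'.symm))⟩
      have e' : σ • y = y := MulAction.injective σ (h3 σ hσ _ this)
      exact this (by rw [e']; simp)
    · exact h3 σ hσ z (by simp [a, b])
  have s2 : ∀ z, Equiv.swap ρ z ∈ (MulAction.toPermHom G ι).range := fun z => by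
    rcases eq_or_ne z ρ with rfl | hz
    · rw [Equiv.swap_self]; exact one_mem _
    obtain ⟨g, hg⟩ := MulAction.exists_smul_eq G x ρ
    obtain ⟨τ, hτ, e⟩ := h6 (g • y) ((hR _).mpr fun e => hxy (MulAction.injective g
      (hg.trans e.symm))) z ((hR z).mpr hz)
    have := c τ _ _ (c g _ _ s1)
    rwa [hg, e, h5 τ hτ ρ (by simp [hR])] at this
  rw [← MonoidHom.range_eq_top, eq_top_iff, ← Equiv.Perm.closure_isSwap, Subgroup.closure_le]
  rintro _ ⟨a, b, -, rfl⟩
  exact SubmonoidClass.swap_mem_trans _ (Equiv.swap_comm ρ a ▸ s2 a) (s2 b)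

lemma gal_Sn {f : ℤ[X]} (hf : f.Monic) (hi : Irreducible f) {m l l' : ℕ} (hm : 0 < m)
    (hd : f.natDegree = m + 1) (hl : l.Prime) (hl' : l'.Prime) (h : Loc f l 2) (h' : Loc f l' m)
    (L : Type*) [Field L] [Algebra ℚ L] [IsSplittingField ℚ L (f.map (algebraMap ℤ ℚ))] :
    Nonempty ((L ≃ₐ[ℚ] L) ≃* Equiv.Perm (Fin (m + 1))) := by
  classical
  have : CharZero L := algebraRat.charZero L
  obtain rfl : ‹Algebra ℚ L› = DivisionRing.toRatAlgebra := Subsingleton.elim _ _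
  set F := f.map (algebraMap ℤ ℚ) with hF
  have hF0 : F.Monic := hf.map _
  have h1 : Irreducible F := (hf.irreducible_iff_irreducible_map_fraction_map (K := ℚ)).mp hi
  have hs := IsSplittingField.splits L F
  have := IsSplittingField.finiteDimensional L F
  have : NumberField L := NumberField.of_module_finite ℚ L
  have : IsGalois ℚ L := IsGalois.of_separable_splitting_field h1.separable
  have hc : Fintype.card (F.rootSet L) = m + 1 := by
    rw [card_rootSet_eq_natDegree h1.separable hs, hf.natDegree_map, hd]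
  obtain ⟨r, h2, h3⟩ := exists_int_roots hf (r := fun i : F.rootSet L => (i : L)) (by
    rw [IsScalarTower.algebraMap_eq ℤ ℚ L, ← Polynomial.map_map, ← hF,
      hs.eq_prod_roots_of_monic (hF0.map _), ← prod_subtype (F.aroots L).toFinset
      (fun x => by rw [rootSet_def, mem_coe]) fun x : L => X - C x,
      prod_eq_multiset_prod, Multiset.toFinset_val, (nodup_roots h1.separable.map).dedup])
  have h4 : ∀ i : F.rootSet L, minpoly ℚ (i : L) = F := fun i =>
    (minpoly.eq_of_irreducible_of_monic h1 (mem_rootSet.mp i.2).2 hF0).symm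
  have hr : ∀ i, r i ≠ 0 := fun i e => by
    have := congrArg natDegree (h4 i)
    rw [← h2, e, RingOfIntegers.coe_eq_algebraMap, map_zero, minpoly.zero, natDegree_X,
      hf.natDegree_map] at this
    omega
  have hG : ∀ (σ : L ≃ₐ[ℚ] L) i, r (σ • i) = σ • r i := fun σ i =>
    RingOfIntegers.ext (by rw [coe_smul_int, h2, h2]; rfl)
  have : MulAction.IsPretransitive (L ≃ₐ[ℚ] L) (F.rootSet L) := ⟨fun x y => by
    obtain ⟨g, hg⟩ := (Normal.minpoly_eq_iff_mem_orbit L).mp ((h4 y).trans (h4 x).symm)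
    exact ⟨g, Subtype.ext hg⟩⟩
  refine ⟨(MulEquiv.ofBijective (MulAction.toPermHom _ (F.rootSet L)) ⟨(injective_iff_map_eq_one _).mpr
    fun σ hσ => ?_, surj_perm (inertia_action hr hG h3 hl h) ?_⟩).trans
      (Fintype.equivFinOfCardEq hc).permCongrHom⟩
  · refine AlgEquiv.coe_toAlgHom_injective (AlgHom.ext_of_adjoin_eq_top
      (IsSplittingField.adjoin_rootSet L F) fun x hx => ?_)
    exact congrArg Subtype.val (Equiv.ext_iff.mp hσ ⟨x, hx⟩)
  · simpa only [hc, Nat.add_right_cancel_iff] using inertia_action hr hG h3 hl' h'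

end Pool.Agent.Lib.MP_4e64b4_nt
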