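import Pool.Agent.Lib.MP_4e64b4_nt.Sn

set_option autoImplicit false

open NumberField IsDedekindDomain Module Polynomial Finset Pool.Agent.Lib.helper22.Val
open scoped IntermediateField nonZeroDivisors

namespace Pool.Agent.Lib.MP_4e64b4_nt

lemma exists_deg_one {L : Type} [Field L] [NumberField L] {ι : Type*} [Fintype ι] (r : ι → 𝓞 L)
    (N : ℕ) : ∃ l : ℕ, l.Prime ∧ N < l ∧ ∃ (K : Type) (_ : Field K) (_ : CharP K l)
      (π : 𝓞 L →+* K) (b : ι → ℤ), ∀ i, π (r i) = b i := by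
  obtain ⟨α, hα⟩ := Field.exists_primitive_element ℚ L
  obtain ⟨m, θ, hm, hθ⟩ := ((IsFractionRing.isAlgebraic_iff ℤ ℚ L).mpr
    (Algebra.IsAlgebraic.isAlgebraic α)).exists_nsmul_eq (𝓞 L)
  have h1 : ∀ i, ∃ n ∈ ℤ⁰, ∃ P : ℤ[X], n • r i = aeval θ P := fun i => by
    have : (r i : L) ∈ Algebra.adjoin ℚ {α} := IntermediateField.adjoin_eq_top_iff.mp hα ▸ trivial
    obtain ⟨Q, hQ⟩ := (Algebra.adjoin_singleton_eq_range_aeval ℚ α ▸ this :)
    obtain ⟨n, hn, h⟩ := IsLocalization.integerNormalization_spec ℤ⁰ (Q.comp (C (m : ℚ)⁻¹ * X))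
    refine ⟨n, hn, IsLocalization.integerNormalization ℤ⁰ (Q.comp (C (m : ℚ)⁻¹ * X)),
      IsFractionRing.injective (𝓞 L) L ?_⟩
    rw [← aeval_algebraMap_apply, ← aeval_map_algebraMap ℚ, h, map_zsmul, map_zsmul, aeval_comp,
      ← hθ]
    simp [hm, ← hQ]
  choose n hn P h1 using h1
  obtain ⟨x, hx⟩ := exists_nat_ge (∑ v : InfinitePlace L, v θ + 3)
  have hx' : ∀ v : InfinitePlace L, v θ + 3 ≤ x := fun v => le_trans (add_le_add_left
    (single_le_sum (f := fun v : InfinitePlace L => v θ) (fun _ _ => apply_nonneg _ _)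
      (mem_univ v)) _) hx
  let M := N.factorial * ∏ i, (n i).natAbs
  have hM : 0 < M := Nat.mul_pos N.factorial_pos
    (prod_pos fun i _ => Int.natAbs_pos.mpr (nonZeroDivisors.ne_zero (hn i)))
  have h2 : ¬ IsUnit ((M * x : ℕ) * (θ + x) - 1 : 𝓞 L) := fun h => by
    refine (sum_pos (fun v _ => mul_pos (Nat.cast_pos.mpr InfinitePlace.mult_pos)
      (Real.log_pos ?_)) univ_nonempty).ne' (Units.sum_mult_mul_log h.unit)
    have e1 := v.1.le_sub ((M * x : ℕ) * (θ + x) : L) 1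
    have e2 := v.1.le_add (x : L) θ
    have e3 : (1 : ℝ) ≤ M := by exact_mod_cast hM
    have e4 := hx' v
    have e5 := apply_nonneg v (θ : L)
    simp only [← InfinitePlace.coe_apply, map_mul, map_one, InfinitePlace.map_natCast, Nat.cast_mul,
      add_comm (x : L)] at e1 e2
    simp only [IsUnit.unit_spec, map_sub, map_mul, map_natCast, map_add, map_one, Nat.cast_mul]
    have e6 : (x : ℝ) ≤ M * x := by nlinarith
    nlinarith
  obtain ⟨w, hw, h3⟩ := Ideal.exists_le_maximal _ (Ideal.span_singleton_ne_top h2)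
  let := Ideal.Quotient.field w
  let π := Ideal.Quotient.mk w
  have h4 := Ideal.Quotient.eq_zero_iff_mem.mpr (h3 (Ideal.mem_span_singleton_self _))
  obtain ⟨l, hl, h5⟩ := exists_prime_mem ⟨w, hw.isPrime, RingOfIntegers.not_isField L ∘ fun e =>
    Ring.isField_iff_maximal_bot.mpr (e ▸ hw)⟩
  have := Fact.mk hl
  have : CharP (𝓞 L ⧸ w) l := (CharP.charP_iff_prime_eq_zero hl).mpr
    ((map_natCast π l).symm.trans (Ideal.Quotient.eq_zero_iff_mem.mpr h5))
  rw [map_sub, map_mul, map_add, map_natCast, map_natCast, map_one, sub_eq_zero] at h4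
  have h6 : ¬ l ∣ M := fun h => by
    rw [(CharP.cast_eq_zero_iff _ l _).mpr (h.mul_right x), zero_mul] at h4
    exact zero_ne_one h4
  obtain ⟨c, hc⟩ := (mem_bot_iff_intCast l (𝓞 L ⧸ w) (x := π θ)).mp (by
    rw [← eq_sub_of_add_eq (eq_inv_of_mul_eq_one_right h4) |>.symm]
    exact sub_mem (inv_mem (natCast_mem _ _)) (natCast_mem _ _))
  have h7 : ∀ i, ∃ b : ℤ, b = π (r i) := fun i => (mem_bot_iff_intCast l (𝓞 L ⧸ w)).mp (by
    have e := congrArg π (h1 i)
    rw [map_zsmul, zsmul_eq_mul, ← π.toIntAlgHom_apply, ← π.toIntAlgHom_apply (aeval θ _),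
      ← aeval_algHom_apply, π.toIntAlgHom_apply, π.toIntAlgHom_apply, ← hc, ← eq_intCast
      (algebraMap ℤ (𝓞 L ⧸ w)) c, aeval_algebraMap_apply_eq_algebraMap_eval, eq_intCast] at e
    rw [(eq_inv_mul_iff_mul_eq₀ fun e' => h6 ((Int.natCast_dvd.mp ((CharP.intCast_eq_zero_iff _ l
      _).mp e')).trans ((dvd_prod_of_mem _ (mem_univ i)).mul_left _))).mpr e]
    exact mul_mem (inv_mem (intCast_mem _ _)) (intCast_mem _ _))
  choose b hb using h7
  exact ⟨l, hl, not_le.mp fun h => h6 ((hl.dvd_factorial.mpr h).mul_right _), _, inferInstance,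
    inferInstance, π, b, fun i => (hb i).symm⟩

lemma exists_split {F : ℤ[X]} (hF : F.Monic) {n : ℕ} (hn : F.natDegree = n) (N : ℕ) :
    ∃ l : ℕ, l.Prime ∧ N < l ∧ ∃ b : Fin n → ℤ,
      F.map (Int.castRingHom (ZMod l)) = ∏ i, (X - C (b i : ZMod l)) := by
  classical
  let L := (F.map (algebraMap ℤ ℚ)).SplittingField
  have : NumberField L := NumberField.of_module_finite ℚ L
  have hs := SplittingField.splits (F.map (algebraMap ℤ ℚ))
  rw [Polynomial.map_map, ← IsScalarTower.algebraMap_eq] at hs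
  let e := Fintype.equivFinOfCardEq ((Multiset.card_coe _).trans
    (hs.natDegree_eq_card_roots.symm.trans (hF.natDegree_map _ |>.trans hn)))
  obtain ⟨r, -, h⟩ := exists_int_roots hF (r := fun i => ((e.symm i : _) : L)) (by
    rw [e.symm.prod_comp fun x => X - C (x : L), prod_eq_multiset_prod,
      Multiset.map_univ _ fun x : L => X - C x, ← hs.eq_prod_roots_of_monic (hF.map _)]
    rfl)
  obtain ⟨l, hl, h1, K, _, _, π, b, hb⟩ := exists_deg_one r N
  have := Fact.mk hl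
  refine ⟨l, hl, h1, b, map_injective _ (ZMod.castHom (dvd_refl l) K).injective ?_⟩
  rw [Polynomial.map_map, RingHom.ext_int (RingHom.comp _ _) (π.comp (algebraMap ℤ _)),
    ← Polynomial.map_map, h, Polynomial.map_prod, Polynomial.map_prod]
  simp [hb]

lemma exists_loc {m k : ℕ} (hk : k ≠ 0) (hm : k ≤ m) (N : ℕ) : ∃ l : ℕ, l.Prime ∧ N < l ∧
    ∃ b : Fin m → ℤ, ∀ a : Fin m → ℤ, (∀ i, (l : ℤ) ∣ a i - b i) → a.Injective →
      ∃ r : ℤ, ∀ t : ℤ, (l : ℤ) ^ 2 ∣ t - r → Loc (fP (univ.image a) t) l k := by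
  obtain ⟨d, rfl⟩ := Nat.exists_eq_add_of_le hm
  obtain ⟨l, hl, h1, b, hb⟩ := exists_split (F := X ^ k * (X ^ (d + 1) - C 1) + C 1)
    (((monic_X_pow k).mul (monic_X_pow_sub_C 1 d.succ_ne_zero)).add_of_left (degree_lt_degree (by
      rw [(monic_X_pow k).natDegree_mul (monic_X_pow_sub_C 1 d.succ_ne_zero)]
      simp [Nat.pos_of_ne_zero hk])))
    (n := k + d + 1) (by
      rw [natDegree_add_C, (monic_X_pow k).natDegree_mul (monic_X_pow_sub_C 1 d.succ_ne_zero),
        natDegree_X_pow, natDegree_X_pow_sub_C, add_assoc]) (N + (d + 1))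
  have := Fact.mk hl
  refine ⟨l, hl, by omega, fun i => b i.succ, fun a ha ha' => ?_⟩
  have h2 : ∀ t : ℤ, (l : ℤ) ∣ t - b 0 → (fP (univ.image a) t).map (Int.castRingHom (ZMod l))
      = X ^ k * (X ^ (d + 1) - C 1) := fun t ht => by
    rw [Fin.prod_univ_succ] at hb
    rw [fP, gP, prod_image ha'.injOn, Polynomial.map_sub, Polynomial.map_mul, Polynomial.map_prod,
      prod_congr rfl (g := fun i => X - C (b i.succ : ZMod l)) fun i _ => by
        simp [(ZMod.intCast_eq_intCast_iff_dvd_sub _ _ _).mpr (ha i)]]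
    rw [Polynomial.map_sub, map_X, map_C, eq_intCast (Int.castRingHom _),
      ← (ZMod.intCast_eq_intCast_iff_dvd_sub _ _ _).mpr ht, ← hb]
    simp
  have h3 : ∀ t, (fP (univ.image a) t).eval 0 = -t * (gP (univ.image a)).eval 0 - 1 := by
    simp [fP]
  obtain ⟨r, h4, h5⟩ : ∃ r, (l : ℤ) ∣ r - b 0 ∧ ¬ (l : ℤ) ^ 2 ∣ (fP (univ.image a) r).eval 0 := by
    by_contra! h
    have h6 := h _ (sub_self (b 0) ▸ dvd_zero _)
    have h7 := dvd_sub h6 (h (b 0 + l) (by simp))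
    rw [h3, h3, show ∀ x y z : ℤ, -x * z - 1 - (-(x + y) * z - 1) = y * z from fun _ _ _ => by ring,
      sq, mul_dvd_mul_iff_left (Nat.cast_ne_zero.mpr hl.ne_zero)] at h7
    have h8 := (dvd_pow_self _ two_ne_zero).trans h6
    rw [h3, dvd_sub_right (h7.mul_left _)] at h8
    exact (Nat.prime_iff_prime_int.mp hl).not_dvd_one h8
  refine ⟨r, fun t ht => ⟨_, h2 t ?_, separable_X_pow_sub_C' l _ _
    (Nat.not_dvd_of_pos_of_lt d.succ_pos (by omega)) one_ne_zero, by simp, fun h => h5 ?_⟩⟩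
  · simpa using dvd_add ((dvd_pow_self _ two_ne_zero).trans ht) h4
  · refine (dvd_add h (ht.mul_right ((gP (univ.image a)).eval 0))).trans (dvd_of_eq ?_)
    rw [h3, h3]; ring

lemma exists_family {m : ℕ} (hm : 2 ≤ m) : ∃ (A : Finset ℤ) (q : ℕ) (r : ℤ), A.card = m ∧ q ≠ 0 ∧
    ∀ t : ℤ, (q : ℤ) ∣ t - r → Irreducible (fP A t) →
      Nonempty (((fP A t).map (algebraMap ℤ ℚ)).Gal ≃* Equiv.Perm (Fin (m + 1))) := by
  obtain ⟨l, hl, -, b, hb⟩ := exists_loc two_ne_zero hm 0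
  obtain ⟨l', hl', h, b', hb'⟩ := exists_loc (m := m) (by omega) le_rfl l
  have crt : ∀ x y : ℤ, ∃ z, (l : ℤ) ^ 2 ∣ z - x ∧ (l' : ℤ) ^ 2 ∣ z - y := fun x y => by
    obtain ⟨u, v, e⟩ : IsCoprime ((l : ℤ) ^ 2) (l' ^ 2) :=
      (Nat.isCoprime_iff_coprime.mpr ((Nat.coprime_primes hl hl').mpr h.ne)).pow
    exact ⟨x * v * l' ^ 2 + y * u * l ^ 2, ⟨(y - x) * u, by linear_combination x * e⟩,
      ⟨(x - y) * v, by linear_combination y * e⟩⟩
  choose z h1 h2 using crt
  have hq : (0 : ℤ) < l * l' := by exact_mod_cast Nat.mul_pos hl.pos hl'.pos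
  let a : Fin m → ℤ := fun i => z (b i) (b' i) % (l * l') + l * l' * (i : ℕ)
  have ha : ∀ i, (l * l' : ℤ) ∣ a i - z (b i) (b' i) := fun i =>
    ⟨(i : ℕ) - z (b i) (b' i) / (l * l'), by simp only [a, Int.emod_def]; ring⟩
  have ha' : a.Injective := fun i j e => by
    have := congrArg (· / (l * l' : ℤ)) e
    simp only [a, Int.add_mul_ediv_left _ _ hq.ne', Int.ediv_eq_zero_of_lt
      (Int.emod_nonneg _ hq.ne') (Int.emod_lt_of_pos _ hq)] at this
    exact Fin.ext (by simpa using this)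
  obtain ⟨r, hr⟩ := hb a (fun i => by
    simpa only [sub_add_sub_cancel] using dvd_add ((dvd_mul_right _ _).trans (ha i))
      ((dvd_pow_self _ two_ne_zero).trans (h1 (b i) (b' i)))) ha'
  obtain ⟨r', hr'⟩ := hb' a (fun i => by
    simpa only [sub_add_sub_cancel] using dvd_add ((dvd_mul_left _ _).trans (ha i))
      ((dvd_pow_self _ two_ne_zero).trans (h2 (b i) (b' i)))) ha'
  have hA : (univ.image a).card = m := by rw [card_image_of_injective _ ha', card_fin]
  refine ⟨_, l ^ 2 * l' ^ 2, z r r', hA, by simp [hl.ne_zero, hl'.ne_zero], fun t ht hi =>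
    gal_Sn monic_fP hi (by omega) (by rw [natDegree_fP, hA]) hl hl' (hr t ?_) (hr' t ?_) _⟩ <;>
  rw [Nat.cast_mul, Nat.cast_pow, Nat.cast_pow] at ht
  · simpa using dvd_add ((dvd_mul_right _ _).trans ht) (h1 r r')
  · simpa using dvd_add ((dvd_mul_left _ _).trans ht) (h2 r r')

end Pool.Agent.Lib.MP_4e64b4_nt
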